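import Pool.Agent.W770.SA.Key
import Pool.Agent.H803R2.KakFibre

set_option autoImplicit false

/-!
The gradient of a polynomial in the second group of variables satisfies the fibre bound.
-/

open MeasureTheory Set Filter Topology ENNReal NNReal Metric

namespace Pool.Agent.W770.SA

open Pool.Agent.H803R2.Kak Pool.Agent.H803R2.KakFTO Pool.Agent.H805R3.Kk

open MvPolynomial in
/-- derivative along a coordinate -/
lemma hasDerivAt_eval {σ : Type} [DecidableEq σ] (p : MvPolynomial σ ℝ) (z : σ → ℝ) (j : σ) :
    HasDerivAt (fun s => eval (Function.update z j s) p) (eval z (pderiv j p)) (z j) := by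
  induction p using MvPolynomial.induction_on with
  | C a => simpa using hasDerivAt_const (z j) a
  | add p q hp hq =>
    simp only [map_add]
    exact hp.add hq
  | mul_X p i hp =>
    have hX : HasDerivAt (fun s => Function.update z j s i) (if i = j then 1 else 0) (z j) := by
      by_cases hij : i = j
      · subst hij
        simp only [Function.update_self, if_true]
        exact hasDerivAt_id' (z i)
      · simpa [hij] using hasDerivAt_const (z j) (z i)
    have := hp.mul hX
    rw [Function.update_eq_self] at this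
    have e1 : eval z (pderiv j (p * X i)) =
        eval z (pderiv j p) * z i + eval z p * (if i = j then 1 else 0) := by
      rw [pderiv_mul, map_add, map_mul, map_mul, eval_X, pderiv_X, Pi.single_apply]
      by_cases hij : i = j
      · simp [hij]
      · simp [hij]
    have e2 : (fun s => eval (Function.update z j s) (p * X i)) =
        fun s => eval (Function.update z j s) p * Function.update z j s i := by
      ext s; simp
    rw [e1, e2]
    exact this

open MvPolynomial in
lemma totalDegree_pderiv_le {σ : Type} (p : MvPolynomial σ ℝ) (j : σ) :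
    (pderiv j p).totalDegree ≤ p.totalDegree := by
  classical
  rw [totalDegree, Finset.sup_le_iff]
  intro m hm
  rw [mem_support_iff, coeff_pderiv] at hm
  have h1 : m + Finsupp.single j 1 ∈ p.support := by
    rw [mem_support_iff]
    exact left_ne_zero_of_mul hm
  have h2 := le_totalDegree h1
  have h3 : ((m + Finsupp.single j 1).sum fun _ e => e) = (m.sum fun _ e => e) + 1 := by
    have : (m + Finsupp.single j 1).degree = m.degree + 1 := by
      rw [map_add, Finsupp.degree_single]
    exact this
  omega

variable {n : ℕ}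

/-- value of a polynomial in two groups of variables -/
noncomputable def ev (p : MvPolynomial (Fin n ⊕ Fin n) ℝ) (q : (EuclideanSpace ℝ (Fin n)) × (EuclideanSpace ℝ (Fin n))) : ℝ :=
  MvPolynomial.eval (Sum.elim (fun l => q.1 l) (fun l => q.2 l)) p

theorem contDiff_ev (p : MvPolynomial (Fin n ⊕ Fin n) ℝ) : ContDiff ℝ 1 (ev p) := by
  induction p using MvPolynomial.induction_on with
  | C a =>
    have : ev (n := n) (MvPolynomial.C a) = fun _ => a := by ext q; simp [ev]
    rw [this]; exact contDiff_const
  | add p q hp hq =>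
    have : ev (p + q) = fun x => ev p x + ev q x := by ext x; simp [ev]
    rw [this]; exact hp.add hq
  | mul_X p i hp =>
    have : ev (p * MvPolynomial.X i) = fun x => ev p x * ev (MvPolynomial.X i) x := by
      ext x; simp [ev]
    rw [this]
    apply hp.mul
    rcases i with i | i
    · have : ev (n := n) (MvPolynomial.X (Sum.inl i)) = fun q => q.1 i := by ext x; simp [ev]
      rw [this]
      exact (contDiff_piLp_apply (i := i) (p := 2) (𝕜 := ℝ)).comp contDiff_fst
    · have : ev (n := n) (MvPolynomial.X (Sum.inr i)) = fun q => q.2 i := by ext x; simp [ev]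
      rw [this]
      exact (contDiff_piLp_apply (i := i) (p := 2) (𝕜 := ℝ)).comp contDiff_snd

/-- the gradient in the second group of variables -/
noncomputable def gz (p : MvPolynomial (Fin n ⊕ Fin n) ℝ) (q : (EuclideanSpace ℝ (Fin n)) × (EuclideanSpace ℝ (Fin n))) : (EuclideanSpace ℝ (Fin n)) :=
  WithLp.toLp 2 (fun l => ev (MvPolynomial.pderiv (Sum.inr l) p) q)

theorem contDiff_gz (p : MvPolynomial (Fin n ⊕ Fin n) ℝ) : ContDiff ℝ 1 (gz p) := by
  rw [contDiff_euclidean]
  intro l
  exact contDiff_ev _

theorem prod_mem_Pol' {ι : Type*} (s : Finset ι) (f : ι → (EuclideanSpace ℝ (Fin n)) → ℝ) (L : ι → ℕ)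
    (hf : ∀ i ∈ s, f i ∈ Pol n (L i)) : ∏ i ∈ s, f i ∈ Pol n (∑ i ∈ s, L i) := by
  classical
  induction s using Finset.induction_on with
  | empty => rw [Finset.prod_empty]; exact one_mem_Pol _
  | insert a s ha ih =>
    rw [Finset.prod_insert ha, Finset.sum_insert ha]
    exact mul_mem_Pol (hf a (by simp)) (ih fun i hi => hf i (by simp [hi]))

/-- restriction to `z = y - s x` -/
theorem ev_mem_Pol (p : MvPolynomial (Fin n ⊕ Fin n) ℝ) {k : ℕ} (hp : p.totalDegree ≤ k)
    (s : ℝ) (y : (EuclideanSpace ℝ (Fin n))) : (fun x : (EuclideanSpace ℝ (Fin n)) => ev p (x, y - s • x)) ∈ Pol n k := by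
  have hcoord : ∀ i : Fin n ⊕ Fin n, (fun x : (EuclideanSpace ℝ (Fin n)) => Sum.elim (fun l => x l)
      (fun l => (y - s • x) l) i) ∈ Pol n 1 := by
    rintro (i | i)
    · exact coord_mem_Pol i le_rfl
    · have : (fun x : (EuclideanSpace ℝ (Fin n)) => Sum.elim (fun l => x l) (fun l => (y - s • x) l) (Sum.inr i)) =
          (y i) • (1 : (EuclideanSpace ℝ (Fin n)) → ℝ) - s • (fun x : (EuclideanSpace ℝ (Fin n)) => x i) := by
        ext x; simp
      rw [this]
      exact Submodule.sub_mem _ (Submodule.smul_mem _ _ (one_mem_Pol 1))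
        (Submodule.smul_mem _ _ (coord_mem_Pol i le_rfl))
  have h : (fun x : (EuclideanSpace ℝ (Fin n)) => ev p (x, y - s • x)) = ∑ m ∈ p.support,
      MvPolynomial.coeff m p • ∏ i : Fin n ⊕ Fin n, (fun x : (EuclideanSpace ℝ (Fin n)) => Sum.elim (fun l => x l)
      (fun l => (y - s • x) l) i) ^ (m i) := by
    ext x
    unfold ev
    rw [MvPolynomial.eval_eq']
    simp [Finset.sum_apply, Finset.prod_apply]
  rw [h]
  apply Submodule.sum_mem
  intro m hm
  apply Submodule.smul_mem
  have h1 := prod_mem_Pol' (n := n) Finset.univ (fun i : Fin n ⊕ Fin n =>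
    (fun x : (EuclideanSpace ℝ (Fin n)) => Sum.elim (fun l => x l) (fun l => (y - s • x) l) i) ^ (m i)) (fun i => m i)
    (fun i _ => by simpa using pow_mem_Pol (hcoord i) (m i))
  refine Pol_mono ?_ h1
  calc ∑ i, m i = m.sum (fun _ e => e) := by
        rw [Finsupp.sum_fintype _ _ (fun _ => rfl)]
    _ ≤ p.totalDegree := MvPolynomial.le_totalDegree hm
    _ ≤ k := hp

theorem gz_fibre (hn : 1 ≤ n) (p : MvPolynomial (Fin n ⊕ Fin n) ℝ) {k : ℕ} (hk : 1 ≤ k)
    (hp : p.totalDegree ≤ k) (s : ℝ) (y : (EuclideanSpace ℝ (Fin n))) :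
    ∀ᵐ ℓ : (EuclideanSpace ℝ (Fin n)), {x | gz p (x, y - s • x) = ℓ}.encard ≤ (((1 + n * k) ^ n) ^ n : ℕ) :=
  ae_fibre_le hn k hk (fun x => gz p (x, y - s • x))
    (fun j => ev_mem_Pol _ ((totalDegree_pderiv_le p _).trans hp) s y)

/-- critical points -/
theorem gz_of_isLocalMax (p : MvPolynomial (Fin n ⊕ Fin n) ℝ) (x z ℓ : (EuclideanSpace ℝ (Fin n)))
    (h : IsLocalMax (fun z => ev p (x, z) - ∑ l, ℓ l * z l) z) : gz p (x, z) = ℓ := by
  classical
  ext l
  show ev (MvPolynomial.pderiv (Sum.inr l) p) (x, z) = ℓ l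
  set v : Fin n ⊕ Fin n → ℝ := Sum.elim (fun l => x l) (fun l => z l) with hv
  set g : ℝ → (EuclideanSpace ℝ (Fin n)) := fun s => WithLp.toLp 2 (Function.update (fun l => z l) l s) with hg
  have hg0 : g (z l) = z := by
    ext i; simp [hg]
  have hgc : Continuous g := by
    apply (PiLp.continuous_toLp 2 _).comp
    exact continuous_const.update l continuous_id
  have h1 : IsLocalMax (fun s => ev p (x, g s) - ∑ i, ℓ i * (g s) i) (z l) := by
    have := IsLocalMax.comp_continuous (f := fun z => ev p (x, z) - ∑ l, ℓ l * z l) (g := g)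
      (b := z l) (by rw [hg0]; exact h) hgc.continuousAt
    exact this
  have hd1 : HasDerivAt (fun s => ev p (x, g s)) (ev (MvPolynomial.pderiv (Sum.inr l) p) (x, z))
      (z l) := by
    have h2 := hasDerivAt_eval p v (Sum.inr l)
    have h3 : (fun s => ev p (x, g s)) = fun s => MvPolynomial.eval
        (Function.update v (Sum.inr l) s) p := by
      ext s
      unfold ev
      congr 2
      ext i
      rcases i with i | i
      · simp [hv]
      · by_cases hi : i = l
        · subst hi; simp [hg]
        · simp [hg, hv, hi]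
    rw [h3]
    exact h2
  have hd2 : HasDerivAt (fun s => ∑ i, ℓ i * (g s) i) (ℓ l) (z l) := by
    have h4 : (fun s => ∑ i, ℓ i * (g s) i) = fun s => ∑ i, ℓ i * z i + ℓ l * (s - z l) := by
      ext s
      rw [← Finset.add_sum_erase _ _ (Finset.mem_univ l),
        ← Finset.add_sum_erase _ (fun i => ℓ i * z i) (Finset.mem_univ l)]
      have h5 : ∑ i ∈ Finset.univ.erase l, ℓ i * (g s) i =
          ∑ i ∈ Finset.univ.erase l, ℓ i * z i := by
        apply Finset.sum_congr rfl
        intro i hi
        have : i ≠ l := (Finset.mem_erase.1 hi).1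
        simp [hg, this]
      rw [h5]
      have h6 : (g s) l = s := by simp [hg]
      rw [h6]
      ring
    rw [h4]
    have h7 : HasDerivAt (fun s => ℓ l * (s - z l)) (ℓ l * 1) (z l) :=
      ((hasDerivAt_id (z l)).sub_const (z l)).const_mul (ℓ l)
    rw [mul_one] at h7
    exact h7.const_add _
  have h8 := h1.hasDerivAt_eq_zero (hd1.sub hd2)
  linarith

end Pool.Agent.W770.SA
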