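import Pool.Agent.W770.SA.Poly

set_option autoImplicit false

/-!
The key theorem for basic open semialgebraic sets.
-/

open MeasureTheory Set Filter Topology ENNReal NNReal Metric

namespace Pool.Agent.W770.SA

open Pool.Agent.H803R2.Kak Pool.Agent.H803R2.KakFTO Pool.Agent.H805R3.Kk

variable {n : ℕ}

/-- value of a polynomial at a point of Euclidean space -/
noncomputable def evl (p : MvPolynomial (Fin n) ℝ) (x : (EuclideanSpace ℝ (Fin n))) : ℝ :=
  MvPolynomial.eval (fun l => x l) p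

theorem continuous_evl (p : MvPolynomial (Fin n) ℝ) : Continuous (evl p) := by
  unfold evl
  exact (MvPolynomial.continuous_eval p).comp (by fun_prop)

/-- the basic open set -/
def bas {m : ℕ} (P : Fin m → MvPolynomial (Fin n) ℝ) : Set (EuclideanSpace ℝ (Fin n)) := {x | ∀ i, 0 < evl (P i) x}

theorem isOpen_bas {m : ℕ} (P : Fin m → MvPolynomial (Fin n) ℝ) : IsOpen (bas P) := by
  have : bas P = ⋂ i, {x | 0 < evl (P i) x} := by ext x; simp [bas]
  rw [this]
  exact isOpen_iInter_of_finite fun i => isOpen_lt continuous_const (continuous_evl _)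

/-- restriction of a polynomial to a line -/
theorem exists_line (p : MvPolynomial (Fin n) ℝ) (z x : (EuclideanSpace ℝ (Fin n))) :
    ∃ f : Polynomial ℝ, f.natDegree ≤ p.totalDegree ∧ ∀ s, f.eval s = evl p (z + s • x) := by
  refine ⟨MvPolynomial.aeval (fun l => Polynomial.C (z l) + Polynomial.C (x l) * Polynomial.X) p,
    ?_, ?_⟩
  · have := MvPolynomial.aeval_natDegree_le (n := 1) p le_rfl
      (fun l => Polynomial.C (z l) + Polynomial.C (x l) * Polynomial.X) (fun l => by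
        refine (Polynomial.natDegree_add_le _ _).trans ?_
        rw [Polynomial.natDegree_C]
        refine max_le (by norm_num) ?_
        refine (Polynomial.natDegree_C_mul_le _ _).trans ?_
        exact Polynomial.natDegree_X_le)
    simpa using this
  · intro s
    unfold evl
    induction p using MvPolynomial.induction_on with
    | C a => simp
    | add p q hp hq => simp only [map_add, Polynomial.eval_add, hp, hq]
    | mul_X p i hp =>
      simp only [map_mul, Polynomial.eval_mul, hp, MvPolynomial.aeval_X, MvPolynomial.eval_X]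
      congr 1
      rw [Polynomial.eval_add, Polynomial.eval_C, Polynomial.eval_mul, Polynomial.eval_C,
        Polynomial.eval_X, PiLp.add_apply, PiLp.smul_apply, smul_eq_mul, mul_comm s]

/-- The zeros of finitely many nonzero polynomials. -/
theorem exists_zeros {m : ℕ} (P : Fin m → MvPolynomial (Fin n) ℝ) {D : ℕ}
    (hD : ∑ i, (P i).totalDegree ≤ D) (z x : (EuclideanSpace ℝ (Fin n))) :
    ∃ Z : Finset ℝ, Z.card ≤ D ∧ ∀ (i : Fin m) (s : ℝ), evl (P i) (z + s • x) = 0 →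
      (∃ s' : ℝ, evl (P i) (z + s' • x) ≠ 0) → s ∈ Z := by
  classical
  choose f hf1 hf2 using fun i => exists_line (P i) z x
  refine ⟨Finset.univ.biUnion fun i => (f i).roots.toFinset, ?_, ?_⟩
  · refine Finset.card_biUnion_le.trans (le_trans ?_ hD)
    apply Finset.sum_le_sum
    intro i _
    exact (Multiset.toFinset_card_le _).trans ((Polynomial.card_roots' _).trans (hf1 i))
  · rintro i s hs ⟨s', hs'⟩
    rw [← hf2] at hs hs'
    have h0 : f i ≠ 0 := by
      intro h; rw [h] at hs'; simp at hs'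
    simp only [Finset.mem_biUnion, Finset.mem_univ, true_and, Multiset.mem_toFinset]
    exact ⟨i, (Polynomial.mem_roots h0).2 hs⟩

/-- a sign change produces a zero -/
theorem exists_zero_between (p : MvPolynomial (Fin n) ℝ) (z x : (EuclideanSpace ℝ (Fin n))) {a b : ℝ} (hab : a ≤ b)
    (ha : 0 < evl p (z + a • x)) (hb : evl p (z + b • x) ≤ 0) :
    ∃ s ∈ Icc a b, evl p (z + s • x) = 0 := by
  have hc : ContinuousOn (fun s : ℝ => evl p (z + s • x)) (Icc a b) := by
    apply Continuous.continuousOn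
    exact (continuous_evl p).comp (by fun_prop)
  have := intermediate_value_Icc' hab hc
  obtain ⟨s, hs, h⟩ := this ⟨hb, ha.le⟩
  exact ⟨s, hs, h⟩

/-- Most points of the segment are good if the sample points are good. -/
theorem sample {m : ℕ} (P : Fin m → MvPolynomial (Fin n) ℝ) {D M : ℕ}
    (hD : ∑ i, (P i).totalDegree ≤ D) (hM : 2 * D ≤ M) {h : ℝ} (hh : 0 < h) (z x : (EuclideanSpace ℝ (Fin n)))
    (hs : ∀ j ≤ M, z + ((j:ℝ) * h) • x ∈ bas P) :
    volume {s : ℝ | s ∈ Icc 0 (M * h) ∧ z + s • x ∉ bas P} ≤ ENNReal.ofReal (M * h / 2) := by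
  classical
  obtain ⟨Z, hZc, hZ⟩ := exists_zeros P hD z x
  set J : Finset ℕ := Z.image (fun r => ⌊r / h⌋₊) with hJ
  have hsub : {s : ℝ | s ∈ Icc 0 (M * h) ∧ z + s • x ∉ bas P} ⊆
      ⋃ j ∈ J, Icc ((j:ℝ) * h) ((j:ℝ) * h + h) := by
    rintro s ⟨⟨hs0, hsM⟩, hsn⟩
    have hsn' : ∃ i, evl (P i) (z + s • x) ≤ 0 := by
      by_contra hno
      push Not at hno
      exact hsn hno
    obtain ⟨i, hi⟩ := hsn'
    set j := ⌊s / h⌋₊ with hj
    have h1 : (j:ℝ) ≤ s / h := Nat.floor_le (by positivity)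
    have h2 : s / h < j + 1 := Nat.lt_floor_add_one _
    rw [le_div_iff₀ hh] at h1
    rw [div_lt_iff₀ hh] at h2
    have hjM : j ≤ M := by
      have : s / h ≤ M := by rw [div_le_iff₀ hh]; exact hsM
      exact Nat.floor_le_of_le this
    have h3 : 0 < evl (P i) (z + ((j:ℝ) * h) • x) := hs j hjM i
    obtain ⟨r, ⟨hr1, hr2⟩, hr3⟩ := exists_zero_between (P i) z x h1 h3 hi
    have hrZ : r ∈ Z := hZ i r hr3 ⟨_, h3.ne'⟩
    have hrf : ⌊r / h⌋₊ = j := by
      rw [Nat.floor_eq_iff (by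
        apply div_nonneg _ hh.le
        refine le_trans ?_ hr1
        positivity)]
      constructor
      · rw [le_div_iff₀ hh]; exact hr1
      · rw [div_lt_iff₀ hh]; linarith
    refine mem_iUnion₂.2 ⟨j, ?_, h1, by linarith⟩
    rw [hJ, Finset.mem_image]
    exact ⟨r, hrZ, hrf⟩
  refine (measure_mono hsub).trans ((measure_biUnion_finset_le _ _).trans ?_)
  simp only [Real.volume_Icc, add_sub_cancel_left, Finset.sum_const, nsmul_eq_mul]
  rw [← ENNReal.ofReal_natCast, ← ENNReal.ofReal_mul (by positivity)]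
  apply ENNReal.ofReal_le_ofReal
  have h1 : (J.card : ℝ) ≤ D := by
    exact_mod_cast (Finset.card_image_le).trans hZc
  have h2 : (2:ℝ) * D ≤ M := by exact_mod_cast hM
  nlinarith

/-- substitution `z + t x` -/
noncomputable def sbst (t : ℝ) (p : MvPolynomial (Fin n) ℝ) :
    MvPolynomial (Fin n ⊕ Fin n) ℝ :=
  MvPolynomial.bind₁ (fun l => MvPolynomial.X (Sum.inr l) +
    MvPolynomial.C t * MvPolynomial.X (Sum.inl l)) p

theorem ev_sbst (t : ℝ) (p : MvPolynomial (Fin n) ℝ) (x z : (EuclideanSpace ℝ (Fin n))) :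
    ev (sbst t p) (x, z) = evl p (z + t • x) := by
  unfold ev sbst evl
  rw [← MvPolynomial.aeval_eq_eval, MvPolynomial.aeval_bind₁, MvPolynomial.aeval_eq_eval]
  congr 2
  ext l
  simp

theorem totalDegree_sbst_le (t : ℝ) (p : MvPolynomial (Fin n) ℝ) :
    (sbst t p).totalDegree ≤ p.totalDegree := by
  classical
  have h : sbst t p = ∑ m ∈ p.support, MvPolynomial.C (MvPolynomial.coeff m p) *
      ∏ l, (MvPolynomial.X (Sum.inr l) + MvPolynomial.C t * MvPolynomial.X (Sum.inl l)) ^ (m l) := by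
    unfold sbst
    rw [MvPolynomial.bind₁, MvPolynomial.aeval_def, MvPolynomial.eval₂_eq']
    rfl
  rw [h]
  apply MvPolynomial.totalDegree_finsetSum_le
  intro m hm
  refine (MvPolynomial.totalDegree_mul _ _).trans ?_
  rw [MvPolynomial.totalDegree_C, zero_add]
  refine (MvPolynomial.totalDegree_finsetProd _ _).trans ?_
  calc ∑ l, ((MvPolynomial.X (Sum.inr l) + MvPolynomial.C t * MvPolynomial.X (Sum.inl l) :
        MvPolynomial (Fin n ⊕ Fin n) ℝ) ^ (m l)).totalDegree
      ≤ ∑ l, m l := by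
        apply Finset.sum_le_sum
        intro l _
        refine (MvPolynomial.totalDegree_pow _ _).trans ?_
        have h1 : (MvPolynomial.X (Sum.inr l) + MvPolynomial.C t * MvPolynomial.X (Sum.inl l) :
            MvPolynomial (Fin n ⊕ Fin n) ℝ).totalDegree ≤ 1 := by
          refine (MvPolynomial.totalDegree_add _ _).trans (max_le ?_ ?_)
          · rw [MvPolynomial.totalDegree_X]
          · refine (MvPolynomial.totalDegree_mul _ _).trans ?_
            rw [MvPolynomial.totalDegree_C, MvPolynomial.totalDegree_X]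
        calc m l * _ ≤ m l * 1 := Nat.mul_le_mul_left _ h1
          _ = m l := mul_one _
    _ = m.sum (fun _ e => e) := by rw [Finsupp.sum_fintype _ _ (fun _ => rfl)]
    _ ≤ _ := MvPolynomial.le_totalDegree hm

/-- `R ^ 2 - |z| ^ 2` -/
noncomputable def rad (R : ℝ) : MvPolynomial (Fin n ⊕ Fin n) ℝ :=
  MvPolynomial.C (R ^ 2) - ∑ l, MvPolynomial.X (Sum.inr l) ^ 2

theorem ev_rad (R : ℝ) (x z : (EuclideanSpace ℝ (Fin n))) : ev (rad R) (x, z) = R ^ 2 - ‖z‖ ^ 2 := by
  unfold ev rad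
  simp [EuclideanSpace.norm_sq_eq]

theorem totalDegree_rad_le (R : ℝ) : (rad (n := n) R).totalDegree ≤ 2 := by
  unfold rad
  refine (MvPolynomial.totalDegree_sub _ _).trans (max_le ?_ ?_)
  · rw [MvPolynomial.totalDegree_C]; norm_num
  · apply MvPolynomial.totalDegree_finsetSum_le
    intro l _
    refine (MvPolynomial.totalDegree_pow _ _).trans ?_
    rw [MvPolynomial.totalDegree_X]

/-- the product polynomial -/
noncomputable def big {m : ℕ} (P : Fin m → MvPolynomial (Fin n) ℝ) (M : ℕ) (h R : ℝ) :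
    MvPolynomial (Fin n ⊕ Fin n) ℝ :=
  rad R * ∏ j ∈ Finset.range (M + 1), ∏ i, sbst (j * h) (P i)

theorem ev_big {m : ℕ} (P : Fin m → MvPolynomial (Fin n) ℝ) (M : ℕ) (h R : ℝ) (x z : (EuclideanSpace ℝ (Fin n))) :
    ev (big P M h R) (x, z) = (R ^ 2 - ‖z‖ ^ 2) *
      ∏ j ∈ Finset.range (M + 1), ∏ i, evl (P i) (z + ((j:ℝ) * h) • x) := by
  have h1 : ∀ p q : MvPolynomial (Fin n ⊕ Fin n) ℝ, ev (p * q) (x, z) = ev p (x, z) * ev q (x, z) :=
    fun p q => by simp [ev]
  unfold big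
  rw [h1, ev_rad]
  congr 1
  have h2 : ∀ {ι : Type} (s : Finset ι) (f : ι → MvPolynomial (Fin n ⊕ Fin n) ℝ),
      ev (∏ j ∈ s, f j) (x, z) = ∏ j ∈ s, ev (f j) (x, z) := fun s f => by
    unfold ev; rw [map_prod]
  rw [h2]
  apply Finset.prod_congr rfl
  intro j _
  rw [h2]
  apply Finset.prod_congr rfl
  intro i _
  exact ev_sbst _ _ _ _

theorem totalDegree_big_le {m : ℕ} (P : Fin m → MvPolynomial (Fin n) ℝ) {D : ℕ}
    (hD : ∑ i, (P i).totalDegree ≤ D) (M : ℕ) (h R : ℝ) :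
    (big P M h R).totalDegree ≤ 2 + (M + 1) * D := by
  unfold big
  refine (MvPolynomial.totalDegree_mul _ _).trans (add_le_add (totalDegree_rad_le R) ?_)
  refine (MvPolynomial.totalDegree_finsetProd _ _).trans ?_
  calc ∑ j ∈ Finset.range (M + 1), (∏ i, sbst (j * h) (P i)).totalDegree
      ≤ ∑ j ∈ Finset.range (M + 1), D := by
        apply Finset.sum_le_sum
        intro j _
        refine (MvPolynomial.totalDegree_finsetProd _ _).trans (le_trans ?_ hD)
        apply Finset.sum_le_sum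
        intro i _
        exact totalDegree_sbst_le _ _
    _ = (M + 1) * D := by simp

/-- good starting points -/
def good {m : ℕ} (P : Fin m → MvPolynomial (Fin n) ℝ) (M : ℕ) (h R : ℝ) : Set ((EuclideanSpace ℝ (Fin n)) × (EuclideanSpace ℝ (Fin n))) :=
  {p | ‖p.2‖ < R ∧ ∀ j ≤ M, p.2 + ((j:ℝ) * h) • p.1 ∈ bas P}

theorem isOpen_good {m : ℕ} (P : Fin m → MvPolynomial (Fin n) ℝ) (M : ℕ) (h R : ℝ) :
    IsOpen (good P M h R) := by
  have : good P M h R = {p : (EuclideanSpace ℝ (Fin n)) × (EuclideanSpace ℝ (Fin n)) | ‖p.2‖ < R} ∩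
      ⋂ j ∈ Finset.range (M + 1), {p : (EuclideanSpace ℝ (Fin n)) × (EuclideanSpace ℝ (Fin n)) | p.2 + ((j:ℝ) * h) • p.1 ∈ bas P} := by
    ext p
    simp [good]
  rw [this]
  apply IsOpen.inter (isOpen_lt (by fun_prop) continuous_const)
  apply isOpen_biInter_finset
  intro j _
  exact (isOpen_bas P).preimage (by fun_prop)

theorem ev_big_pos {m : ℕ} (P : Fin m → MvPolynomial (Fin n) ℝ) (M : ℕ) {h R : ℝ} {p : (EuclideanSpace ℝ (Fin n)) × (EuclideanSpace ℝ (Fin n))}
    (hp : p ∈ good P M h R) : 0 < ev (big P M h R) p := by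
  obtain ⟨x, z⟩ := p
  rw [ev_big]
  obtain ⟨h1, h2⟩ := hp
  apply _root_.mul_pos
  · have := norm_nonneg z
    have h3 : ‖z‖ < R := h1
    nlinarith
  · apply Finset.prod_pos
    intro j hj
    apply Finset.prod_pos
    intro i _
    exact h2 j (Nat.lt_succ_iff.1 (Finset.mem_range.1 hj)) i

/-- existence of critical points -/
theorem exists_crit {m : ℕ} (P : Fin m → MvPolynomial (Fin n) ℝ) (M : ℕ) {h R η : ℝ} (hR : 0 < R)
    {x : (EuclideanSpace ℝ (Fin n))} (hx : ∃ z, (x, z) ∈ good P M h R ∧ η < ev (big P M h R) (x, z)) {ℓ : (EuclideanSpace ℝ (Fin n))}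
    (hℓ : ‖ℓ‖ < η / (2 * R)) :
    ∃ z, (x, z) ∈ good P M h R ∧ gz (big P M h R) (x, z) = ℓ := by
  obtain ⟨z1, hz1, hη⟩ := hx
  set q := big P M h R with hq
  set K : Set (EuclideanSpace ℝ (Fin n)) := {z | ‖z‖ ≤ R ∧ ∀ j ≤ M, ∀ i, 0 ≤ evl (P i) (z + ((j:ℝ) * h) • x)} with hK
  have hKc : IsCompact K := by
    apply Metric.isCompact_of_isClosed_isBounded
    · have : K = {z : (EuclideanSpace ℝ (Fin n)) | ‖z‖ ≤ R} ∩ ⋂ j, ⋂ (_ : j ≤ M), ⋂ i,
          {z : (EuclideanSpace ℝ (Fin n)) | 0 ≤ evl (P i) (z + ((j:ℝ) * h) • x)} := by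
        ext z; simp [hK]
      rw [this]
      apply IsClosed.inter (isClosed_le (by fun_prop) continuous_const)
      refine isClosed_iInter fun j => isClosed_iInter fun _ => isClosed_iInter fun i => ?_
      exact isClosed_le continuous_const ((continuous_evl _).comp (by fun_prop))
    · refine (isBounded_closedBall (x := (0:(EuclideanSpace ℝ (Fin n)))) (r := R)).subset ?_
      intro z hz
      rw [mem_closedBall_zero_iff]; exact hz.1
  have hlin : ∀ z : (EuclideanSpace ℝ (Fin n)), ‖z‖ ≤ R → |∑ l, ℓ l * z l| ≤ ‖ℓ‖ * R := by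
    intro z hz
    have h1 : ∑ l, ℓ l * z l = inner ℝ ℓ z := by
      rw [PiLp.inner_apply]
      simp [mul_comm]
    rw [h1]
    exact (abs_real_inner_le_norm _ _).trans (by gcongr)
  have hcont : Continuous (fun z : (EuclideanSpace ℝ (Fin n)) => ev q (x, z) - ∑ l, ℓ l * z l) := by
    apply Continuous.sub
    · exact (contDiff_ev q).continuous.comp (by fun_prop)
    · fun_prop
  have hgK : ∀ z, (x, z) ∈ good P M h R → z ∈ K := by
    rintro z ⟨h1, h2⟩
    exact ⟨le_of_lt h1, fun j hj i => (h2 j hj i).le⟩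
  obtain ⟨z, hzK, hz⟩ := hKc.exists_isMaxOn ⟨z1, hgK z1 hz1⟩ hcont.continuousOn
  have hR2 : ‖ℓ‖ * R < η / 2 := by
    rw [lt_div_iff₀ (by positivity)] at hℓ
    linarith
  have hval : η / 2 < ev q (x, z) - ∑ l, ℓ l * z l := by
    have h1 : ev q (x, z1) - ∑ l, ℓ l * z1 l ≤ ev q (x, z) - ∑ l, ℓ l * z l := hz (hgK z1 hz1)
    have h2 := hlin z1 (le_of_lt hz1.1)
    have h3 := abs_le.1 h2
    linarith [h3.2]
  have hqpos : ev q (x, z) ≠ 0 := by
    intro h0
    have h2 := hlin z hzK.1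
    have h3 := abs_le.1 h2
    linarith [h3.1]
  have hgood : (x, z) ∈ good P M h R := by
    rw [hq, ev_big] at hqpos
    have h1 := left_ne_zero_of_mul hqpos
    have h2 := right_ne_zero_of_mul hqpos
    rw [Finset.prod_ne_zero_iff] at h2
    refine ⟨?_, ?_⟩
    · apply lt_of_le_of_ne hzK.1
      intro h3
      have h3' : ‖z‖ = R := h3
      rw [h3'] at h1
      exact h1 (by ring)
    · intro j hj i
      have h3 := h2 j (Finset.mem_range.2 (Nat.lt_succ_of_le hj))
      rw [Finset.prod_ne_zero_iff] at h3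
      exact lt_of_le_of_ne (hzK.2 j hj i) (h3 i (Finset.mem_univ i)).symm
  refine ⟨z, hgood, gz_of_isLocalMax q x z ℓ ?_⟩
  have hopen : IsOpen {z : (EuclideanSpace ℝ (Fin n)) | (x, z) ∈ good P M h R} := (isOpen_good P M h R).preimage (by fun_prop)
  filter_upwards [hopen.mem_nhds hgood] with z' hz'
  exact hz (hgK z' hz')

/-- **Key theorem for basic open semialgebraic sets.** -/
theorem basic (hn : 1 ≤ n) {m : ℕ} (P : Fin m → MvPolynomial (Fin n) ℝ) {D M : ℕ}
    (hD : ∑ i, (P i).totalDegree ≤ D) (hM1 : 1 ≤ M) (hM : 2 * D ≤ M) {μ : ℝ} (hμ : 0 < μ) :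
    volume {x : (EuclideanSpace ℝ (Fin n)) | ∃ z, ∀ j ≤ M, z + ((j:ℝ) * (μ / M)) • x ∈ bas P} ≤
      ENNReal.ofReal (4 * (8 * n / μ) ^ n) *
        ((((1 + n * (2 + (M + 1) * D)) ^ n) ^ n : ℕ) * volume (bas P)) := by
  have hM0 : (0:ℝ) < M := by exact_mod_cast hM1
  set h : ℝ := μ / M with hh
  have hh0 : 0 < h := by positivity
  have hMh : (M:ℝ) * h = μ := by rw [hh]; field_simp
  set B : ℕ → Set (EuclideanSpace ℝ (Fin n)) := fun k => {x | ∃ z, (x, z) ∈ good P M h (k + 1) ∧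
    1 / ((k:ℝ) + 1) < ev (big P M h (k + 1)) (x, z)} with hB
  have hBk : ∀ k, volume (B k) ≤ ENNReal.ofReal (4 * (8 * n / μ) ^ n) *
        ((((1 + n * (2 + (M + 1) * D)) ^ n) ^ n : ℕ) * volume (bas P)) := by
    intro k
    have hk0 : (0:ℝ) < (k:ℝ) + 1 := by positivity
    refine key hn hμ (isOpen_bas P).measurableSet (contDiff_gz (big P M h (k + 1)))
      (gz_fibre hn _ (by omega) (totalDegree_big_le P hD M h _)) (isOpen_good P M h (k + 1)) ?_
      (ε := 1 / ((k:ℝ) + 1) / (2 * ((k:ℝ) + 1))) (by positivity) ?_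
    · rintro ⟨x, z⟩ hp
      have h1 := sample P hD hM hh0 z x hp.2
      rw [hMh] at h1
      exact h1
    · intro ℓ hℓ x hx
      exact exists_crit P M hk0 hx hℓ
  have hmono : Monotone B := by
    intro k k' hkk'
    rintro x ⟨z, hz, hη⟩
    have hk0 : (0:ℝ) < (k:ℝ) + 1 := by positivity
    have hkk : (k:ℝ) + 1 ≤ (k':ℝ) + 1 := by
      have : (k:ℝ) ≤ k' := by exact_mod_cast hkk'
      linarith
    have hz' : (x, z) ∈ good P M h (k' + 1) := ⟨lt_of_lt_of_le hz.1 hkk, hz.2⟩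
    refine ⟨z, hz', ?_⟩
    have h1 : 1 / ((k':ℝ) + 1) ≤ 1 / ((k:ℝ) + 1) := one_div_le_one_div_of_le hk0 hkk
    refine lt_of_le_of_lt h1 (lt_of_lt_of_le hη ?_)
    rw [ev_big, ev_big]
    apply mul_le_mul_of_nonneg_right
    · have : ((k:ℝ) + 1) ^ 2 ≤ ((k':ℝ) + 1) ^ 2 := by gcongr
      linarith
    · apply Finset.prod_nonneg
      intro j hj
      apply Finset.prod_nonneg
      intro i _
      exact (hz.2 j (Nat.lt_succ_iff.1 (Finset.mem_range.1 hj)) i).le
  have hunion : {x : (EuclideanSpace ℝ (Fin n)) | ∃ z, ∀ j ≤ M, z + ((j:ℝ) * h) • x ∈ bas P} ⊆ ⋃ k, B k := by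
    rintro x ⟨z, hz⟩
    obtain ⟨k0, hk0⟩ := exists_nat_gt ‖z‖
    have hgood0 : (x, z) ∈ good P M h (k0 + 1) := ⟨by
      show ‖z‖ < (k0:ℝ) + 1
      linarith, hz⟩
    have hpos := ev_big_pos P M hgood0
    obtain ⟨k1, hk1⟩ := exists_nat_gt (1 / ev (big P M h (k0 + 1)) (x, z))
    refine mem_iUnion.2 ⟨max k0 k1, z, ?_, ?_⟩
    · refine ⟨?_, hz⟩
      show ‖z‖ < ((max k0 k1 : ℕ):ℝ) + 1
      have : (k0:ℝ) ≤ ((max k0 k1 : ℕ):ℝ) := by exact_mod_cast le_max_left _ _
      linarith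
    · have hk0' : (k0:ℝ) ≤ ((max k0 k1 : ℕ):ℝ) := by exact_mod_cast le_max_left _ _
      have hk1' : (k1:ℝ) ≤ ((max k0 k1 : ℕ):ℝ) := by exact_mod_cast le_max_right _ _
      set k := max k0 k1 with hk
      have h1 : ev (big P M h (k0 + 1)) (x, z) ≤ ev (big P M h (k + 1)) (x, z) := by
        rw [ev_big, ev_big]
        apply mul_le_mul_of_nonneg_right
        · have : ((k0:ℝ) + 1) ^ 2 ≤ ((k:ℝ) + 1) ^ 2 := by gcongr
          linarith
        · apply Finset.prod_nonneg
          intro j hj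
          apply Finset.prod_nonneg
          intro i _
          exact (hz j (Nat.lt_succ_iff.1 (Finset.mem_range.1 hj)) i).le
      refine lt_of_lt_of_le ?_ h1
      rw [div_lt_iff₀ (by positivity)]
      rw [div_lt_iff₀ hpos] at hk1
      nlinarith
  calc volume {x : (EuclideanSpace ℝ (Fin n)) | ∃ z, ∀ j ≤ M, z + ((j:ℝ) * h) • x ∈ bas P}
      ≤ volume (⋃ k, B k) := measure_mono hunion
    _ = ⨆ k, volume (B k) := hmono.measure_iUnion
    _ ≤ _ := iSup_le hBk

end Pool.Agent.W770.SA
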