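import Pool.Agent.W770.SA.Crit

set_option autoImplicit false

/-!
Counting tubes of a direction-separated family that meet a semialgebraic set in a large part.
-/

open MeasureTheory Set Filter Topology ENNReal NNReal Metric

namespace Pool.Agent.W770.SA

variable {n : ℕ}

theorem norm_perp_le {w e : (EuclideanSpace ℝ (Fin n))} (he : ‖e‖ = 1) (t : ℝ) :
    ‖w - (inner ℝ w e : ℝ) • e‖ ≤ ‖w - t • e‖ := by
  have h : ∀ r : ℝ, ‖w - r • e‖ ^ 2 = ‖w‖ ^ 2 - 2 * (r * inner ℝ w e) + r ^ 2 := by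
    intro r
    rw [norm_sub_sq_real, inner_smul_right, norm_smul, he, mul_one, Real.norm_eq_abs, sq_abs]
  have h1 := h (inner ℝ w e)
  have h2 := h t
  have h3 : ‖w - (inner ℝ w e : ℝ) • e‖ ^ 2 ≤ ‖w - t • e‖ ^ 2 := by
    rw [h1, h2]
    nlinarith [sq_nonneg (t - inner ℝ w e)]
  exact (pow_le_pow_iff_left₀ (norm_nonneg _) (norm_nonneg _) (by norm_num)).1 h3

theorem mem_tube_shift {δ : ℝ} {e a y : (EuclideanSpace ℝ (Fin n))} (he : ‖e‖ = 1) (k : ℝ) :
    y ∈ tube δ e (a + k • e) ↔ |inner ℝ (y - a) e - k| ≤ 1 / 2 ∧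
      ‖(y - a) - (inner ℝ (y - a) e : ℝ) • e‖ ≤ δ := by
  have h1 : y - (a + k • e) = (y - a) - k • e := by abel
  have h2 : inner ℝ (y - (a + k • e)) e = inner ℝ (y - a) e - k := by
    rw [h1, inner_sub_left, inner_smul_left, real_inner_self_eq_norm_sq, he]
    simp
  have h3 : (y - (a + k • e)) - (inner ℝ (y - (a + k • e)) e : ℝ) • e =
      (y - a) - (inner ℝ (y - a) e : ℝ) • e := by
    rw [h2, h1, sub_smul]; abel
  unfold tube
  rw [mem_ofPred_eq, h3, h2]

/-- A tube is covered by three tubes of twice the radius with a nearby direction. -/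
theorem tube_cover {δ : ℝ} (hδ : 0 < δ) (hδ1 : δ ≤ 1) {e e' : (EuclideanSpace ℝ (Fin n))} (a : (EuclideanSpace ℝ (Fin n)))
    (he : ‖e‖ = 1) (he' : ‖e'‖ = 1) (h : ‖e - e'‖ ≤ δ) :
    tube δ e a ⊆ (tube (2 * δ) e' (a + (-1 : ℝ) • e') ∪ tube (2 * δ) e' (a + (0 : ℝ) • e')) ∪
      tube (2 * δ) e' (a + (1 : ℝ) • e') := by
  intro y hy
  obtain ⟨h1, h2⟩ := hy
  set w := y - a with hw
  set t : ℝ := inner ℝ w e with ht
  set s : ℝ := inner ℝ w e' with hs
  have hwn : ‖w‖ ≤ 1 / 2 + δ := by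
    calc ‖w‖ = ‖t • e + (w - t • e)‖ := by congr 1; abel
      _ ≤ ‖t • e‖ + ‖w - t • e‖ := norm_add_le _ _
      _ ≤ 1 / 2 + δ := by
          rw [norm_smul, he, mul_one, Real.norm_eq_abs]; linarith
  have hs1 : |s| ≤ 3 / 2 := by
    have := abs_real_inner_le_norm w e'
    rw [he', mul_one] at this
    linarith
  have hp : ‖w - s • e'‖ ≤ 2 * δ := by
    calc ‖w - s • e'‖ ≤ ‖w - t • e'‖ := norm_perp_le he' t
      _ = ‖(w - t • e) + t • (e - e')‖ := by congr 1; rw [smul_sub]; abel
      _ ≤ ‖w - t • e‖ + ‖t • (e - e')‖ := norm_add_le _ _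
      _ ≤ δ + 1 / 2 * δ := by
          rw [norm_smul, Real.norm_eq_abs]
          gcongr
      _ ≤ 2 * δ := by linarith
  rw [abs_le] at hs1
  by_cases h3 : s ≤ -(1/2)
  · left; left
    rw [mem_tube_shift he']
    refine ⟨?_, hp⟩
    rw [abs_le]; constructor <;> linarith
  · by_cases h4 : s ≤ 1/2
    · left; right
      rw [mem_tube_shift he']
      refine ⟨?_, hp⟩
      rw [abs_le]; constructor <;> linarith
    · right
      rw [mem_tube_shift he']
      refine ⟨?_, hp⟩
      rw [abs_le]; constructor <;> linarith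

theorem volume_tube_two (δ : ℝ) (e a : (EuclideanSpace ℝ (Fin n))) :
    volume (tube (2 * δ) e a) ≤ 2 ^ n * volume (tube δ e a) := by
  have h1 : tube (2 * δ) e a ⊆ AffineMap.homothety a (2:ℝ) '' tube δ e a := by
    intro y hy
    refine ⟨a + (1/2 : ℝ) • (y - a), ?_, ?_⟩
    · obtain ⟨h2, h3⟩ := hy
      have h4 : a + (1/2 : ℝ) • (y - a) - a = (1/2 : ℝ) • (y - a) := by abel
      refine ⟨?_, ?_⟩
      · rw [h4, inner_smul_left]
        simp only [conj_trivial]
        rw [abs_mul, abs_of_pos (by norm_num : (0:ℝ) < 1/2)]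
        nlinarith [abs_nonneg (inner ℝ (y - a) e : ℝ)]
      · rw [h4, inner_smul_left]
        simp only [conj_trivial]
        rw [mul_smul, ← smul_sub, norm_smul, Real.norm_eq_abs, abs_of_pos (by norm_num : (0:ℝ) < 1/2)]
        linarith
    · rw [AffineMap.homothety_apply, vsub_eq_sub, vadd_eq_add, add_sub_cancel_left, smul_smul]
      norm_num
  calc volume (tube (2 * δ) e a) ≤ volume (AffineMap.homothety a (2:ℝ) '' tube δ e a) :=
        measure_mono h1
    _ = 2 ^ n * volume (tube δ e a) := by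
        rw [Measure.addHaar_image_homothety]
        congr 1
        rw [finrank_euclideanSpace_fin, abs_of_pos (by positivity), ENNReal.ofReal_pow (by norm_num)]
        simp

theorem volume_tube_translate (δ : ℝ) (e a b : (EuclideanSpace ℝ (Fin n))) :
    volume (tube δ e a) = volume (tube δ e b) := by
  have h1 : tube δ e a = (fun y => y + (b - a)) ⁻¹' tube δ e b := by
    ext y
    simp only [tube, mem_preimage, mem_ofPred_eq]
    rw [show y + (b - a) - b = y - a by abel]
  rw [h1, measure_preimage_add_right]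

/-- Comparison of the volumes of tubes with nearby directions. -/
theorem volume_tube_compare {δ : ℝ} (hδ : 0 < δ) (hδ1 : δ ≤ 1) {e e' : (EuclideanSpace ℝ (Fin n))} (a b : (EuclideanSpace ℝ (Fin n)))
    (he : ‖e‖ = 1) (he' : ‖e'‖ = 1) (h : ‖e - e'‖ ≤ δ) :
    volume (tube (2 * δ) e' b) ≤ 3 * 4 ^ n * volume (tube δ e a) := by
  have h' : ‖e' - e‖ ≤ δ := by rwa [norm_sub_rev]
  have h1 : volume (tube δ e' b) ≤ 3 * (2 ^ n * volume (tube δ e a)) := by
    calc volume (tube δ e' b) ≤ volume ((tube (2 * δ) e (b + (-1 : ℝ) • e) ∪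
          tube (2 * δ) e (b + (0 : ℝ) • e)) ∪ tube (2 * δ) e (b + (1 : ℝ) • e)) :=
          measure_mono (tube_cover hδ hδ1 b he' he h')
      _ ≤ (volume (tube (2 * δ) e (b + (-1 : ℝ) • e)) + volume (tube (2 * δ) e (b + (0 : ℝ) • e))) +
          volume (tube (2 * δ) e (b + (1 : ℝ) • e)) :=
          (measure_union_le _ _).trans (add_le_add (measure_union_le _ _) le_rfl)
      _ = 3 * volume (tube (2 * δ) e a) := by
          rw [volume_tube_translate (2 * δ) e (b + (-1 : ℝ) • e) a,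
            volume_tube_translate (2 * δ) e (b + (0 : ℝ) • e) a,
            volume_tube_translate (2 * δ) e (b + (1 : ℝ) • e) a]
          ring
      _ ≤ _ := by gcongr; exact volume_tube_two δ e a
  calc volume (tube (2 * δ) e' b) ≤ 2 ^ n * volume (tube δ e' b) := volume_tube_two δ e' b
    _ ≤ 2 ^ n * (3 * (2 ^ n * volume (tube δ e a))) := by gcongr
    _ = 3 * (2 ^ n * 2 ^ n) * volume (tube δ e a) := by ring
    _ = _ := by rw [← mul_pow]; norm_num

/-- If a tube meets `A` in a proportion `λ` then unit segments of every nearby direction meet `A`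
in a length at least comparable to `λ`. -/
theorem segMax_ge {δ : ℝ} (hδ : 0 < δ) (hδ1 : δ ≤ 1) {e e' a : (EuclideanSpace ℝ (Fin n))}
    (he : ‖e‖ = 1) (he' : ‖e'‖ = 1) (h : ‖e - e'‖ ≤ δ) {A : Set (EuclideanSpace ℝ (Fin n))} (hA : IsOpen A)
    (hT0 : volume (tube δ e a) ≠ 0) {lam : ℝ} (hlam : 0 < lam)
    (hl : ENNReal.ofReal lam * volume (tube δ e a) ≤ volume (tube δ e a ∩ A)) :
    ENNReal.ofReal (lam / (36 * 4 ^ n)) < segMax A e' := by
  set T := tube δ e a with hT
  have hTt : volume T ≠ ∞ := by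
    have : T ⊆ closedBall a (1 / 2 + δ) := by
      rintro y ⟨h1, h2⟩
      rw [mem_closedBall, dist_eq_norm]
      calc ‖y - a‖ = ‖(inner ℝ (y - a) e : ℝ) • e + ((y - a) - (inner ℝ (y - a) e : ℝ) • e)‖ := by
            congr 1; abel
        _ ≤ ‖(inner ℝ (y - a) e : ℝ) • e‖ + ‖(y - a) - (inner ℝ (y - a) e : ℝ) • e‖ :=
            norm_add_le _ _
        _ ≤ 1 / 2 + δ := by
            rw [norm_smul, he, mul_one, Real.norm_eq_abs]
            linarith
    exact ((measure_mono this).trans_lt measure_closedBall_lt_top).ne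
  have hpiece : ∀ b : (EuclideanSpace ℝ (Fin n)), volume (tube (2 * δ) e' b ∩ A) ≤
      2 * (3 * 4 ^ n * volume T) * segMax A e' := by
    intro b
    refine (tube_inter_le he' hA).trans ?_
    gcongr
    exact volume_tube_compare hδ hδ1 a b he he' h
  have h1 : volume (T ∩ A) ≤ 3 * (2 * (3 * 4 ^ n * volume T) * segMax A e') := by
    calc volume (T ∩ A) ≤ volume (((tube (2 * δ) e' (a + (-1 : ℝ) • e') ∩ A) ∪
          (tube (2 * δ) e' (a + (0 : ℝ) • e') ∩ A)) ∪ (tube (2 * δ) e' (a + (1 : ℝ) • e') ∩ A)) := by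
          apply measure_mono
          rw [← union_inter_distrib_right, ← union_inter_distrib_right]
          exact inter_subset_inter_left _ (tube_cover hδ hδ1 a he he' h)
      _ ≤ (volume (tube (2 * δ) e' (a + (-1 : ℝ) • e') ∩ A) +
          volume (tube (2 * δ) e' (a + (0 : ℝ) • e') ∩ A)) +
          volume (tube (2 * δ) e' (a + (1 : ℝ) • e') ∩ A) :=
          (measure_union_le _ _).trans (add_le_add (measure_union_le _ _) le_rfl)
      _ ≤ (2 * (3 * 4 ^ n * volume T) * segMax A e' + 2 * (3 * 4 ^ n * volume T) * segMax A e') +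
          2 * (3 * 4 ^ n * volume T) * segMax A e' := by
          gcongr <;> exact hpiece _
      _ = _ := by ring
  have h2 : ENNReal.ofReal lam * volume T ≤ (18 * 4 ^ n * segMax A e') * volume T := by
    refine hl.trans (h1.trans (le_of_eq ?_)); ring
  have h3 : ENNReal.ofReal lam ≤ 18 * 4 ^ n * segMax A e' :=
    (ENNReal.mul_le_mul_iff_left hT0 hTt).1 h2
  by_contra hcon
  push Not at hcon
  have h4 : ENNReal.ofReal lam ≤ ENNReal.ofReal (lam / 2) := by
    calc ENNReal.ofReal lam ≤ 18 * 4 ^ n * segMax A e' := h3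
      _ ≤ 18 * 4 ^ n * ENNReal.ofReal (lam / (36 * 4 ^ n)) := by gcongr
      _ = ENNReal.ofReal (lam / 2) := by
          have h5 : (18 * 4 ^ n : ℝ≥0∞) = ENNReal.ofReal (18 * 4 ^ n) := by
            rw [ENNReal.ofReal_mul (by norm_num), ENNReal.ofReal_pow (by norm_num)]
            simp
          rw [h5, ← ENNReal.ofReal_mul (by positivity)]
          congr 1
          field_simp
          norm_num
  rw [ENNReal.ofReal_le_ofReal_iff (by positivity)] at h4
  linarith

end Pool.Agent.W770.SA
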