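import Pool.Agent.W770.SA.Count

set_option autoImplicit false

/-!
Counting tubes of a direction-separated family that meet a semialgebraic set in a large part.
-/

open MeasureTheory Set Filter Topology ENNReal NNReal Metric
open scoped Pointwise

namespace Pool.Agent.W770.SA

variable {n : ℕ}

/-- a part of the cone over the cap of radius `δ/2` around `e` -/
def capSet (δ : ℝ) (e : (EuclideanSpace ℝ (Fin n))) : Set (EuclideanSpace ℝ (Fin n)) :=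
  (fun y => (2:ℝ) • y) ⁻¹' tube (δ / 16) e e

theorem measurableSet_capSet (δ : ℝ) (e : (EuclideanSpace ℝ (Fin n))) : MeasurableSet (capSet δ e) :=
  (isClosed_tube _ _ _).measurableSet.preimage (measurable_const_smul (2:ℝ))

theorem volume_capSet (δ : ℝ) (e : (EuclideanSpace ℝ (Fin n))) :
    volume (capSet δ e) = ENNReal.ofReal ((2 ^ n)⁻¹) * volume (tube (δ / 16) e e) := by
  unfold capSet
  rw [Measure.addHaar_preimage_smul _ (by norm_num : (2:ℝ) ≠ 0), finrank_euclideanSpace_fin,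
    abs_of_pos (by positivity)]

theorem capSet_sub {δ : ℝ} (hδ : 0 < δ) (hδ1 : δ ≤ 1) {e y : (EuclideanSpace ℝ (Fin n))} (he : ‖e‖ = 1)
    (hy : y ∈ capSet δ e) : 0 < ‖y‖ ∧ ‖y‖ < 1 ∧ ‖‖y‖⁻¹ • y - e‖ < δ / 2 := by
  obtain ⟨h1, h2⟩ := hy
  set s : ℝ := inner ℝ y e with hs
  have h3 : inner ℝ ((2:ℝ) • y - e) e = 2 * s - 1 := by
    rw [inner_sub_left, inner_smul_left, real_inner_self_eq_norm_sq, he]
    simp [hs]
  have h4 : ((2:ℝ) • y - e) - (inner ℝ ((2:ℝ) • y - e) e : ℝ) • e = (2:ℝ) • (y - s • e) := by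
    rw [h3, smul_sub, smul_smul, sub_smul, one_smul]; abel
  simp only at h1 h2
  rw [h3, abs_le] at h1
  rw [h4, norm_smul, Real.norm_eq_abs, abs_of_pos (by norm_num : (0:ℝ) < 2)] at h2
  have h5 : ‖y - s • e‖ ≤ δ / 32 := by linarith
  have hs1 : 1 / 4 ≤ s := by linarith
  have hs2 : s ≤ 3 / 4 := by linarith
  have hse : ‖s • e‖ = s := by
    rw [norm_smul, he, mul_one, Real.norm_eq_abs, abs_of_pos (by linarith)]
  have h6 : |‖y‖ - s| ≤ δ / 32 := by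
    have := abs_norm_sub_norm_le y (s • e)
    rw [hse] at this
    linarith
  have h6' := abs_le.1 h6
  have hy0 : 0 < ‖y‖ := by linarith [h6'.1]
  refine ⟨hy0, by linarith [h6'.2], ?_⟩
  have h7 : ‖y‖⁻¹ • y - e = ‖y‖⁻¹ • ((y - s • e) + (s - ‖y‖) • e) := by
    rw [smul_add, smul_sub, sub_smul, smul_sub, smul_smul ‖y‖⁻¹ ‖y‖ e, inv_mul_cancel₀ hy0.ne', one_smul]
    abel
  rw [h7, norm_smul, norm_inv, norm_norm]
  have h8 : ‖(y - s • e) + (s - ‖y‖) • e‖ ≤ δ / 16 := by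
    calc _ ≤ ‖y - s • e‖ + ‖(s - ‖y‖) • e‖ := norm_add_le _ _
      _ ≤ δ / 32 + δ / 32 := by
          rw [norm_smul, he, mul_one, Real.norm_eq_abs, abs_sub_comm]
          exact add_le_add h5 h6
      _ = δ / 16 := by ring
  have h9 : 1 / 5 ≤ ‖y‖ := by linarith [h6'.1]
  calc ‖y‖⁻¹ * ‖(y - s • e) + (s - ‖y‖) • e‖ ≤ (1/5)⁻¹ * (δ / 16) := by
        gcongr
    _ < δ / 2 := by linarith

/-- Caps of radius `δ/2` around `δ`-separated directions, contained in a set of directions. -/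
theorem card_le_sphere {m : ℕ} {c : ℝ} (_hc : 0 < c)
    (hvol : ∀ (δ : ℝ) (e a : (EuclideanSpace ℝ (Fin (m + 1)))), 0 < δ → ‖e‖ = 1 →
      ENNReal.ofReal (c * δ ^ m) ≤ volume (tube δ e a))
    {δ : ℝ} (hδ : 0 < δ) (hδ1 : δ ≤ 1) {ι : Type} (I : Finset ι) {e : ι → (EuclideanSpace ℝ (Fin (m + 1)))}
    (he : ∀ i, ‖e i‖ = 1) (hsep : ∀ i j, i ≠ j → δ ≤ ‖e i - e j‖)
    {Ω : Set (sphere (0 : (EuclideanSpace ℝ (Fin (m + 1)))) 1)} (hΩ : MeasurableSet Ω)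
    (h : ∀ i ∈ I, ∀ u : sphere (0 : (EuclideanSpace ℝ (Fin (m + 1)))) 1, ‖(u : (EuclideanSpace ℝ (Fin (m + 1)))) - e i‖ < δ / 2 → u ∈ Ω) :
    ENNReal.ofReal ((2 ^ (m + 1))⁻¹ * (c * (δ / 16) ^ m)) * I.card ≤ sig (m + 1) Ω := by
  have hsub : (⋃ i ∈ I, capSet δ (e i)) ⊆ Ioo (0:ℝ) 1 • ((↑) '' Ω : Set (EuclideanSpace ℝ (Fin (m + 1)))) := by
    intro y hy
    rw [mem_iUnion₂] at hy
    obtain ⟨i, hi, hy⟩ := hy
    obtain ⟨h1, h2, h3⟩ := capSet_sub hδ hδ1 (he i) hy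
    have hu : ‖‖y‖⁻¹ • y‖ = 1 := by
      rw [norm_smul, norm_inv, norm_norm, inv_mul_cancel₀ h1.ne']
    rw [Set.mem_smul]
    refine ⟨‖y‖, ⟨h1, h2⟩, ‖y‖⁻¹ • y, ⟨⟨‖y‖⁻¹ • y, by rw [mem_sphere_zero_iff_norm]; exact hu⟩,
      h i hi _ h3, rfl⟩, ?_⟩
    rw [smul_smul, mul_inv_cancel₀ h1.ne', one_smul]
  have hdisj : (I : Set ι).PairwiseDisjoint (fun i => capSet δ (e i)) := by
    intro i _ j _ hij
    rw [Function.onFun, Set.disjoint_left]
    intro y hi hj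
    have h1 := (capSet_sub hδ hδ1 (he i) hi).2.2
    have h2 := (capSet_sub hδ hδ1 (he j) hj).2.2
    have h3 : ‖e i - e j‖ < δ := by
      calc ‖e i - e j‖ = ‖(‖y‖⁻¹ • y - e j) - (‖y‖⁻¹ • y - e i)‖ := by congr 1; abel
        _ ≤ ‖‖y‖⁻¹ • y - e j‖ + ‖‖y‖⁻¹ • y - e i‖ := norm_sub_le _ _
        _ < δ := by linarith
    exact absurd (hsep i j hij) (not_le.2 h3)
  have hsum : volume (⋃ i ∈ I, capSet δ (e i)) = ∑ i ∈ I, volume (capSet δ (e i)) :=
    measure_biUnion_finset hdisj (fun i _ => measurableSet_capSet _ _)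
  calc ENNReal.ofReal ((2 ^ (m + 1))⁻¹ * (c * (δ / 16) ^ m)) * I.card
      = ∑ _i ∈ I, ENNReal.ofReal ((2 ^ (m + 1))⁻¹ * (c * (δ / 16) ^ m)) := by
        rw [Finset.sum_const, nsmul_eq_mul, mul_comm]
    _ ≤ ∑ i ∈ I, volume (capSet δ (e i)) := by
        apply Finset.sum_le_sum
        intro i _
        rw [volume_capSet, ENNReal.ofReal_mul (by positivity)]
        gcongr
        exact hvol _ _ _ (by positivity) (he i)
    _ = volume (⋃ i ∈ I, capSet δ (e i)) := hsum.symm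
    _ ≤ volume (Ioo (0:ℝ) 1 • ((↑) '' Ω : Set (EuclideanSpace ℝ (Fin (m + 1))))) := measure_mono hsub
    _ ≤ sig (m + 1) Ω := by
        unfold sig
        rw [Measure.toSphere_apply' _ hΩ, finrank_euclideanSpace_fin]
        have : (1:ℝ≥0∞) ≤ ((m + 1 : ℕ) : ℝ≥0∞) := by
          exact_mod_cast Nat.succ_le_succ (Nat.zero_le m)
        calc volume (Ioo (0:ℝ) 1 • ((↑) '' Ω : Set (EuclideanSpace ℝ (Fin (m + 1)))))
            = 1 * volume (Ioo (0:ℝ) 1 • ((↑) '' Ω : Set (EuclideanSpace ℝ (Fin (m + 1))))) := (one_mul _).symm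
          _ ≤ _ := by gcongr

/-- **Counting.** -/
theorem count (m : ℕ) : ∃ C : ℝ, 0 < C ∧ ∀ (D : ℕ) (A : Set (EuclideanSpace ℝ (Fin (m + 1)))) (lam δ : ℝ)
    (ι : Type) (I : Finset ι) (e a : ι → (EuclideanSpace ℝ (Fin (m + 1)))), 1 ≤ D → ComplexityLE D A → 0 < lam →
    0 < δ → δ ≤ 1 → (∀ i, ‖e i‖ = 1) → (∀ i j, i ≠ j → δ ≤ ‖e i - e j‖) →
    (∀ i ∈ I, ENNReal.ofReal lam * volume (tube δ (e i) (a i)) ≤ volume (tube δ (e i) (a i) ∩ A)) →
    (I.card : ℝ≥0∞) ≤ ENNReal.ofReal (C * (D:ℝ) ^ (exp1 (m + 1)) * (1 / lam) ^ (m + 1) * (1 / δ) ^ m) *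
      volume A := by
  obtain ⟨c, hc, hvol⟩ := Pool.Agent.H742R2.Kk.volume_tube m
  have hc1 := cst1_pos (n := m + 1) (by omega)
  refine ⟨cst1 (m + 1) * (36 * 4 ^ (m + 1)) ^ (m + 1) * 2 ^ (m + 1) * 16 ^ m / c, by positivity, ?_⟩
  intro D A lam δ ι I e a hD hA hlam hδ hδ1 he hsep hI
  have hAo := hA.isOpen
  set l' : ℝ := lam / (36 * 4 ^ (m + 1)) with hl'
  have hl'0 : 0 < l' := by positivity
  set Ω : Set (sphere (0 : (EuclideanSpace ℝ (Fin (m + 1)))) 1) :=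
    {u | ENNReal.ofReal l' < segMax A (u : (EuclideanSpace ℝ (Fin (m + 1))))} with hΩ
  have hΩm : MeasurableSet Ω :=
    measurableSet_lt measurable_const ((measurable_segMax hAo).comp measurable_subtype_coe)
  have h1 := card_le_sphere hc hvol hδ hδ1 I he hsep hΩm (by
    intro i hi u hu
    have hT0 : volume (tube δ (e i) (a i)) ≠ 0 := by
      have h2 : 0 < ENNReal.ofReal (c * δ ^ m) := ENNReal.ofReal_pos.2 (by positivity)
      exact (lt_of_lt_of_le h2 (hvol δ (e i) (a i) hδ (he i))).ne'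
    exact segMax_ge hδ hδ1 (he i) (by simp) (by rw [norm_sub_rev]; linarith) hAo hT0 hlam (hI i hi))
  have h2 := weak (n := m + 1) (by omega) hD hA hl'0
  have h3 := h1.trans h2
  set κ : ℝ := (2 ^ (m + 1))⁻¹ * (c * (δ / 16) ^ m) with hκ
  have hκ0 : 0 < κ := by positivity
  have h4 : (I.card : ℝ≥0∞) = ENNReal.ofReal κ⁻¹ * (ENNReal.ofReal κ * I.card) := by
    rw [← mul_assoc, ← ENNReal.ofReal_mul (by positivity), inv_mul_cancel₀ hκ0.ne']
    simp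
  rw [h4]
  calc ENNReal.ofReal κ⁻¹ * (ENNReal.ofReal κ * I.card)
      ≤ ENNReal.ofReal κ⁻¹ * (ENNReal.ofReal (cst1 (m + 1) * (D:ℝ) ^ (exp1 (m + 1)) * (1 / l') ^ (m + 1)) *
          volume A) := by gcongr
    _ = _ := by
        rw [← mul_assoc, ← ENNReal.ofReal_mul (by positivity)]
        congr 2
        rw [hκ, hl']
        have e1 : (δ / 16) ^ m * 16 ^ m * (1 / δ) ^ m = 1 := by
          rw [← mul_pow, ← mul_pow]
          have : δ / 16 * 16 * (1 / δ) = 1 := by field_simp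
          rw [this, one_pow]
        have e2 : (1 / (lam / (36 * 4 ^ (m + 1)))) ^ (m + 1) =
            (36 * 4 ^ (m + 1)) ^ (m + 1) * (1 / lam) ^ (m + 1) := by
          rw [← mul_pow]; congr 1; field_simp
        have e3 : ((δ / 16) ^ m)⁻¹ = 16 ^ m * (1 / δ) ^ m := by
          apply inv_eq_of_mul_eq_one_right
          rw [← mul_assoc]; exact e1
        rw [e2, mul_inv, mul_inv, inv_inv, e3]
        ring

end Pool.Agent.W770.SA
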