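import Pool.Agent.W770.SA.Count2

set_option autoImplicit false

/-!
The measure of a semialgebraic set with respect to a sum of indicator functions of tubes.
-/

open MeasureTheory Set Filter Topology ENNReal NNReal Metric
open scoped Pointwise

namespace Pool.Agent.W770.SA

theorem sum_of_count {m : ℕ} (hm : 1 ≤ m) {ι : Type} [Fintype ι] {y : ι → ℝ} {X : ℝ} (hX : 0 < X)
    (h : ∀ l : ℝ, 0 < l → ∀ I : Finset ι, (∀ i ∈ I, l < y i) →
      (I.card : ℝ≥0∞) ≤ ENNReal.ofReal (X * (1 / l) ^ (m + 1))) :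
    ∑ i, ENNReal.ofReal (y i) ≤
      ENNReal.ofReal (3 * ((Fintype.card ι : ℝ) * (X / Fintype.card ι) ^ (1 / ((m:ℝ) + 1)))) := by
  classical
  rcases Nat.eq_zero_or_pos (Fintype.card ι) with h0 | h0
  · have : IsEmpty ι := Fintype.card_eq_zero_iff.1 h0
    simp
  set N : ℝ := (Fintype.card ι : ℝ) with hN
  have hN0 : 0 < N := by rw [hN]; exact_mod_cast h0
  set t : ℝ := (X / N) ^ (1 / ((m:ℝ) + 1)) with ht
  have ht0 : 0 < t := Real.rpow_pos_of_pos (by positivity) _
  have htn : t ^ (m + 1) = X / N := by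
    rw [ht, ← Real.rpow_natCast, ← Real.rpow_mul (by positivity)]
    push_cast
    rw [one_div, inv_mul_cancel₀ (by positivity), Real.rpow_one]
  have hXt : X = N * t ^ (m + 1) := by rw [htn]; field_simp
  calc ∑ i, ENNReal.ofReal (y i)
      ≤ ∑ i, (ENNReal.ofReal t +
          ∑' j : ℕ, ENNReal.ofReal (2 ^ j * t) * (Ioi (2 ^ j * t)).indicator 1 (y i)) :=
        Finset.sum_le_sum fun i _ => layers ht0
    _ = ENNReal.ofReal (N * t) + ∑' j : ℕ, ENNReal.ofReal (2 ^ j * t) *
          ((Finset.univ.filter (fun i => 2 ^ j * t < y i)).card : ℝ≥0∞) := by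
        rw [Finset.sum_add_distrib]
        congr 1
        · rw [Finset.sum_const, nsmul_eq_mul, Finset.card_univ, ENNReal.ofReal_mul hN0.le, hN,
            ENNReal.ofReal_natCast]
        · rw [← Summable.tsum_finsetSum (fun i _ => ENNReal.summable)]
          congr 1
          ext j
          rw [← Finset.mul_sum]
          congr 1
          rw [Finset.card_filter]
          push_cast
          apply Finset.sum_congr rfl
          intro i _
          by_cases hi : 2 ^ j * t < y i
          · rw [indicator_of_mem (show y i ∈ Ioi (2 ^ j * t) from hi), if_pos hi]; rfl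
          · rw [indicator_of_notMem (show y i ∉ Ioi (2 ^ j * t) from hi), if_neg hi]
    _ ≤ ENNReal.ofReal (N * t) + ∑' j : ℕ, ENNReal.ofReal (N * t) * ENNReal.ofReal ((1/2) ^ j) := by
        refine add_le_add le_rfl (ENNReal.tsum_le_tsum fun j => ?_)
        have h1 := h (2 ^ j * t) (by positivity) (Finset.univ.filter (fun i => 2 ^ j * t < y i))
          (fun i hi => (Finset.mem_filter.1 hi).2)
        calc ENNReal.ofReal (2 ^ j * t) *
              ((Finset.univ.filter (fun i => 2 ^ j * t < y i)).card : ℝ≥0∞)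
            ≤ ENNReal.ofReal (2 ^ j * t) * ENNReal.ofReal (X * (1 / (2 ^ j * t)) ^ (m + 1)) := by
              gcongr
          _ = ENNReal.ofReal (2 ^ j * t * (X * (1 / (2 ^ j * t)) ^ (m + 1))) := by
              rw [← ENNReal.ofReal_mul (by positivity)]
          _ ≤ ENNReal.ofReal (N * t * (1/2) ^ j) := by
              apply ENNReal.ofReal_le_ofReal
              have h2 : 2 ^ j * t * (X * (1 / (2 ^ j * t)) ^ (m + 1)) = N * t * ((1/2:ℝ) ^ j) ^ m := by
                rw [hXt, one_div, one_div, pow_succ, pow_succ]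
                simp only [mul_inv, inv_pow, mul_pow]
                field_simp
              rw [h2]
              have h3 : ((1/2:ℝ) ^ j) ^ m ≤ (1/2) ^ j := by
                calc ((1/2:ℝ) ^ j) ^ m ≤ ((1/2:ℝ) ^ j) ^ 1 :=
                      pow_le_pow_of_le_one (by positivity) (pow_le_one₀ (by norm_num) (by norm_num)) hm
                  _ = _ := pow_one _
              gcongr
          _ = _ := ENNReal.ofReal_mul (by positivity)
    _ = ENNReal.ofReal (N * t) + ENNReal.ofReal (N * t) * 2 := by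
        rw [ENNReal.tsum_mul_left]
        have h10 : ∑' j : ℕ, ENNReal.ofReal ((1/2:ℝ) ^ j) = 2 := by
          rw [← ENNReal.ofReal_tsum_of_nonneg (fun j => by positivity)
            summable_geometric_two, tsum_geometric_two]
          simp
        rw [h10]
    _ = _ := by
        have : (3:ℝ≥0∞) = ENNReal.ofReal 3 := by simp
        rw [ENNReal.ofReal_mul (by norm_num : (0:ℝ) ≤ 3), ← this]
        ring

/-- Upper bound for the volume of a tube. -/
theorem volume_tube_le {m : ℕ} {δ : ℝ} {e a : (EuclideanSpace ℝ (Fin (m + 1)))} (hδ : 0 < δ) (he : ‖e‖ = 1) :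
    volume (tube δ e a) ≤ ENNReal.ofReal ((2 * δ) ^ m) := by
  have hon : Orthonormal ℝ (({0} : Set (Fin (m + 1))).domRestrict (fun _ => e)) := by
    rw [orthonormal_iff_ite]
    rintro ⟨i, hi⟩ ⟨j, hj⟩
    simp only [mem_singleton_iff] at hi hj
    subst hi; subst hj
    change (inner ℝ e e : ℝ) = _
    rw [real_inner_self_eq_norm_sq, he]
    simp
  obtain ⟨b, hb⟩ := hon.exists_orthonormalBasis_extension_of_card_eq (by simp)
  have hb0 : b 0 = e := hb 0 rfl
  set r : Fin (m + 1) → ℝ := Fin.cons (1 / 2) (fun _ => δ) with hr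
  set B : Set (Fin (m + 1) → ℝ) := Set.pi univ (fun i => Icc (-(r i)) (r i)) with hB
  have hBm : MeasurableSet B := MeasurableSet.univ_pi (fun i => measurableSet_Icc)
  have hvolB : volume B = ENNReal.ofReal ((2 * δ) ^ m) := by
    rw [hB, volume_pi_pi]
    simp only [Real.volume_Icc]
    rw [Fin.prod_univ_succ]
    simp only [hr, Fin.cons_zero, Fin.cons_succ, Finset.prod_const, Finset.card_univ,
      Fintype.card_fin]
    have hnn : 0 ≤ δ - -δ := by linarith
    rw [← ENNReal.ofReal_pow hnn, ← ENNReal.ofReal_mul (by norm_num)]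
    congr 1
    norm_num
    congr 1
    ring
  have hmp : MeasurePreserving (fun y : (EuclideanSpace ℝ (Fin (m + 1))) => (b.repr (y - a)).ofLp) volume volume := by
    have h1 : MeasurePreserving (fun y : (EuclideanSpace ℝ (Fin (m + 1))) => y - a) volume volume :=
      measurePreserving_sub_right volume a
    have h2 := b.measurePreserving_repr
    have h3 := PiLp.volume_preserving_ofLp (Fin (m + 1))
    exact h3.comp (h2.comp h1)
  rw [← hvolB, ← hmp.measure_preimage hBm.nullMeasurableSet]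
  apply measure_mono
  rintro y ⟨h1, h2⟩
  simp only [mem_preimage, hB, mem_univ_pi, mem_Icc]
  set v := y - a with hv
  have hv0 : (inner ℝ v e : ℝ) = b.repr v 0 := by
    rw [b.repr_apply_apply, hb0, real_inner_comm]
  intro i
  rw [← abs_le]
  refine Fin.cases ?_ (fun j => ?_) i
  · rw [← hv0]; simpa [hr] using h1
  · have h3 : b.repr v j.succ = inner ℝ (b j.succ) (v - (inner ℝ v e : ℝ) • e) := by
      rw [inner_sub_right, inner_smul_right, ← hb0, b.inner_eq_zero (Fin.succ_ne_zero j), mul_zero,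
        sub_zero, b.repr_apply_apply]
    rw [h3]
    refine (abs_real_inner_le_norm _ _).trans ?_
    rw [b.norm_eq_one, one_mul]
    simpa [hr] using h2

/-- the critical volume of a family of `N` tubes -/
noncomputable def critVol (m : ℕ) (C : ℝ) (D : ℕ) (δ N : ℝ) : ℝ :=
  C * (D:ℝ) ^ ((exp1 (m + 1) : ℝ) / m) * δ ^ m * N ^ (-(1 / (m:ℝ)))

theorem critVol_pos {m : ℕ} {C : ℝ} (hC : 0 < C) {D : ℕ} (hD : 1 ≤ D) {δ N : ℝ} (hδ : 0 < δ) (hN : 0 < N) :
    0 < critVol m C D δ N := by
  have hD0 : (0:ℝ) < D := by exact_mod_cast hD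
  unfold critVol
  positivity

theorem set_est (m : ℕ) (hm : 1 ≤ m) : ∃ C : ℝ, 0 < C ∧ ∀ (D : ℕ) (A : Set (EuclideanSpace ℝ (Fin (m + 1)))) (δ : ℝ)
    (ι : Type) [Fintype ι] (e a : ι → (EuclideanSpace ℝ (Fin (m + 1)))), 1 ≤ D → ComplexityLE D A →
    0 < δ → δ ≤ 1 → (∀ i, ‖e i‖ = 1) → (∀ i j, i ≠ j → δ ≤ ‖e i - e j‖) →
    ∑ i, volume (tube δ (e i) (a i) ∩ A) ≤
      ENNReal.ofReal ((Fintype.card ι : ℝ) *
        critVol m C D δ (Fintype.card ι) ^ ((m:ℝ) / (m + 1))) * volume A ^ (1 / ((m:ℝ) + 1)) := by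
  obtain ⟨C, hC, hcount⟩ := count m
  have hm0 : (0:ℝ) < m := by exact_mod_cast hm
  refine ⟨(3 * 2 ^ m * C ^ (1 / ((m:ℝ) + 1))) ^ (((m:ℝ) + 1) / m), by positivity, ?_⟩
  intro D A δ ι _ e a hD hA hδ hδ1 he hsep
  have hD0 : (0:ℝ) < D := by exact_mod_cast hD
  rcases Nat.eq_zero_or_pos (Fintype.card ι) with h0 | h0
  · have : IsEmpty ι := Fintype.card_eq_zero_iff.1 h0
    simp
  set N : ℝ := (Fintype.card ι : ℝ) with hN
  have hN0 : 0 < N := by rw [hN]; exact_mod_cast h0
  set C' : ℝ := (3 * 2 ^ m * C ^ (1 / ((m:ℝ) + 1))) ^ (((m:ℝ) + 1) / m) with hC'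
  have hC'0 : 0 < C' := by positivity
  have hR := critVol_pos (m := m) hC'0 hD hδ hN0
  rcases eq_or_ne (volume A) ∞ with htop | htop
  · rw [htop, ENNReal.top_rpow_of_pos (by positivity), ENNReal.mul_top]
    · exact le_top
    · rw [Ne, ENNReal.ofReal_eq_zero, not_le]; positivity
  rcases eq_or_ne (volume A) 0 with hz | hz
  · have : ∀ i, volume (tube δ (e i) (a i) ∩ A) = 0 := fun i => measure_mono_null inter_subset_right hz
    simp [this]
  set v : ℝ := (volume A).toReal with hv
  have hv0 : 0 < v := ENNReal.toReal_pos hz htop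
  have hvA : volume A = ENNReal.ofReal v := (ENNReal.ofReal_toReal htop).symm
  set V : ℝ := (2 * δ) ^ m with hV
  have hV0 : 0 < V := by positivity
  have hVT : ∀ i, volume (tube δ (e i) (a i)) ≤ ENNReal.ofReal V := fun i => volume_tube_le hδ (he i)
  have hfin : ∀ i, volume (tube δ (e i) (a i) ∩ A) ≠ ∞ := fun i =>
    ((measure_mono inter_subset_left).trans_lt ((hVT i).trans_lt ENNReal.ofReal_lt_top)).ne
  set y : ι → ℝ := fun i => (volume (tube δ (e i) (a i) ∩ A)).toReal / V with hy
  have hy' : ∀ i, volume (tube δ (e i) (a i) ∩ A) = ENNReal.ofReal V * ENNReal.ofReal (y i) := by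
    intro i
    rw [hy, ← ENNReal.ofReal_mul hV0.le]
    simp only
    rw [mul_div_cancel₀ _ hV0.ne', ENNReal.ofReal_toReal (hfin i)]
  set X : ℝ := C * (D:ℝ) ^ (exp1 (m + 1)) * (1 / δ) ^ m * v with hX
  have hX0 : 0 < X := by positivity
  have hs := sum_of_count (y := y) hm hX0 (by
    intro l hl I hI
    have h1 := hcount D A l δ ι I e a hD hA hl hδ hδ1 he hsep (by
      intro i hi
      rw [hy' i]
      calc ENNReal.ofReal l * volume (tube δ (e i) (a i)) ≤ ENNReal.ofReal (y i) * ENNReal.ofReal V := by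
            gcongr
            · exact (hI i hi).le
            · exact hVT i
        _ = _ := mul_comm _ _)
    rw [hvA, ← ENNReal.ofReal_mul (by positivity)] at h1
    refine h1.trans (le_of_eq ?_)
    congr 1
    rw [hX]; ring)
  calc ∑ i, volume (tube δ (e i) (a i) ∩ A) = ENNReal.ofReal V * ∑ i, ENNReal.ofReal (y i) := by
        rw [Finset.mul_sum]
        exact Finset.sum_congr rfl fun i _ => hy' i
    _ ≤ ENNReal.ofReal V * ENNReal.ofReal (3 * (N * (X / N) ^ (1 / ((m:ℝ) + 1)))) := by gcongr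
    _ = ENNReal.ofReal (N * critVol m C' D δ N ^ ((m:ℝ) / (m + 1)) * v ^ (1 / ((m:ℝ) + 1))) := by
        rw [← ENNReal.ofReal_mul hV0.le]
        congr 1
        have hm1 : ((m:ℝ) + 1) ≠ 0 := by positivity
        have e1 : C' ^ ((m:ℝ) / (m + 1)) = 3 * 2 ^ m * C ^ (1 / ((m:ℝ) + 1)) := by
          rw [hC', ← Real.rpow_mul (by positivity)]
          have : ((m:ℝ) + 1) / m * (m / (m + 1)) = 1 := by field_simp
          rw [this, Real.rpow_one]
        have e2 : ((D:ℝ) ^ ((exp1 (m + 1) : ℝ) / m)) ^ ((m:ℝ) / (m + 1)) =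
            ((D:ℝ) ^ (exp1 (m + 1))) ^ (1 / ((m:ℝ) + 1)) := by
          rw [← Real.rpow_mul hD0.le, ← Real.rpow_natCast, ← Real.rpow_mul hD0.le]
          congr 1
          field_simp
        have e3 : δ ^ m * ((1 / δ) ^ m) ^ (1 / ((m:ℝ) + 1)) = (δ ^ m) ^ ((m:ℝ) / (m + 1)) := by
          have h1 : (1 / δ) ^ m = (δ ^ m) ^ (-1 : ℝ) := by
            rw [Real.rpow_neg_one, one_div, inv_pow]
          have h2 : 0 < δ ^ m := by positivity
          rw [h1, ← Real.rpow_mul h2.le]
          nth_rewrite 1 [← Real.rpow_one (δ ^ m)]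
          rw [← Real.rpow_add h2]
          congr 1
          field_simp
          ring
        have e4 : (N ^ (-(1 / (m:ℝ)))) ^ ((m:ℝ) / (m + 1)) = (N⁻¹) ^ (1 / ((m:ℝ) + 1)) := by
          rw [← Real.rpow_neg_one N, ← Real.rpow_mul hN0.le, ← Real.rpow_mul hN0.le]
          congr 1
          field_simp
        have e5 : critVol m C' D δ N ^ ((m:ℝ) / (m + 1)) = (3 * 2 ^ m * C ^ (1 / ((m:ℝ) + 1))) *
            ((D:ℝ) ^ (exp1 (m + 1))) ^ (1 / ((m:ℝ) + 1)) *
            (δ ^ m * ((1 / δ) ^ m) ^ (1 / ((m:ℝ) + 1))) * (N⁻¹) ^ (1 / ((m:ℝ) + 1)) := by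
          unfold critVol
          rw [Real.mul_rpow (by positivity) (by positivity), Real.mul_rpow (by positivity) (by positivity),
            Real.mul_rpow (by positivity) (by positivity), e1, e2, e3, e4]
        have e6 : (X / N) ^ (1 / ((m:ℝ) + 1)) = C ^ (1 / ((m:ℝ) + 1)) *
            ((D:ℝ) ^ (exp1 (m + 1))) ^ (1 / ((m:ℝ) + 1)) * ((1 / δ) ^ m) ^ (1 / ((m:ℝ) + 1)) *
            v ^ (1 / ((m:ℝ) + 1)) * (N⁻¹) ^ (1 / ((m:ℝ) + 1)) := by
          rw [hX, div_eq_mul_inv, Real.mul_rpow (by positivity) (by positivity),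
            Real.mul_rpow (by positivity) (by positivity), Real.mul_rpow (by positivity) (by positivity),
            Real.mul_rpow (by positivity) (by positivity)]
        rw [e5, e6, hV, mul_pow]
        ring
    _ = _ := by
        rw [ENNReal.ofReal_mul (by positivity), hvA, ENNReal.ofReal_rpow_of_pos hv0]

end Pool.Agent.W770.SA
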