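import Pool.Agent.W770.SA.Crit

set_option autoImplicit false

/-!
Covers of Kakeya sets by countably many semialgebraic sets.
-/

open MeasureTheory Set Filter Topology ENNReal NNReal Metric

namespace Pool.Agent.W770.SA

variable {n : ℕ}

/-- A weighted covering inequality. -/
theorem cover_weights (hn : 1 ≤ n) {S : Set (sphere (0 : (EuclideanSpace ℝ (Fin n))) 1)}
    {K : Set (EuclideanSpace ℝ (Fin n))} {ell : ℝ}
    (hK : ∀ e ∈ S, ∃ z : (EuclideanSpace ℝ (Fin n)), ENNReal.ofReal ell ≤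
      volume {s : ℝ | s ∈ Icc (0:ℝ) 1 ∧ z + s • (e : (EuclideanSpace ℝ (Fin n))) ∈ K})
    {D : ℕ → ℕ} {A : ℕ → Set (EuclideanSpace ℝ (Fin n))} (hD : ∀ j, 1 ≤ D j)
    (hA : ∀ j, ComplexityLE (D j) (A j)) (hcov : K ⊆ ⋃ j, A j)
    {lam : ℕ → ℝ} (hlam : ∀ j, 0 < lam j) (hsum : ∑' j, ENNReal.ofReal (lam j) < ENNReal.ofReal ell) :
    sig n S ≤ ∑' j, ENNReal.ofReal (cst1 n * (D j : ℝ) ^ (exp1 n) * (1 / lam j) ^ n) * volume (A j) := by
  have hsub : S ⊆ ⋃ j, {e : sphere (0 : (EuclideanSpace ℝ (Fin n))) 1 |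
      ENNReal.ofReal (lam j) < segMax (A j) (e : (EuclideanSpace ℝ (Fin n)))} := by
    intro e he
    obtain ⟨z, hz⟩ := hK e he
    by_contra hcon
    rw [mem_iUnion] at hcon
    push Not at hcon
    have h1 : volume {s : ℝ | s ∈ Icc (0:ℝ) 1 ∧ z + s • (e : (EuclideanSpace ℝ (Fin n))) ∈ K} ≤
        ∑' j, ENNReal.ofReal (lam j) := by
      calc volume {s : ℝ | s ∈ Icc (0:ℝ) 1 ∧ z + s • (e : (EuclideanSpace ℝ (Fin n))) ∈ K}
          ≤ volume (⋃ j, {s : ℝ | s ∈ Icc (0:ℝ) 1 ∧ z + s • (e : (EuclideanSpace ℝ (Fin n))) ∈ A j}) := by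
            apply measure_mono
            rintro s ⟨h2, h3⟩
            obtain ⟨j, hj⟩ := mem_iUnion.1 (hcov h3)
            exact mem_iUnion.2 ⟨j, h2, hj⟩
        _ ≤ ∑' j, volume {s : ℝ | s ∈ Icc (0:ℝ) 1 ∧ z + s • (e : (EuclideanSpace ℝ (Fin n))) ∈ A j} :=
            measure_iUnion_le _
        _ ≤ ∑' j, ENNReal.ofReal (lam j) := by
            apply ENNReal.tsum_le_tsum
            intro j
            have h4 : segMax (A j) (e : (EuclideanSpace ℝ (Fin n))) ≤ ENNReal.ofReal (lam j) := by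
              have := hcon j
              simpa using this
            exact le_trans (le_iSup (fun z : (EuclideanSpace ℝ (Fin n)) =>
              volume {s : ℝ | s ∈ Icc (0:ℝ) 1 ∧ z + s • (e : (EuclideanSpace ℝ (Fin n))) ∈ A j}) z) h4
    exact absurd (hz.trans h1) (not_le.2 hsum)
  calc sig n S ≤ sig n (⋃ j, {e : sphere (0 : (EuclideanSpace ℝ (Fin n))) 1 |
        ENNReal.ofReal (lam j) < segMax (A j) (e : (EuclideanSpace ℝ (Fin n)))}) := measure_mono hsub
    _ ≤ ∑' j, sig n {e : sphere (0 : (EuclideanSpace ℝ (Fin n))) 1 |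
        ENNReal.ofReal (lam j) < segMax (A j) (e : (EuclideanSpace ℝ (Fin n)))} := measure_iUnion_le _
    _ ≤ _ := by
        apply ENNReal.tsum_le_tsum
        intro j
        exact weak hn (hD j) (hA j) (hlam j)

end Pool.Agent.W770.SA
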