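import Pool.Agent.W770.SA.Covers

set_option autoImplicit false

/-!
Optimisation of the weights in the covering inequality, and the Minkowski dimension.
-/

open MeasureTheory Set Filter Topology ENNReal NNReal Metric

namespace Pool.Agent.W770.SA

/-- optimisation of the weights -/
theorem opt_weights {n : ℕ} {σ : ℝ≥0∞} {m : ℕ → ℝ≥0∞} {ell : ℝ} (hell : 0 < ell)
    (h : ∀ lam : ℕ → ℝ, (∀ j, 0 < lam j) → ∑' j, ENNReal.ofReal (lam j) < ENNReal.ofReal ell →
      σ ≤ ∑' j, ENNReal.ofReal ((1 / lam j) ^ n) * m j) :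
    ENNReal.ofReal (ell ^ n) * σ ≤ (∑' j, (m j) ^ (1 / ((n:ℝ) + 1))) ^ (n + 1) := by
  set T : ℝ≥0∞ := ∑' j, (m j) ^ (1 / ((n:ℝ) + 1)) with hT
  rcases eq_or_ne T ⊤ with hTt | hTt
  · rw [hTt]; simp
  have hfin : ∀ j, (m j) ^ (1 / ((n:ℝ) + 1)) ≠ ⊤ := by
    intro j hj
    apply hTt
    rw [hT]
    exact top_unique (hj ▸ ENNReal.le_tsum j)
  have hn1 : (0:ℝ) < (n:ℝ) + 1 := by positivity
  -- the inequality for every `ε`
  have key : ∀ ε : ℝ, 0 < ε → ε < 1 →
      ENNReal.ofReal ((ell * (1 - ε)) ^ n) * σ ≤ ENNReal.ofReal ((T.toReal + ε) ^ (n + 1)) := by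
    intro ε hε hε1
    set t : ℕ → ℝ := fun j => ((m j) ^ (1 / ((n:ℝ) + 1))).toReal + ε * (1 / 2) ^ (j + 1) with ht
    have htpos : ∀ j, 0 < t j := by
      intro j
      have : 0 ≤ ((m j) ^ (1 / ((n:ℝ) + 1))).toReal := ENNReal.toReal_nonneg
      have h2 : 0 < ε * (1 / 2 : ℝ) ^ (j + 1) := by positivity
      simp only [ht]; linarith
    have hsumt : ∑' j, ENNReal.ofReal (t j) = ENNReal.ofReal (T.toReal + ε) := by
      have h1 : ∀ j, ENNReal.ofReal (t j) =
          (m j) ^ (1 / ((n:ℝ) + 1)) + ENNReal.ofReal (ε * (1 / 2) ^ (j + 1)) := by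
        intro j
        simp only [ht]
        rw [ENNReal.ofReal_add ENNReal.toReal_nonneg (by positivity), ENNReal.ofReal_toReal (hfin j)]
      rw [tsum_congr h1, ENNReal.tsum_add, ENNReal.ofReal_add ENNReal.toReal_nonneg hε.le,
        ENNReal.ofReal_toReal hTt, ← hT]
      congr 1
      rw [← ENNReal.ofReal_tsum_of_nonneg (fun j => by positivity)]
      · congr 1
        have : ∑' j : ℕ, (1 / 2 : ℝ) ^ (j + 1) = 1 := by
          have h3 : ∀ j : ℕ, (1 / 2 : ℝ) ^ (j + 1) = (1 / 2) * (1 / 2) ^ j := fun j => by ring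
          rw [tsum_congr h3, _root_.tsum_mul_left, tsum_geometric_two]; norm_num
        rw [_root_.tsum_mul_left, this, mul_one]
      · apply Summable.mul_left
        have h3 : ∀ j : ℕ, (1 / 2 : ℝ) ^ (j + 1) = (1 / 2) * (1 / 2) ^ j := fun j => by ring
        simp_rw [h3]
        exact summable_geometric_two.mul_left _
    set T' : ℝ := T.toReal + ε with hT'
    have hT'pos : 0 < T' := by
      have : 0 ≤ T.toReal := ENNReal.toReal_nonneg
      rw [hT']; linarith
    have hθ : 0 < 1 - ε := by linarith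
    have hellθ : 0 < ell * (1 - ε) := by positivity
    set lam : ℕ → ℝ := fun j => ell * (1 - ε) / T' * t j with hlam
    have hlampos : ∀ j, 0 < lam j := by
      intro j
      have := htpos j
      simp only [hlam]; positivity
    have hsuml : ∑' j, ENNReal.ofReal (lam j) < ENNReal.ofReal ell := by
      have h1 : ∀ j, ENNReal.ofReal (lam j) =
          ENNReal.ofReal (ell * (1 - ε) / T') * ENNReal.ofReal (t j) := by
        intro j
        simp only [hlam]
        rw [ENNReal.ofReal_mul (by positivity)]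
      rw [tsum_congr h1, ENNReal.tsum_mul_left, hsumt, ← ENNReal.ofReal_mul (by positivity),
        div_mul_cancel₀ _ hT'pos.ne', ENNReal.ofReal_lt_ofReal_iff hell]
      nlinarith
    have h2 := h lam hlampos hsuml
    have h3 : ∀ j, ENNReal.ofReal ((1 / lam j) ^ n) * m j ≤
        ENNReal.ofReal ((T' / (ell * (1 - ε))) ^ n) * ENNReal.ofReal (t j) := by
      intro j
      have h4 : m j ≤ ENNReal.ofReal (t j ^ (n + 1)) := by
        have h5 : (m j) ^ (1 / ((n:ℝ) + 1)) ≤ ENNReal.ofReal (t j) := by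
          rw [← ENNReal.ofReal_toReal (hfin j)]
          apply ENNReal.ofReal_le_ofReal
          have : 0 < ε * (1 / 2 : ℝ) ^ (j + 1) := by positivity
          simp only [ht]; linarith
        calc m j = ((m j) ^ (1 / ((n:ℝ) + 1))) ^ (n + 1) := by
              rw [← ENNReal.rpow_natCast, ← ENNReal.rpow_mul]
              have : 1 / ((n:ℝ) + 1) * ((n + 1 : ℕ) : ℝ) = 1 := by
                push_cast; field_simp
              rw [this, ENNReal.rpow_one]
          _ ≤ ENNReal.ofReal (t j) ^ (n + 1) := pow_le_pow_left' h5 _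
          _ = ENNReal.ofReal (t j ^ (n + 1)) := by rw [ENNReal.ofReal_pow (htpos j).le]
      calc ENNReal.ofReal ((1 / lam j) ^ n) * m j
          ≤ ENNReal.ofReal ((1 / lam j) ^ n) * ENNReal.ofReal (t j ^ (n + 1)) := by gcongr
        _ = ENNReal.ofReal ((1 / lam j) ^ n * t j ^ (n + 1)) := by
            rw [ENNReal.ofReal_mul (by have := hlampos j; positivity)]
        _ = ENNReal.ofReal ((T' / (ell * (1 - ε))) ^ n * t j) := by
            congr 1
            simp only [hlam]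
            have h7 := htpos j
            rw [one_div, mul_inv, ← one_div, one_div_div, mul_pow, inv_pow, pow_succ]
            have h8 : (t j ^ n)⁻¹ * t j ^ n = 1 := inv_mul_cancel₀ (by positivity)
            linear_combination (T' / (ell * (1 - ε))) ^ n * t j * h8
        _ = _ := by rw [ENNReal.ofReal_mul (by positivity)]
    have h6 : σ ≤ ENNReal.ofReal ((T' / (ell * (1 - ε))) ^ n) * ENNReal.ofReal T' := by
      calc σ ≤ _ := h2
        _ ≤ ∑' j, ENNReal.ofReal ((T' / (ell * (1 - ε))) ^ n) * ENNReal.ofReal (t j) :=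
            ENNReal.tsum_le_tsum h3
        _ = _ := by rw [ENNReal.tsum_mul_left, hsumt]
    calc ENNReal.ofReal ((ell * (1 - ε)) ^ n) * σ
        ≤ ENNReal.ofReal ((ell * (1 - ε)) ^ n) *
          (ENNReal.ofReal ((T' / (ell * (1 - ε))) ^ n) * ENNReal.ofReal T') := by gcongr
      _ = ENNReal.ofReal ((ell * (1 - ε)) ^ n * ((T' / (ell * (1 - ε))) ^ n * T')) := by
          rw [← ENNReal.ofReal_mul (by positivity), ← ENNReal.ofReal_mul (by positivity)]
      _ = ENNReal.ofReal (T' ^ (n + 1)) := by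
          congr 1
          rw [div_pow, pow_succ]
          field_simp
  -- the limit
  have hl1 : Tendsto (fun ε : ℝ => ENNReal.ofReal ((ell * (1 - ε)) ^ n) * σ) (𝓝[>] 0)
      (𝓝 (ENNReal.ofReal (ell ^ n) * σ)) := by
    apply ENNReal.Tendsto.mul_const
    · apply ENNReal.tendsto_ofReal
      have hc : ContinuousAt (fun ε : ℝ => (ell * (1 - ε)) ^ n) 0 := by fun_prop
      have := hc.tendsto
      simp only [sub_zero, mul_one] at this
      exact this.mono_left nhdsWithin_le_nhds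
    · left
      have : 0 < ENNReal.ofReal (ell ^ n) := ENNReal.ofReal_pos.2 (by positivity)
      exact this.ne'
  have hl2 : Tendsto (fun ε : ℝ => ENNReal.ofReal ((T.toReal + ε) ^ (n + 1))) (𝓝[>] 0)
      (𝓝 (ENNReal.ofReal (T.toReal ^ (n + 1)))) := by
    apply ENNReal.tendsto_ofReal
    have hc : ContinuousAt (fun ε : ℝ => (T.toReal + ε) ^ (n + 1)) 0 := by fun_prop
    have := hc.tendsto
    simp only [add_zero] at this
    exact this.mono_left nhdsWithin_le_nhds
  have hle : ENNReal.ofReal (ell ^ n) * σ ≤ ENNReal.ofReal (T.toReal ^ (n + 1)) := by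
    apply le_of_tendsto_of_tendsto hl1 hl2
    have : Ioo (0:ℝ) 1 ∈ 𝓝[>] (0:ℝ) := Ioo_mem_nhdsGT one_pos
    filter_upwards [this] with ε hε
    exact key ε hε.1 hε.2
  calc _ ≤ _ := hle
    _ = T ^ (n + 1) := by
        rw [ENNReal.ofReal_pow ENNReal.toReal_nonneg, ENNReal.ofReal_toReal hTt]

variable {n : ℕ}

/-- The covering inequality. -/
theorem cover_ineq (hn : 1 ≤ n) {S : Set (sphere (0 : (EuclideanSpace ℝ (Fin n))) 1)}
    {K : Set (EuclideanSpace ℝ (Fin n))} {ell : ℝ} (hell : 0 < ell)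
    (hK : ∀ e ∈ S, ∃ z : (EuclideanSpace ℝ (Fin n)), ENNReal.ofReal ell ≤
      volume {s : ℝ | s ∈ Icc (0:ℝ) 1 ∧ z + s • (e : (EuclideanSpace ℝ (Fin n))) ∈ K})
    {D : ℕ → ℕ} {A : ℕ → Set (EuclideanSpace ℝ (Fin n))} (hD : ∀ j, 1 ≤ D j)
    (hA : ∀ j, ComplexityLE (D j) (A j)) (hcov : K ⊆ ⋃ j, A j) :
    ENNReal.ofReal (ell ^ n) * sig n S ≤ ENNReal.ofReal (cst1 n) *
      (∑' j, ((D j : ℝ≥0∞) ^ (exp1 n) * volume (A j)) ^ (1 / ((n:ℝ) + 1))) ^ (n + 1) := by
  have h1 := opt_weights (n := n) (σ := sig n S)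
    (m := fun j => ENNReal.ofReal (cst1 n * (D j : ℝ) ^ (exp1 n)) * volume (A j)) hell (by
      intro lam hlam hsum
      have h2 := cover_weights hn hK hD hA hcov hlam hsum
      refine h2.trans (le_of_eq ?_)
      apply tsum_congr
      intro j
      have h3 : 0 ≤ cst1 n * (D j : ℝ) ^ (exp1 n) := by
        have := (cst1_pos hn).le
        positivity
      rw [ENNReal.ofReal_mul h3, ← mul_assoc]
      congr 1
      rw [mul_comm])
  refine h1.trans (le_of_eq ?_)
  have h4 : ∀ j, (ENNReal.ofReal (cst1 n * (D j : ℝ) ^ (exp1 n)) * volume (A j)) ^ (1 / ((n:ℝ) + 1)) =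
      ENNReal.ofReal (cst1 n) ^ (1 / ((n:ℝ) + 1)) *
        ((D j : ℝ≥0∞) ^ (exp1 n) * volume (A j)) ^ (1 / ((n:ℝ) + 1)) := by
    intro j
    rw [ENNReal.ofReal_mul (cst1_pos hn).le, mul_assoc, ENNReal.mul_rpow_of_nonneg _ _ (by positivity)]
    congr 3
    rw [ENNReal.ofReal_pow (by positivity), ENNReal.ofReal_natCast]
  rw [tsum_congr h4, ENNReal.tsum_mul_left, mul_pow]
  congr 1
  rw [← ENNReal.rpow_natCast, ← ENNReal.rpow_mul]
  have : 1 / ((n:ℝ) + 1) * ((n + 1 : ℕ) : ℝ) = 1 := by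
    push_cast; field_simp
  rw [this, ENNReal.rpow_one]

/-- The case of one set. -/
theorem one_set (hn : 1 ≤ n) {S : Set (sphere (0 : (EuclideanSpace ℝ (Fin n))) 1)}
    {K : Set (EuclideanSpace ℝ (Fin n))} {ell : ℝ} (hell : 0 < ell)
    (hK : ∀ e ∈ S, ∃ z : (EuclideanSpace ℝ (Fin n)), ENNReal.ofReal ell ≤
      volume {s : ℝ | s ∈ Icc (0:ℝ) 1 ∧ z + s • (e : (EuclideanSpace ℝ (Fin n))) ∈ K})
    {D : ℕ} {A : Set (EuclideanSpace ℝ (Fin n))} (hD : 1 ≤ D)
    (hA : ComplexityLE D A) (hcov : K ⊆ A) :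
    ENNReal.ofReal (ell ^ n) * sig n S ≤
      ENNReal.ofReal (cst1 n * (D : ℝ) ^ (exp1 n)) * volume A := by
  have key : ∀ θ : ℝ, 0 < θ → θ < 1 →
      ENNReal.ofReal ((ell * θ) ^ n) * sig n S ≤
      ENNReal.ofReal (cst1 n * (D : ℝ) ^ (exp1 n)) * volume A := by
    intro θ hθ hθ1
    have hc : 0 ≤ cst1 n * (D : ℝ) ^ (exp1 n) := by
      have := (cst1_pos hn).le
      positivity
    have hsub : S ⊆ {e : sphere (0 : (EuclideanSpace ℝ (Fin n))) 1 |
        ENNReal.ofReal (ell * θ) < segMax A (e : (EuclideanSpace ℝ (Fin n)))} := by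
      intro e he
      obtain ⟨z, hz⟩ := hK e he
      have h1 : ENNReal.ofReal (ell * θ) < ENNReal.ofReal ell := by
        rw [ENNReal.ofReal_lt_ofReal_iff hell]; nlinarith
      refine lt_of_lt_of_le (lt_of_lt_of_le h1 hz) ?_
      refine le_trans (measure_mono ?_) (le_iSup (fun z : (EuclideanSpace ℝ (Fin n)) =>
        volume {s : ℝ | s ∈ Icc (0:ℝ) 1 ∧ z + s • (e : (EuclideanSpace ℝ (Fin n))) ∈ A}) z)
      rintro s ⟨h2, h3⟩
      exact ⟨h2, hcov h3⟩
    have h2 : sig n S ≤ ENNReal.ofReal (cst1 n * (D : ℝ) ^ (exp1 n) * (1 / (ell * θ)) ^ n) *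
        volume A := (measure_mono hsub).trans (weak hn hD hA (by positivity))
    calc ENNReal.ofReal ((ell * θ) ^ n) * sig n S
        ≤ ENNReal.ofReal ((ell * θ) ^ n) *
          (ENNReal.ofReal (cst1 n * (D : ℝ) ^ (exp1 n) * (1 / (ell * θ)) ^ n) * volume A) := by gcongr
      _ = ENNReal.ofReal ((ell * θ) ^ n * (cst1 n * (D : ℝ) ^ (exp1 n) * (1 / (ell * θ)) ^ n)) *
          volume A := by
          rw [← mul_assoc, ← ENNReal.ofReal_mul (by positivity)]
      _ = _ := by
          congr 2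
          rw [div_pow, one_pow]
          have : 0 < ell * θ := by positivity
          field_simp
  have hl1 : Tendsto (fun θ : ℝ => ENNReal.ofReal ((ell * θ) ^ n) * sig n S) (𝓝[<] 1)
      (𝓝 (ENNReal.ofReal (ell ^ n) * sig n S)) := by
    apply ENNReal.Tendsto.mul_const
    · apply ENNReal.tendsto_ofReal
      have hc : ContinuousAt (fun θ : ℝ => (ell * θ) ^ n) 1 := by fun_prop
      have := hc.tendsto
      simp only [mul_one] at this
      exact this.mono_left nhdsWithin_le_nhds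
    · left
      have : 0 < ENNReal.ofReal (ell ^ n) := ENNReal.ofReal_pos.2 (by positivity)
      exact this.ne'
  apply le_of_tendsto hl1
  have : Ioo (0:ℝ) 1 ∈ 𝓝[<] (1:ℝ) := Ioo_mem_nhdsLT one_pos
  filter_upwards [this] with θ hθ
  exact key θ hθ.1 hθ.2

end Pool.Agent.W770.SA
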