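import Pool.Agent.W770.SA.Layer
import Pool.Agent.H742R2.Kk.Sphere

set_option autoImplicit false

/-!
The estimate at the critical exponent.
-/

open MeasureTheory Set Filter Topology ENNReal NNReal Metric

namespace Pool.Agent.W770.SA

variable {n : ℕ}

/-- The Kakeya maximal function. -/
noncomputable def kakeyaMax (δ : ℝ) (f : (EuclideanSpace ℝ (Fin n)) → ℝ) (e : (EuclideanSpace ℝ (Fin n))) : ℝ≥0∞ :=
  ⨆ a : (EuclideanSpace ℝ (Fin n)), (volume (tube δ e a))⁻¹ * ∫⁻ y in tube δ e a, ‖f y‖ₑ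

theorem segMax_le_one (A : Set (EuclideanSpace ℝ (Fin n))) (e : (EuclideanSpace ℝ (Fin n))) : segMax A e ≤ 1 := by
  apply iSup_le
  intro z
  calc volume {s : ℝ | s ∈ Icc 0 1 ∧ z + s • e ∈ A} ≤ volume (Icc (0:ℝ) 1) :=
        measure_mono fun s hs => hs.1
    _ = 1 := by rw [Real.volume_Icc]; simp

theorem measurable_segMax {A : Set (EuclideanSpace ℝ (Fin n))} (hA : IsOpen A) : Measurable (segMax A) := by
  apply measurable_of_Ioi
  intro a
  exact (isOpen_segMax hA a).measurableSet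

theorem pow_le_layers {u : ℝ≥0∞} (hu : u ≤ 1) (p : ℕ) (L : ℕ) :
    u ^ p ≤ ENNReal.ofReal (((1/2:ℝ) ^ L) ^ p) + ∑ l ∈ Finset.range L,
      ENNReal.ofReal (((1/2:ℝ) ^ l) ^ p) * (Ioi (ENNReal.ofReal ((1/2:ℝ) ^ (l + 1)))).indicator 1 u := by
  induction L with
  | zero => simpa using pow_le_one' hu p
  | succ L ih =>
    by_cases h : ENNReal.ofReal ((1/2:ℝ) ^ (L + 1)) < u
    · rw [Finset.sum_range_succ, indicator_of_mem (show u ∈ Ioi _ from h), Pi.one_apply, mul_one]
      refine ih.trans ?_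
      rw [add_comm]
      exact le_add_self
    · push Not at h
      refine le_add_right ?_
      calc u ^ p ≤ (ENNReal.ofReal ((1/2:ℝ) ^ (L + 1))) ^ p := by gcongr
        _ = _ := by rw [← ENNReal.ofReal_pow (by positivity)]

/-- the surface measure -/
noncomputable def sig (n : ℕ) : Measure (sphere (0 : EuclideanSpace ℝ (Fin n)) 1) :=
  (volume : Measure (EuclideanSpace ℝ (Fin n))).toSphere

theorem sig_univ_lt_top : sig n univ < ∞ := by
  unfold sig
  exact measure_lt_top _ _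

theorem lintegral_segMax_pow (hn : 1 ≤ n) {D : ℕ} (hD : 1 ≤ D) {A : Set (EuclideanSpace ℝ (Fin n))}
    (hA : ComplexityLE D A) (L : ℕ) :
    ∫⁻ e, segMax A (e : (EuclideanSpace ℝ (Fin n))) ^ n ∂(sig n) ≤ ENNReal.ofReal (((1/2:ℝ) ^ L) ^ n) * sig n univ +
      L * (ENNReal.ofReal (2 ^ n * (cst1 n * (D:ℝ) ^ (exp1 n))) * volume A) := by
  have hc := cst1_pos hn
  have hK0 : 0 ≤ cst1 n * (D:ℝ) ^ (exp1 n) := by positivity
  have hm : Measurable (fun e : sphere (0:(EuclideanSpace ℝ (Fin n))) 1 => segMax A (e : (EuclideanSpace ℝ (Fin n)))) :=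
    (measurable_segMax hA.isOpen).comp measurable_subtype_coe
  have hind : ∀ c : ℝ≥0∞, Measurable (fun e : sphere (0:(EuclideanSpace ℝ (Fin n))) 1 =>
      (Ioi c).indicator (1 : ℝ≥0∞ → ℝ≥0∞) (segMax A (e : (EuclideanSpace ℝ (Fin n))))) :=
    fun c => (measurable_one.indicator measurableSet_Ioi).comp hm
  calc ∫⁻ e, segMax A (e : (EuclideanSpace ℝ (Fin n))) ^ n ∂(sig n)
      ≤ ∫⁻ e, (ENNReal.ofReal (((1/2:ℝ) ^ L) ^ n) + ∑ l ∈ Finset.range L,
      ENNReal.ofReal (((1/2:ℝ) ^ l) ^ n) *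
        (Ioi (ENNReal.ofReal ((1/2:ℝ) ^ (l + 1)))).indicator 1 (segMax A (e : (EuclideanSpace ℝ (Fin n))))) ∂(sig n) :=
        lintegral_mono fun e => pow_le_layers (segMax_le_one A _) n L
    _ = ENNReal.ofReal (((1/2:ℝ) ^ L) ^ n) * sig n univ + ∑ l ∈ Finset.range L,
        ENNReal.ofReal (((1/2:ℝ) ^ l) ^ n) *
          sig n {e | ENNReal.ofReal ((1/2:ℝ) ^ (l + 1)) < segMax A (e : (EuclideanSpace ℝ (Fin n)))} := by
        rw [lintegral_add_left measurable_const, lintegral_const,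
          lintegral_finsetSum _ (fun l _ => (hind _).const_mul _)]
        congr 1
        apply Finset.sum_congr rfl
        intro l _
        rw [lintegral_const_mul _ (hind _)]
        congr 1
        have h1 : (fun e : sphere (0:(EuclideanSpace ℝ (Fin n))) 1 => (Ioi (ENNReal.ofReal ((1/2:ℝ) ^ (l + 1)))).indicator
            (1 : ℝ≥0∞ → ℝ≥0∞) (segMax A (e : (EuclideanSpace ℝ (Fin n))))) =
            {e : sphere (0:(EuclideanSpace ℝ (Fin n))) 1 | ENNReal.ofReal ((1/2:ℝ) ^ (l + 1)) <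
              segMax A (e : (EuclideanSpace ℝ (Fin n)))}.indicator 1 := by
          ext e
          by_cases h : ENNReal.ofReal ((1/2:ℝ) ^ (l + 1)) < segMax A (e : (EuclideanSpace ℝ (Fin n)))
          · rw [indicator_of_mem (show segMax A (e : (EuclideanSpace ℝ (Fin n))) ∈ Ioi _ from h),
              indicator_of_mem (show e ∈ {e : sphere (0:(EuclideanSpace ℝ (Fin n))) 1 | _ < segMax A (e : (EuclideanSpace ℝ (Fin n)))} from h)]
            rfl
          · rw [indicator_of_notMem (show segMax A (e : (EuclideanSpace ℝ (Fin n))) ∉ Ioi _ from h),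
              indicator_of_notMem (show e ∉ {e : sphere (0:(EuclideanSpace ℝ (Fin n))) 1 | _ < segMax A (e : (EuclideanSpace ℝ (Fin n)))} from h)]
        rw [h1, lintegral_indicator_one (measurableSet_lt measurable_const hm)]
    _ ≤ ENNReal.ofReal (((1/2:ℝ) ^ L) ^ n) * sig n univ + ∑ _l ∈ Finset.range L,
        ENNReal.ofReal (2 ^ n * (cst1 n * (D:ℝ) ^ (exp1 n))) * volume A := by
        refine add_le_add le_rfl (Finset.sum_le_sum fun l _ => ?_)
        have h2 := weak hn hD hA (lam := (1/2:ℝ) ^ (l + 1)) (by positivity)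
        calc ENNReal.ofReal (((1/2:ℝ) ^ l) ^ n) *
              sig n {e | ENNReal.ofReal ((1/2:ℝ) ^ (l + 1)) < segMax A (e : (EuclideanSpace ℝ (Fin n)))}
            ≤ ENNReal.ofReal (((1/2:ℝ) ^ l) ^ n) * (ENNReal.ofReal (cst1 n * (D:ℝ) ^ (exp1 n) *
              (1 / (1/2:ℝ) ^ (l + 1)) ^ n) * volume A) := mul_le_mul_right h2 _
          _ = ENNReal.ofReal (2 ^ n * (cst1 n * (D:ℝ) ^ (exp1 n))) * volume A := by
              rw [← mul_assoc, ← ENNReal.ofReal_mul (by positivity)]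
              congr 2
              have h3 : ((1/2:ℝ) ^ l) ^ n * (1 / (1/2:ℝ) ^ (l + 1)) ^ n = 2 ^ n := by
                rw [← mul_pow, pow_succ]
                congr 1
                field_simp
              calc ((1/2:ℝ) ^ l) ^ n * (cst1 n * (D:ℝ) ^ (exp1 n) * (1 / (1/2:ℝ) ^ (l + 1)) ^ n)
                  = (((1/2:ℝ) ^ l) ^ n * (1 / (1/2:ℝ) ^ (l + 1)) ^ n) *
                    (cst1 n * (D:ℝ) ^ (exp1 n)) := by ring
                _ = _ := by rw [h3]
    _ = _ := by rw [Finset.sum_const, Finset.card_range, nsmul_eq_mul]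

/-- The superlevel sets of `|f|` have complexity at most `D`, up to null sets. -/
def SemialgAE (D : ℕ) (f : (EuclideanSpace ℝ (Fin n)) → ℝ) : Prop :=
  ∀ s : ℝ, 0 < s → ∃ A : Set (EuclideanSpace ℝ (Fin n)), ComplexityLE D A ∧ {y | s < |f y|} =ᵐ[volume] A

theorem markov {f : (EuclideanSpace ℝ (Fin n)) → ℝ} (hf : AEMeasurable f volume) {W : ℝ≥0∞}
    (hW : ∫⁻ y, ‖f y‖ₑ ^ n ≤ W) {s : ℝ} (hs : 0 < s) :
    ENNReal.ofReal (s ^ n) * volume {y | s < |f y|} ≤ W := by
  have h1 : ENNReal.ofReal (s ^ n) * volume {y | ENNReal.ofReal (s ^ n) ≤ ‖f y‖ₑ ^ n} ≤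
      ∫⁻ y, ‖f y‖ₑ ^ n := mul_meas_ge_le_lintegral₀ (hf.enorm.pow_const n) _
  refine le_trans (le_trans ?_ h1) hW
  gcongr ENNReal.ofReal (s ^ n) * ?_
  apply measure_mono
  intro y hy
  show ENNReal.ofReal (s ^ n) ≤ ‖f y‖ₑ ^ n
  rw [ENNReal.ofReal_pow hs.le, ← ofReal_norm, Real.norm_eq_abs]
  gcongr
  exact le_of_lt hy

/-- Pointwise bound of the maximal function by finitely many layers. -/
theorem pointwise {m : ℕ} (hnm : n = m + 1) (hm : 1 ≤ m) {c : ℝ} (hc : 0 < c)
    (hvol : ∀ (δ : ℝ) (e a : (EuclideanSpace ℝ (Fin n))), 0 < δ → ‖e‖ = 1 →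
      ENNReal.ofReal (c * δ ^ m) ≤ volume (tube δ e a))
    {δ : ℝ} (hδ : 0 < δ) {J : ℕ} (hJ : (1/2:ℝ) ^ J ≤ δ) {f : (EuclideanSpace ℝ (Fin n)) → ℝ}
    (hf : AEMeasurable f volume) {F : ℝ} (hF : 0 < F)
    (hW : ∫⁻ y, ‖f y‖ₑ ^ n ≤ ENNReal.ofReal (F ^ n))
    {A : ℕ → Set ((EuclideanSpace ℝ (Fin n)))} (hAo : ∀ j, IsOpen (A j))
    (hA : ∀ j : ℕ, {y | 2 ^ j * F < |f y|} =ᵐ[volume] A j)
    {e : (EuclideanSpace ℝ (Fin n))} (he : ‖e‖ = 1) :
    kakeyaMax δ f e ≤ ENNReal.ofReal (F * (1 + 2 / c)) +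
      ∑ j ∈ Finset.range J, ENNReal.ofReal (2 ^ j * F) * (2 * segMax (A j) e) := by
  subst hnm
  unfold kakeyaMax
  apply iSup_le
  intro a
  set T := tube δ e a with hT
  have hTv := hvol δ e a hδ he
  have hT0 : volume T ≠ 0 := by
    have : 0 < ENNReal.ofReal (c * δ ^ m) := ENNReal.ofReal_pos.2 (by positivity)
    exact (lt_of_lt_of_le this hTv).ne'
  have hTt : volume T ≠ ∞ := by
    have : T ⊆ closedBall a (1 / 2 + δ) := by
      rintro y ⟨h1, h2⟩
      rw [mem_closedBall, dist_eq_norm]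
      calc ‖y - a‖ = ‖(inner ℝ (y - a) e : ℝ) • e + ((y - a) - (inner ℝ (y - a) e : ℝ) • e)‖ := by
            congr 1; abel
        _ ≤ ‖(inner ℝ (y - a) e : ℝ) • e‖ + ‖(y - a) - (inner ℝ (y - a) e : ℝ) • e‖ :=
            norm_add_le _ _
        _ ≤ 1 / 2 + δ := by
            rw [norm_smul, he, mul_one, Real.norm_eq_abs]
            linarith
    exact ((measure_mono this).trans_lt measure_closedBall_lt_top).ne
  have h1 := lintegral_layers (volume.restrict T) (g := fun y => |f y|)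
    (hf.restrict.abs) hF
  have h2 : ∫⁻ y in T, ‖f y‖ₑ = ∫⁻ y in T, ENNReal.ofReal |f y| := by
    congr 1; ext y; rw [← ofReal_norm, Real.norm_eq_abs]
  have hTm : MeasurableSet T := (isClosed_tube δ e a).measurableSet
  have h3 : ∀ j : ℕ, (volume.restrict T) {y | 2 ^ j * F < |f y|} = volume (T ∩ A j) := by
    intro j
    rw [measure_congr (ae_restrict_of_ae (hA j) : {y | 2 ^ j * F < |f y|} =ᵐ[volume.restrict T] A j),
      Measure.restrict_apply (hAo j).measurableSet, inter_comm]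
  rw [h2]
  simp only [h3, Measure.restrict_apply_univ] at h1
  -- low layers
  have hlow : ∀ j, (volume T)⁻¹ * volume (T ∩ A j) ≤ 2 * segMax (A j) e := by
    intro j
    calc (volume T)⁻¹ * volume (T ∩ A j) ≤ (volume T)⁻¹ * (2 * volume T * segMax (A j) e) := by
          gcongr
          exact tube_inter_le he (hAo j)
      _ = ((volume T)⁻¹ * volume T) * (2 * segMax (A j) e) := by ring
      _ = _ := by rw [ENNReal.inv_mul_cancel hT0 hTt, one_mul]
  -- high layers
  have hmes : ∀ j : ℕ, volume (A j) ≤ ENNReal.ofReal (((1/2:ℝ) ^ j) ^ (m + 1)) := by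
    intro j
    have h4 := markov hf hW (s := 2 ^ j * F) (by positivity)
    rw [measure_congr (hA j)] at h4
    have h5 : ENNReal.ofReal (F ^ (m + 1)) = ENNReal.ofReal ((2 ^ j * F) ^ (m + 1)) *
        ENNReal.ofReal (((1/2:ℝ) ^ j) ^ (m + 1)) := by
      rw [← ENNReal.ofReal_mul (by positivity), ← mul_pow]
      congr 2
      rw [one_div, inv_pow]
      field_simp
    rw [h5] at h4
    exact (ENNReal.mul_le_mul_iff_right (by
      rw [Ne, ENNReal.ofReal_eq_zero, not_le]; positivity) ENNReal.ofReal_ne_top).1 h4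
  have hhigh : ∀ j : ℕ, ENNReal.ofReal (2 ^ (j + J) * F) *
      ((volume T)⁻¹ * volume (T ∩ A (j + J))) ≤ ENNReal.ofReal (F / c) * ENNReal.ofReal ((1/2) ^ j) := by
    intro j
    calc ENNReal.ofReal (2 ^ (j + J) * F) * ((volume T)⁻¹ * volume (T ∩ A (j + J)))
        ≤ ENNReal.ofReal (2 ^ (j + J) * F) * ((ENNReal.ofReal (c * δ ^ m))⁻¹ *
          ENNReal.ofReal (((1/2:ℝ) ^ (j + J)) ^ (m + 1))) := by
          gcongr
          exact (measure_mono inter_subset_right).trans (hmes _)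
      _ = ENNReal.ofReal (2 ^ (j + J) * F * ((c * δ ^ m)⁻¹ * ((1/2:ℝ) ^ (j + J)) ^ (m + 1))) := by
          rw [← ENNReal.ofReal_inv_of_pos (by positivity), ← ENNReal.ofReal_mul (by positivity),
            ← ENNReal.ofReal_mul (by positivity)]
      _ ≤ ENNReal.ofReal (F / c * (1/2) ^ j) := by
          apply ENNReal.ofReal_le_ofReal
          have h6 : (2:ℝ) ^ (j + J) * ((1/2:ℝ) ^ (j + J)) ^ (m + 1) = ((1/2:ℝ) ^ (j + J)) ^ m := by
            rw [pow_succ, ← mul_assoc, mul_comm ((2:ℝ) ^ (j + J)), mul_assoc, ← mul_pow]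
            norm_num
          have h7 : ((1/2:ℝ) ^ (j + J)) ^ m ≤ (1/2) ^ j * δ ^ m := by
            rw [pow_add, mul_pow]
            have h8 : ((1/2:ℝ) ^ j) ^ m ≤ (1/2) ^ j := by
              calc ((1/2:ℝ) ^ j) ^ m ≤ ((1/2:ℝ) ^ j) ^ 1 :=
                    pow_le_pow_of_le_one (by positivity) (pow_le_one₀ (by norm_num) (by norm_num)) hm
                _ = _ := pow_one _
            gcongr
          calc 2 ^ (j + J) * F * ((c * δ ^ m)⁻¹ * ((1/2:ℝ) ^ (j + J)) ^ (m + 1))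
              = F * (c * δ ^ m)⁻¹ * (2 ^ (j + J) * ((1/2:ℝ) ^ (j + J)) ^ (m + 1)) := by ring
            _ ≤ F * (c * δ ^ m)⁻¹ * ((1/2) ^ j * δ ^ m) := by
                rw [h6]
                gcongr
            _ = F / c * (1/2) ^ j := by
                field_simp
      _ = _ := by rw [ENNReal.ofReal_mul (by positivity)]
  calc (volume T)⁻¹ * ∫⁻ y in T, ENNReal.ofReal |f y|
      ≤ (volume T)⁻¹ * (ENNReal.ofReal F * volume T +
        ∑' j : ℕ, ENNReal.ofReal (2 ^ j * F) * volume (T ∩ A j)) := by gcongr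
    _ = ENNReal.ofReal F + ∑' j : ℕ, ENNReal.ofReal (2 ^ j * F) *
        ((volume T)⁻¹ * volume (T ∩ A j)) := by
        rw [mul_add, ← ENNReal.tsum_mul_left]
        congr 1
        · rw [mul_comm, mul_assoc, ENNReal.mul_inv_cancel hT0 hTt, mul_one]
        · congr 1; ext j; ring
    _ = ENNReal.ofReal F + (∑ j ∈ Finset.range J, ENNReal.ofReal (2 ^ j * F) *
        ((volume T)⁻¹ * volume (T ∩ A j)) + ∑' j : ℕ, ENNReal.ofReal (2 ^ (j + J) * F) *
        ((volume T)⁻¹ * volume (T ∩ A (j + J)))) := by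
        congr 1
        exact (ENNReal.summable.sum_add_tsum_nat_add' (f := fun j : ℕ =>
          ENNReal.ofReal (2 ^ j * F) * ((volume T)⁻¹ * volume (T ∩ A j)))).symm
    _ ≤ ENNReal.ofReal F + (∑ j ∈ Finset.range J, ENNReal.ofReal (2 ^ j * F) *
        (2 * segMax (A j) e) + ∑' j : ℕ, ENNReal.ofReal (F / c) * ENNReal.ofReal ((1/2) ^ j)) := by
        refine add_le_add le_rfl (add_le_add (Finset.sum_le_sum fun j _ => ?_)
          (ENNReal.tsum_le_tsum fun j => hhigh j))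
        exact mul_le_mul_right (hlow j) _
    _ = _ := by
        have h9 : ∑' j : ℕ, ENNReal.ofReal (F / c) * ENNReal.ofReal ((1/2) ^ j) =
            ENNReal.ofReal (F * (2 / c)) := by
          rw [ENNReal.tsum_mul_left]
          have h10 : ∑' j : ℕ, ENNReal.ofReal ((1/2:ℝ) ^ j) = ENNReal.ofReal 2 := by
            rw [← ENNReal.ofReal_tsum_of_nonneg (fun j => by positivity)
              summable_geometric_two, tsum_geometric_two]
          rw [h10, ← ENNReal.ofReal_mul (by positivity)]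
          congr 1; ring
        rw [h9, mul_add, mul_one, ENNReal.ofReal_add hF.le (by positivity)]
        ring

end Pool.Agent.W770.SA
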