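import Pool.Agent.W770.SA.Crit

set_option autoImplicit false

/-!
The estimate at the critical exponent, assembly.
-/

open MeasureTheory Set Filter Topology ENNReal NNReal Metric

namespace Pool.Agent.W770.SA

theorem pow_sum_le {N n m : ℕ} (hnm : n = m + 1) (y : ℕ → ℝ≥0∞) :
    (∑ i ∈ Finset.range N, y i) ^ n ≤ (N:ℝ≥0∞) ^ m * ∑ i ∈ Finset.range N, y i ^ n := by
  subst hnm
  have h := ENNReal.rpow_sum_le_const_mul_sum_rpow (s := Finset.range N) (f := y)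
    (p := ((m + 1 : ℕ) : ℝ)) (by push_cast; linarith [(Nat.cast_nonneg m : (0:ℝ) ≤ m)])
  have h1 : (((m + 1 : ℕ) : ℝ) - 1) = ((m:ℕ):ℝ) := by push_cast; ring
  rw [h1, Finset.card_range] at h
  simp only [ENNReal.rpow_natCast] at h
  exact h

/-- The main step: bound with any upper bound `F ^ n` of the integral. -/
theorem crit_aux {n m : ℕ} (hn : n = m + 1) (hm : 1 ≤ m) {c : ℝ} (hc : 0 < c)
    (hvol : ∀ (δ : ℝ) (e a : EuclideanSpace ℝ (Fin n)), 0 < δ → ‖e‖ = 1 →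
      ENNReal.ofReal (c * δ ^ m) ≤ volume (tube δ e a))
    {D : ℕ} (hD : 1 ≤ D) {δ : ℝ} (hδ : 0 < δ) {J : ℕ} (hJ : (1/2:ℝ) ^ J ≤ δ)
    {f : EuclideanSpace ℝ (Fin n) → ℝ} (hf : AEMeasurable f volume) (hfD : SemialgAE D f)
    {F : ℝ} (hF : 0 < F) (hW : ∫⁻ y, ‖f y‖ₑ ^ n ≤ ENNReal.ofReal (F ^ n)) :
    ∫⁻ e, kakeyaMax δ f (e : EuclideanSpace ℝ (Fin n)) ^ n ∂(sig n) ≤
      ENNReal.ofReal (((sig n univ).toReal * ((1 + 2 / c) ^ n + 2 ^ n) +
        4 * 4 ^ n * (cst1 n * (D:ℝ) ^ (exp1 n))) * ((J:ℝ) + 1) ^ n *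
        F ^ n) := by
  have hn1 : 1 ≤ n := by omega
  set K : ℝ := cst1 n * (D:ℝ) ^ (exp1 n) with hK
  have hcst := cst1_pos hn1
  have hD0 : (0:ℝ) < D := by exact_mod_cast hD
  have hK0 : 0 < K := by positivity
  set Sg : ℝ := (sig n univ).toReal with hSg
  have hSg0 : 0 ≤ Sg := ENNReal.toReal_nonneg
  have hσ : sig n univ = ENNReal.ofReal Sg := (ENNReal.ofReal_toReal sig_univ_lt_top.ne).symm
  have hlev := fun j : ℕ => hfD (2 ^ j * F) (by positivity)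
  choose A hAD hA using hlev
  have hAo : ∀ j, IsOpen (A j) := fun j => (hAD j).isOpen
  set y : EuclideanSpace ℝ (Fin n) → ℕ → ℝ≥0∞ := fun e i => match i with
    | 0 => ENNReal.ofReal (F * (1 + 2 / c))
    | i + 1 => ENNReal.ofReal (2 ^ i * F) * (2 * segMax (A i) e) with hy
  have hpt : ∀ e : sphere (0 : EuclideanSpace ℝ (Fin n)) 1,
      kakeyaMax δ f (e : EuclideanSpace ℝ (Fin n)) ^ n ≤
        ((J + 1 : ℕ):ℝ≥0∞) ^ m * ∑ i ∈ Finset.range (J + 1), y e i ^ n := by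
    intro e
    have he : ‖(e : EuclideanSpace ℝ (Fin n))‖ = 1 := by simp
    have h1 := pointwise hn hm hc hvol hδ hJ hf hF hW hAo hA he
    have h2 : ENNReal.ofReal (F * (1 + 2 / c)) + ∑ j ∈ Finset.range J,
        ENNReal.ofReal (2 ^ j * F) * (2 * segMax (A j) (e : EuclideanSpace ℝ (Fin n))) =
        ∑ i ∈ Finset.range (J + 1), y e i := by
      rw [Finset.sum_range_succ']
      rw [add_comm]
    rw [h2] at h1
    exact (pow_le_pow_left' h1 n).trans (pow_sum_le hn _)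
  have hym : ∀ i, Measurable (fun e : sphere (0 : EuclideanSpace ℝ (Fin n)) 1 => y e i ^ n) := by
    intro i
    cases i with
    | zero => exact measurable_const
    | succ i =>
      apply Measurable.pow_const
      apply Measurable.const_mul
      apply Measurable.const_mul
      exact (measurable_segMax (hAo i)).comp measurable_subtype_coe
  have hsum : ∑ j ∈ Finset.range J, ENNReal.ofReal ((2 ^ j * F) ^ n) * volume (A j) ≤
      2 * ENNReal.ofReal (F ^ n) := by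
    have h1 := sum_levels_le (volume : Measure (EuclideanSpace ℝ (Fin n))) (g := fun y => |f y|)
      hf.abs hF hn1 J
    have h2 : ∫⁻ y, ENNReal.ofReal (|(|f y|)| ^ n) = ∫⁻ y, ‖f y‖ₑ ^ n := by
      congr 1
      ext y
      rw [abs_abs, ENNReal.ofReal_pow (abs_nonneg _), ← ofReal_norm, Real.norm_eq_abs]
    rw [h2] at h1
    have h3 : ∀ j : ℕ, volume {y | 2 ^ j * F < |f y|} = volume (A j) := fun j => measure_congr (hA j)
    simp only [h3] at h1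
    exact h1.trans (by gcongr)
  have hI0 : ∫⁻ e, y (e : EuclideanSpace ℝ (Fin n)) 0 ^ n ∂(sig n) =
      ENNReal.ofReal (Sg * (1 + 2 / c) ^ n * F ^ n) := by
    simp only [hy]
    rw [lintegral_const, hσ, ← ENNReal.ofReal_pow (by positivity), ← ENNReal.ofReal_mul (by positivity)]
    congr 1
    rw [mul_pow]
    ring
  have hI : ∀ i ∈ Finset.range J, ∫⁻ e, y (e : EuclideanSpace ℝ (Fin n)) (i + 1) ^ n ∂(sig n) ≤
      ENNReal.ofReal (2 ^ n * Sg * ((1/2:ℝ) ^ J) ^ n * F ^ n) +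
      ENNReal.ofReal (2 * J * (2 ^ n * (2 ^ n * K))) *
        (ENNReal.ofReal ((2 ^ i * F) ^ n) * volume (A i)) := by
    intro i hi
    have hiJ : i ≤ J := (Finset.mem_range.1 hi).le
    have h1 := lintegral_segMax_pow hn1 hD (hAD i) (2 * J)
    have hm1 : Measurable (fun e : sphere (0 : EuclideanSpace ℝ (Fin n)) 1 =>
        segMax (A i) (e : EuclideanSpace ℝ (Fin n)) ^ n) :=
      ((measurable_segMax (hAo i)).comp measurable_subtype_coe).pow_const n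
    calc ∫⁻ e, y (e : EuclideanSpace ℝ (Fin n)) (i + 1) ^ n ∂(sig n)
        = ENNReal.ofReal ((2 ^ i * F) ^ n * 2 ^ n) *
          ∫⁻ e, segMax (A i) (e : EuclideanSpace ℝ (Fin n)) ^ n ∂(sig n) := by
          rw [← lintegral_const_mul _ hm1]
          congr 1
          ext e
          simp only [hy]
          rw [ENNReal.ofReal_mul (p := (2 ^ i * F) ^ n) (by positivity),
            ENNReal.ofReal_pow (p := 2 ^ i * F) (by positivity),
            ENNReal.ofReal_pow (p := 2) (by norm_num), mul_pow, mul_pow]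
          simp only [ENNReal.ofReal_ofNat]
          ring
      _ ≤ ENNReal.ofReal ((2 ^ i * F) ^ n * 2 ^ n) *
          (ENNReal.ofReal (((1/2:ℝ) ^ (2 * J)) ^ n) * sig n univ +
          ((2 * J : ℕ):ℝ≥0∞) * (ENNReal.ofReal (2 ^ n * K) * volume (A i))) := by
          gcongr
      _ = ENNReal.ofReal ((2 ^ i * F) ^ n * 2 ^ n * (((1/2:ℝ) ^ (2 * J)) ^ n * Sg)) +
          ENNReal.ofReal (2 * J * (2 ^ n * (2 ^ n * K))) *
            (ENNReal.ofReal ((2 ^ i * F) ^ n) * volume (A i)) := by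
          rw [mul_add, hσ, ← ENNReal.ofReal_mul (by positivity), ← ENNReal.ofReal_mul (by positivity)]
          congr 1
          rw [ENNReal.ofReal_mul (p := (2 ^ i * F) ^ n) (by positivity),
            ENNReal.ofReal_mul (p := 2 * (J:ℝ)) (by positivity),
            ENNReal.ofReal_mul (p := 2 ^ n) (q := 2 ^ n * K) (by positivity)]
          have h5 : ((2 * J : ℕ):ℝ≥0∞) = ENNReal.ofReal (2 * (J:ℝ)) := by
            rw [← ENNReal.ofReal_natCast]; push_cast; rfl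
          rw [h5]
          ring
      _ ≤ _ := by
          gcongr ?_ + _
          apply ENNReal.ofReal_le_ofReal
          have h6 : (2 ^ i * F) ^ n * ((1/2:ℝ) ^ (2 * J)) ^ n ≤ ((1/2:ℝ) ^ J) ^ n * F ^ n := by
            rw [← mul_pow, ← mul_pow]
            apply pow_le_pow_left₀ (by positivity)
            have h7 : (2:ℝ) ^ i * (1/2:ℝ) ^ (2 * J) ≤ (1/2:ℝ) ^ J := by
              have h8 : (2:ℝ) ^ i ≤ 2 ^ J := pow_le_pow_right₀ (by norm_num) hiJ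
              have h9 : (1/2:ℝ) ^ (2 * J) = (1/2:ℝ) ^ J * (1/2:ℝ) ^ J := by
                rw [← pow_add]; congr 1; ring
              calc (2:ℝ) ^ i * (1/2:ℝ) ^ (2 * J) ≤ 2 ^ J * (1/2:ℝ) ^ (2 * J) := by gcongr
                _ = (2 ^ J * (1/2:ℝ) ^ J) * (1/2:ℝ) ^ J := by rw [h9]; ring
                _ = _ := by rw [← mul_pow]; norm_num
            calc 2 ^ i * F * (1/2:ℝ) ^ (2 * J) = (2 ^ i * (1/2:ℝ) ^ (2 * J)) * F := by ring
              _ ≤ _ := by gcongr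
          calc (2 ^ i * F) ^ n * 2 ^ n * (((1/2:ℝ) ^ (2 * J)) ^ n * Sg)
              = 2 ^ n * Sg * ((2 ^ i * F) ^ n * ((1/2:ℝ) ^ (2 * J)) ^ n) := by ring
            _ ≤ 2 ^ n * Sg * (((1/2:ℝ) ^ J) ^ n * F ^ n) := by gcongr
            _ = _ := by ring
  have hJn : (J:ℝ) + 1 ≤ 2 ^ J := by
    have := Nat.lt_two_pow_self (n := J)
    exact_mod_cast this
  calc ∫⁻ e, kakeyaMax δ f (e : EuclideanSpace ℝ (Fin n)) ^ n ∂(sig n)
      ≤ ∫⁻ e, ((J + 1 : ℕ):ℝ≥0∞) ^ m * ∑ i ∈ Finset.range (J + 1),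
        y (e : EuclideanSpace ℝ (Fin n)) i ^ n ∂(sig n) := lintegral_mono hpt
    _ = ((J + 1 : ℕ):ℝ≥0∞) ^ m * (∑ i ∈ Finset.range J,
        ∫⁻ e, y (e : EuclideanSpace ℝ (Fin n)) (i + 1) ^ n ∂(sig n) +
        ∫⁻ e, y (e : EuclideanSpace ℝ (Fin n)) 0 ^ n ∂(sig n)) := by
        rw [lintegral_const_mul _ (Finset.measurable_sum _ fun i _ => hym i),
          lintegral_finsetSum _ (fun i _ => hym i), Finset.sum_range_succ']
    _ ≤ ((J + 1 : ℕ):ℝ≥0∞) ^ m * (∑ i ∈ Finset.range J,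
        (ENNReal.ofReal (2 ^ n * Sg * ((1/2:ℝ) ^ J) ^ n * F ^ n) +
        ENNReal.ofReal (2 * J * (2 ^ n * (2 ^ n * K))) *
          (ENNReal.ofReal ((2 ^ i * F) ^ n) * volume (A i))) +
        ENNReal.ofReal (Sg * (1 + 2 / c) ^ n * F ^ n)) := by
        rw [hI0]
        gcongr with i hi
        exact hI i hi
    _ = ((J + 1 : ℕ):ℝ≥0∞) ^ m * (ENNReal.ofReal (J * (2 ^ n * Sg * ((1/2:ℝ) ^ J) ^ n * F ^ n)) +
        ENNReal.ofReal (2 * J * (2 ^ n * (2 ^ n * K))) *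
          ∑ i ∈ Finset.range J, (ENNReal.ofReal ((2 ^ i * F) ^ n) * volume (A i)) +
        ENNReal.ofReal (Sg * (1 + 2 / c) ^ n * F ^ n)) := by
        rw [Finset.sum_add_distrib, Finset.sum_const, Finset.card_range, nsmul_eq_mul,
          ← Finset.mul_sum, ENNReal.ofReal_mul (p := (J:ℝ)) (by positivity), ENNReal.ofReal_natCast]
    _ ≤ ((J + 1 : ℕ):ℝ≥0∞) ^ m * (ENNReal.ofReal (J * (2 ^ n * Sg * ((1/2:ℝ) ^ J) ^ n * F ^ n)) +
        ENNReal.ofReal (2 * J * (2 ^ n * (2 ^ n * K))) * (2 * ENNReal.ofReal (F ^ n)) +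
        ENNReal.ofReal (Sg * (1 + 2 / c) ^ n * F ^ n)) := by gcongr
    _ = ENNReal.ofReal (((J:ℝ) + 1) ^ m * (J * (2 ^ n * Sg * ((1/2:ℝ) ^ J) ^ n * F ^ n) +
        2 * J * (2 ^ n * (2 ^ n * K)) * (2 * F ^ n) + Sg * (1 + 2 / c) ^ n * F ^ n)) := by
        have h2 : (2:ℝ≥0∞) = ENNReal.ofReal 2 := by simp
        rw [h2, ← ENNReal.ofReal_mul (by norm_num), ← ENNReal.ofReal_mul (by positivity),
          ← ENNReal.ofReal_add (by positivity) (by positivity),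
          ← ENNReal.ofReal_add (by positivity) (by positivity),
          ENNReal.ofReal_mul (p := ((J:ℝ) + 1) ^ m) (by positivity)]
        congr 1
        rw [ENNReal.ofReal_pow (by positivity), ENNReal.ofReal_add (by positivity) (by norm_num),
          ENNReal.ofReal_natCast, ENNReal.ofReal_one]
        push_cast
        rfl
    _ ≤ _ := by
        apply ENNReal.ofReal_le_ofReal
        have hJ0 : (0:ℝ) ≤ J := Nat.cast_nonneg J
        have hJ1 : (1:ℝ) ≤ (J:ℝ) + 1 := by linarith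
        have e1 : ((J:ℝ) + 1) ^ m * J * ((1/2:ℝ) ^ J) ^ n ≤ 1 := by
          calc ((J:ℝ) + 1) ^ m * J * ((1/2:ℝ) ^ J) ^ n
              ≤ ((J:ℝ) + 1) ^ m * ((J:ℝ) + 1) * ((1/2:ℝ) ^ J) ^ n := by gcongr; linarith
            _ = (((J:ℝ) + 1) * (1/2:ℝ) ^ J) ^ n := by
                rw [mul_pow ((J:ℝ) + 1) _ n]; congr 1; rw [hn, pow_succ]
            _ ≤ 1 := by
                apply pow_le_one₀ (by positivity)
                calc ((J:ℝ) + 1) * (1/2:ℝ) ^ J ≤ 2 ^ J * (1/2:ℝ) ^ J := by gcongr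
                  _ = 1 := by rw [← mul_pow]; norm_num
        have e1' : ((J:ℝ) + 1) ^ m * J * ((1/2:ℝ) ^ J) ^ n ≤ ((J:ℝ) + 1) ^ n :=
          e1.trans (one_le_pow₀ hJ1)
        have e2 : ((J:ℝ) + 1) ^ m * J ≤ ((J:ℝ) + 1) ^ n := by
          rw [hn, pow_succ]; gcongr; linarith
        have e3 : ((J:ℝ) + 1) ^ m ≤ ((J:ℝ) + 1) ^ n :=
          pow_le_pow_right₀ hJ1 (by omega)
        have e4 : (4:ℝ) ^ n = 2 ^ n * 2 ^ n := by rw [← mul_pow]; norm_num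
        calc ((J:ℝ) + 1) ^ m * (J * (2 ^ n * Sg * ((1/2:ℝ) ^ J) ^ n * F ^ n) +
            2 * J * (2 ^ n * (2 ^ n * K)) * (2 * F ^ n) + Sg * (1 + 2 / c) ^ n * F ^ n)
            = (((J:ℝ) + 1) ^ m * J * ((1/2:ℝ) ^ J) ^ n) * (2 ^ n * Sg * F ^ n) +
              (((J:ℝ) + 1) ^ m * J) * (4 * (2 ^ n * 2 ^ n) * K * F ^ n) +
              ((J:ℝ) + 1) ^ m * (Sg * (1 + 2 / c) ^ n * F ^ n) := by ring
          _ ≤ ((J:ℝ) + 1) ^ n * (2 ^ n * Sg * F ^ n) +
              ((J:ℝ) + 1) ^ n * (4 * (2 ^ n * 2 ^ n) * K * F ^ n) +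
              ((J:ℝ) + 1) ^ n * (Sg * (1 + 2 / c) ^ n * F ^ n) := by gcongr
          _ = (Sg * ((1 + 2 / c) ^ n + 2 ^ n) + 4 * 4 ^ n * K) * ((J:ℝ) + 1) ^ n * F ^ n := by
              rw [e4]; ring

/-- **The estimate at the critical exponent.** -/
theorem crit (n : ℕ) (hn2 : 2 ≤ n) : ∃ C : ℝ, 0 < C ∧ ∀ (D : ℕ) (δ : ℝ)
    (f : EuclideanSpace ℝ (Fin n) → ℝ), 1 ≤ D → 0 < δ → δ < 1 →
      AEMeasurable f volume → SemialgAE D f →
      ∫⁻ e, kakeyaMax δ f (e : EuclideanSpace ℝ (Fin n)) ^ n ∂(sig n) ≤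
        ENNReal.ofReal (C * (D:ℝ) ^ (exp1 n) * (1 + Real.log (1 / δ)) ^ n) *
          ∫⁻ y, ‖f y‖ₑ ^ n := by
  obtain ⟨m, hn⟩ : ∃ m, n = m + 1 := ⟨n - 1, by omega⟩
  have hm : 1 ≤ m := by omega
  obtain ⟨c, hc, hvol⟩ : ∃ c : ℝ, 0 < c ∧ ∀ (δ : ℝ) (e a : EuclideanSpace ℝ (Fin n)), 0 < δ →
      ‖e‖ = 1 → ENNReal.ofReal (c * δ ^ m) ≤ volume (tube δ e a) := by
    subst hn
    exact Pool.Agent.H742R2.Kk.volume_tube m
  have hn1 : 1 ≤ n := by omega
  have hcst := cst1_pos hn1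
  set Sg : ℝ := (sig n univ).toReal with hSg
  have hSg0 : 0 ≤ Sg := ENNReal.toReal_nonneg
  set C0 : ℝ := Sg * ((1 + 2 / c) ^ n + 2 ^ n) + 4 * 4 ^ n * cst1 n with hC0
  have hC0p : 0 < C0 := by positivity
  refine ⟨C0 * 3 ^ n, by positivity, ?_⟩
  intro D δ f hD hδ hδ1 hf hfD
  have hlog : 0 < Real.log (1 / δ) := Real.log_pos (by rw [lt_div_iff₀ hδ]; linarith)
  have hD1 : (1:ℝ) ≤ D := by exact_mod_cast hD
  set W := ∫⁻ y, ‖f y‖ₑ ^ n with hWdef
  set R : ℝ := C0 * 3 ^ n * (D:ℝ) ^ (exp1 n) * (1 + Real.log (1 / δ)) ^ n with hR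
  have hR0 : 0 < R := by positivity
  by_cases hWt : W = ∞
  · rw [hWt, ENNReal.mul_top (by rw [Ne, ENNReal.ofReal_eq_zero, not_le]; exact hR0)]
    exact le_top
  -- choice of J
  obtain ⟨J, hJ1, hJ2⟩ : ∃ J : ℕ, (1/2:ℝ) ^ J ≤ δ ∧ (J:ℝ) + 1 ≤ 3 * (1 + Real.log (1 / δ)) := by
    refine ⟨⌈Real.logb 2 (1 / δ)⌉₊, ?_, ?_⟩
    · have h1 : Real.logb 2 (1 / δ) ≤ ⌈Real.logb 2 (1 / δ)⌉₊ := Nat.le_ceil _
      rw [Real.logb_le_iff_le_rpow (by norm_num) (by positivity), Real.rpow_natCast] at h1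
      rw [div_le_iff₀ hδ] at h1
      set k := ⌈Real.logb 2 (1 / δ)⌉₊
      calc (1/2:ℝ) ^ k = (1/2:ℝ) ^ k * 1 := by ring
        _ ≤ (1/2:ℝ) ^ k * (2 ^ k * δ) := by gcongr
        _ = ((1/2:ℝ) ^ k * 2 ^ k) * δ := by ring
        _ = δ := by rw [← mul_pow]; norm_num
    · have h0 : 0 ≤ Real.logb 2 (1 / δ) := Real.logb_nonneg (by norm_num) (by
        rw [le_div_iff₀ hδ]; linarith)
      have h1 := (Nat.ceil_lt_add_one h0).le
      have hlog2 : 2 / 3 < Real.log 2 := by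
        have := Real.log_two_gt_d9
        linarith
      have h2 : Real.logb 2 (1 / δ) ≤ (3/2) * Real.log (1 / δ) := by
        rw [Real.logb, div_le_iff₀ (by linarith)]
        nlinarith
      linarith
  have hmain : ∀ F : ℝ, 0 < F → W ≤ ENNReal.ofReal (F ^ n) →
      ∫⁻ e, kakeyaMax δ f (e : EuclideanSpace ℝ (Fin n)) ^ n ∂(sig n) ≤
        ENNReal.ofReal (R * F ^ n) := by
    intro F hF hW
    refine (crit_aux hn hm hc hvol hD hδ hJ1 hf hfD hF hW).trans (ENNReal.ofReal_le_ofReal ?_)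
    gcongr
    rw [hR]
    have h1 : ((J:ℝ) + 1) ^ n ≤ 3 ^ n * (1 + Real.log (1 / δ)) ^ n := by
      rw [← mul_pow]
      exact pow_le_pow_left₀ (by positivity) hJ2 n
    have h2 : (1:ℝ) ≤ (D:ℝ) ^ (exp1 n) := one_le_pow₀ hD1
    have h3 : Sg * ((1 + 2 / c) ^ n + 2 ^ n) + 4 * 4 ^ n * (cst1 n * (D:ℝ) ^ (exp1 n)) ≤
        C0 * (D:ℝ) ^ (exp1 n) := by
      rw [hC0]
      have h4 : 0 ≤ Sg * ((1 + 2 / c) ^ n + 2 ^ n) := by positivity
      nlinarith
    calc (Sg * ((1 + 2 / c) ^ n + 2 ^ n) + 4 * 4 ^ n * (cst1 n * (D:ℝ) ^ (exp1 n))) *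
          ((J:ℝ) + 1) ^ n ≤ (C0 * (D:ℝ) ^ (exp1 n)) * (3 ^ n * (1 + Real.log (1 / δ)) ^ n) := by
          gcongr
      _ = _ := by ring
  apply ENNReal.le_of_forall_pos_le_add
  intro ε hε _
  have hε' : (0:ℝ) < ε := by exact_mod_cast hε
  set x : ℝ := W.toReal + ε / R with hx
  have hx0 : 0 < x := by
    have : 0 ≤ W.toReal := ENNReal.toReal_nonneg
    positivity
  have hFx : (x ^ ((1:ℝ) / n)) ^ n = x := by
    rw [← Real.rpow_natCast, ← Real.rpow_mul hx0.le]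
    have : (1:ℝ) / n * (n:ℕ) = 1 := by
      have : (n:ℝ) ≠ 0 := by positivity
      field_simp
    rw [this, Real.rpow_one]
  have h1 := hmain (x ^ ((1:ℝ) / n)) (by positivity) (by
    rw [hFx]
    calc W = ENNReal.ofReal W.toReal := (ENNReal.ofReal_toReal hWt).symm
      _ ≤ ENNReal.ofReal x := ENNReal.ofReal_le_ofReal (by
        rw [hx]; have : 0 ≤ ε / R := by positivity
        linarith))
  rw [hFx] at h1
  refine h1.trans (le_of_eq ?_)
  have h2 : R * x = R * W.toReal + ε := by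
    rw [hx]; field_simp
  rw [h2, ENNReal.ofReal_add (by positivity) hε'.le, ENNReal.ofReal_mul hR0.le,
    ENNReal.ofReal_toReal hWt]
  simp

end Pool.Agent.W770.SA
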