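import Mathlib

set_option autoImplicit false

/-!
Generic perturbations: measurability of projections, the Sard theorem with parameters.
-/

open MeasureTheory Set Filter Topology ENNReal NNReal Metric

namespace Pool.Agent.W770.SA

theorem measurableSet_of_sigmaCompact {X : Type*} [TopologicalSpace X] [T2Space X]
    [MeasurableSpace X] [BorelSpace X] {s : Set X} (hs : IsSigmaCompact s) : MeasurableSet s := by
  obtain ⟨K, hK, rfl⟩ := hs
  exact MeasurableSet.iUnion fun n => (hK n).measurableSet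

theorem sigmaCompact_of_closed {X : Type*} [TopologicalSpace X] [SigmaCompactSpace X]
    {s : Set X} (hs : IsClosed s) : IsSigmaCompact s :=
  (isSigmaCompact_univ_iff.2 inferInstance).of_isClosed_subset hs (subset_univ _)

theorem sigmaCompact_of_open_inter_closed {X : Type*} [PseudoMetricSpace X] [SigmaCompactSpace X]
    {U s : Set X} (hU : IsOpen U) (hs : IsClosed s) : IsSigmaCompact (U ∩ s) := by
  obtain ⟨F, hF, -, hFU, -⟩ := hU.exists_iUnion_isClosed
  rw [← hFU, iUnion_inter]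
  exact isSigmaCompact_iUnion _ fun n => sigmaCompact_of_closed ((hF n).inter hs)

variable {n : ℕ}

/-- derivative in the second variable -/
noncomputable def dz (G : (EuclideanSpace ℝ (Fin n)) × (EuclideanSpace ℝ (Fin n)) → (EuclideanSpace ℝ (Fin n))) (p : (EuclideanSpace ℝ (Fin n)) × (EuclideanSpace ℝ (Fin n))) : (EuclideanSpace ℝ (Fin n)) →L[ℝ] (EuclideanSpace ℝ (Fin n)) :=
  (fderiv ℝ G p).comp (ContinuousLinearMap.inr ℝ (EuclideanSpace ℝ (Fin n)) (EuclideanSpace ℝ (Fin n)))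

theorem continuous_dz {G : (EuclideanSpace ℝ (Fin n)) × (EuclideanSpace ℝ (Fin n)) → (EuclideanSpace ℝ (Fin n))} (hG : ContDiff ℝ 1 G) : Continuous (dz G) :=
  (hG.continuous_fderiv (by norm_num)).clm_comp continuous_const

theorem continuous_det_dz {G : (EuclideanSpace ℝ (Fin n)) × (EuclideanSpace ℝ (Fin n)) → (EuclideanSpace ℝ (Fin n))} (hG : ContDiff ℝ 1 G) :
    Continuous (fun p => (dz G p).det) :=
  ContinuousLinearMap.continuous_det.comp (continuous_dz hG)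

theorem hasFDerivAt_dz {G : (EuclideanSpace ℝ (Fin n)) × (EuclideanSpace ℝ (Fin n)) → (EuclideanSpace ℝ (Fin n))} (hG : ContDiff ℝ 1 G) (x z : (EuclideanSpace ℝ (Fin n))) :
    HasFDerivAt (fun z => G (x, z)) (dz G (x, z)) z := by
  have h1 : HasFDerivAt G (fderiv ℝ G (x, z)) (x, z) :=
    (hG.differentiable (by norm_num) (x, z)).hasFDerivAt
  have h2 : HasFDerivAt (fun z : (EuclideanSpace ℝ (Fin n)) => (x, z)) (ContinuousLinearMap.inr ℝ (EuclideanSpace ℝ (Fin n)) (EuclideanSpace ℝ (Fin n))) z :=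
    hasFDerivAt_prodMk_right x z
  exact h1.comp z h2

/-- Sard with parameters. -/
theorem sard {G : (EuclideanSpace ℝ (Fin n)) × (EuclideanSpace ℝ (Fin n)) → (EuclideanSpace ℝ (Fin n))} (hG : ContDiff ℝ 1 G) :
    ∀ᵐ ℓ : (EuclideanSpace ℝ (Fin n)), ∀ᵐ x : (EuclideanSpace ℝ (Fin n)), ∀ z, G (x, z) = ℓ → (dz G (x, z)).det ≠ 0 := by
  have hm : MeasurableSet {q : (EuclideanSpace ℝ (Fin n)) × (EuclideanSpace ℝ (Fin n)) | ∀ z, G (q.1, z) = q.2 → (dz G (q.1, z)).det ≠ 0} := by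
    have h : {q : (EuclideanSpace ℝ (Fin n)) × (EuclideanSpace ℝ (Fin n)) | ∀ z, G (q.1, z) = q.2 → (dz G (q.1, z)).det ≠ 0}ᶜ =
        (fun p : (EuclideanSpace ℝ (Fin n)) × (EuclideanSpace ℝ (Fin n)) => (p.1, G p)) '' {p | (dz G p).det = 0} := by
      ext q
      simp only [mem_compl_iff, mem_ofPred_eq, mem_image, not_forall]
      constructor
      · rintro ⟨z, hz, hd⟩
        exact ⟨(q.1, z), not_not.1 hd, Prod.ext rfl hz⟩
      · rintro ⟨p, hp, rfl⟩
        exact ⟨p.2, rfl, not_not.2 hp⟩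
    rw [← MeasurableSet.compl_iff, h]
    apply measurableSet_of_sigmaCompact
    apply IsSigmaCompact.image (continuous_fst.prodMk hG.continuous)
    exact sigmaCompact_of_closed (isClosed_eq (continuous_det_dz hG) continuous_const)
  rw [← Measure.ae_ae_comm hm]
  apply Eventually.of_forall
  intro x
  have h := addHaar_image_eq_zero_of_det_fderivWithin_eq_zero (volume : Measure (EuclideanSpace ℝ (Fin n)))
    (f := fun z => G (x, z)) (s := {z | (dz G (x, z)).det = 0}) (f' := fun z => dz G (x, z))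
    (fun z _ => (hasFDerivAt_dz hG x z).hasFDerivWithinAt) (fun z hz => hz)
  rw [ae_iff]
  refine measure_mono_null ?_ h
  intro ℓ hℓ
  simp only [mem_ofPred_eq, not_forall] at hℓ
  obtain ⟨z, hz, hd⟩ := hℓ
  exact ⟨z, not_not.1 hd, hz⟩

theorem encard_gt_iff {X : Type*} {s : Set X} {N : ℕ} :
    ¬ (s.encard ≤ N) ↔ ∃ w : Fin (N + 1) → X, Function.Injective w ∧ ∀ i, w i ∈ s := by
  rw [not_le]
  constructor
  · intro h
    have h1 : ((N + 1 : ℕ) : ℕ∞) ≤ s.encard := by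
      push_cast
      exact Order.add_one_le_of_lt h
    obtain ⟨t, hts, ht⟩ := Set.exists_subset_encard_eq h1
    have htf : t.Finite := Set.finite_of_encard_eq_coe ht
    have hc : htf.toFinset.card = N + 1 := by
      have := htf.encard_eq_coe_toFinset_card
      rw [ht] at this
      exact_mod_cast this.symm
    refine ⟨fun i => (htf.toFinset.equivFinOfCardEq hc).symm i, ?_, ?_⟩
    · intro i j hij
      exact (htf.toFinset.equivFinOfCardEq hc).symm.injective (Subtype.ext hij)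
    · intro i
      apply hts
      exact htf.mem_toFinset.1 ((htf.toFinset.equivFinOfCardEq hc).symm i).2
  · rintro ⟨w, hw, hws⟩
    have h1 : (Set.range w).encard ≤ s.encard := Set.encard_le_encard (by
      rintro _ ⟨i, rfl⟩; exact hws i)
    have h2 : (Set.range w).encard = ((N + 1 : ℕ) : ℕ∞) := by
      rw [← Set.image_univ, hw.encard_image]
      simp
    rw [h2] at h1
    refine lt_of_lt_of_le ?_ h1
    exact_mod_cast Nat.lt_succ_self N

/-- Genericity of the fibre bound. -/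
theorem fibre {G : (EuclideanSpace ℝ (Fin n)) × (EuclideanSpace ℝ (Fin n)) → (EuclideanSpace ℝ (Fin n))} (hG : Continuous G) {N : ℕ}
    (hN : ∀ (s : ℝ) (y : (EuclideanSpace ℝ (Fin n))), ∀ᵐ ℓ : (EuclideanSpace ℝ (Fin n)), {x | G (x, y - s • x) = ℓ}.encard ≤ N) :
    ∀ᵐ ℓ : (EuclideanSpace ℝ (Fin n)), ∀ᵐ s : ℝ, ∀ᵐ y : (EuclideanSpace ℝ (Fin n)), {x | G (x, y - s • x) = ℓ}.encard ≤ N := by
  have hm : MeasurableSet {q : (ℝ × (EuclideanSpace ℝ (Fin n))) × (EuclideanSpace ℝ (Fin n)) |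
      {x | G (x, q.1.2 - q.1.1 • x) = q.2}.encard ≤ N} := by
    have h : {q : (ℝ × (EuclideanSpace ℝ (Fin n))) × (EuclideanSpace ℝ (Fin n)) | {x | G (x, q.1.2 - q.1.1 • x) = q.2}.encard ≤ N}ᶜ =
        (fun p : (Fin (N + 1) → (EuclideanSpace ℝ (Fin n))) × ((ℝ × (EuclideanSpace ℝ (Fin n))) × (EuclideanSpace ℝ (Fin n))) => p.2) ''
          ({p | ∀ i j, i ≠ j → p.1 i ≠ p.1 j} ∩
            {p | ∀ i, G (p.1 i, p.2.1.2 - p.2.1.1 • p.1 i) = p.2.2}) := by
      ext q
      rw [mem_compl_iff, mem_ofPred_eq, encard_gt_iff]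
      constructor
      · rintro ⟨w, hw, hws⟩
        exact ⟨(w, q), ⟨fun i j hij h => hij (hw h), hws⟩, rfl⟩
      · rintro ⟨p, ⟨h1, h2⟩, rfl⟩
        refine ⟨p.1, ?_, h2⟩
        intro i j hij
        by_contra h
        exact h1 i j h hij
    rw [← MeasurableSet.compl_iff, h]
    apply measurableSet_of_sigmaCompact
    apply IsSigmaCompact.image continuous_snd
    apply sigmaCompact_of_open_inter_closed
    · have : {p : (Fin (N + 1) → (EuclideanSpace ℝ (Fin n))) × ((ℝ × (EuclideanSpace ℝ (Fin n))) × (EuclideanSpace ℝ (Fin n))) | ∀ i j, i ≠ j → p.1 i ≠ p.1 j} =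
          ⋂ i, ⋂ j, ⋂ (_ : i ≠ j), {p | p.1 i ≠ p.1 j} := by
        ext p; simp
      rw [this]
      refine isOpen_iInter_of_finite fun i => isOpen_iInter_of_finite fun j => ?_
      refine isOpen_iInter_of_finite fun _ => ?_
      exact isOpen_ne_fun (by fun_prop) (by fun_prop)
    · have : {p : (Fin (N + 1) → (EuclideanSpace ℝ (Fin n))) × ((ℝ × (EuclideanSpace ℝ (Fin n))) × (EuclideanSpace ℝ (Fin n))) |
          ∀ i, G (p.1 i, p.2.1.2 - p.2.1.1 • p.1 i) = p.2.2} =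
          ⋂ i, {p | G (p.1 i, p.2.1.2 - p.2.1.1 • p.1 i) = p.2.2} := by
        ext p; simp
      rw [this]
      refine isClosed_iInter fun i => ?_
      refine isClosed_eq (hG.comp ?_) (by fun_prop)
      fun_prop
  have h1 := (Measure.ae_ae_comm (μ := (volume : Measure (ℝ × (EuclideanSpace ℝ (Fin n))))) (ν := (volume : Measure (EuclideanSpace ℝ (Fin n))))
    (p := fun q ℓ => {x | G (x, q.2 - q.1 • x) = ℓ}.encard ≤ N) hm).1
    (Eventually.of_forall fun q => hN q.1 q.2)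
  filter_upwards [h1] with ℓ hℓ
  rw [Measure.volume_eq_prod] at hℓ
  exact Measure.ae_ae_of_ae_prod hℓ

/-- Local Lipschitz dependence of the non-degenerate solutions. -/
theorem local_lip {G : (EuclideanSpace ℝ (Fin n)) × (EuclideanSpace ℝ (Fin n)) → (EuclideanSpace ℝ (Fin n))} (hG : ContDiff ℝ 1 G) (p₀ : (EuclideanSpace ℝ (Fin n)) × (EuclideanSpace ℝ (Fin n)))
    (h0 : (dz G p₀).det ≠ 0) :
    ∃ K : ℝ≥0, ∃ r > 0, ∀ p ∈ closedBall p₀ r, ∀ p' ∈ closedBall p₀ r, G p = G p' →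
      dist p.2 p'.2 ≤ K * dist p.1 p'.1 := by
  have hs : HasStrictFDerivAt G (fderiv ℝ G p₀) p₀ :=
    hG.contDiffAt.hasStrictFDerivAt (by norm_num)
  set A := fderiv ℝ G p₀ with hA
  set D := dz G p₀ with hD
  let e : (EuclideanSpace ℝ (Fin n)) ≃L[ℝ] (EuclideanSpace ℝ (Fin n)) := ContinuousLinearMap.toContinuousLinearEquivOfDetNeZero D h0
  have he : ∀ v, e v = D v := fun v => rfl
  set c : ℝ := ‖(e.symm : (EuclideanSpace ℝ (Fin n)) →L[ℝ] (EuclideanSpace ℝ (Fin n)))‖ + 1 with hc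
  have hc0 : 0 < c := by positivity
  have hanti : ∀ v, ‖v‖ ≤ c * ‖D v‖ := by
    intro v
    calc ‖v‖ = ‖e.symm (e v)‖ := by simp
      _ ≤ ‖(e.symm : (EuclideanSpace ℝ (Fin n)) →L[ℝ] (EuclideanSpace ℝ (Fin n)))‖ * ‖e v‖ := (e.symm : (EuclideanSpace ℝ (Fin n)) →L[ℝ] (EuclideanSpace ℝ (Fin n))).le_opNorm _
      _ ≤ c * ‖D v‖ := by
          rw [he]
          gcongr
          rw [hc]; linarith
  have hlo := hs.isLittleO
  have hε : (0:ℝ) < 1 / (2 * c) := by positivity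
  have hev := hlo.bound hε
  rw [nhds_prod_eq] at hev
  obtain ⟨r, hr, hball⟩ : ∃ r > 0, ∀ p ∈ closedBall p₀ r, ∀ p' ∈ closedBall p₀ r,
      ‖G p - G p' - A (p - p')‖ ≤ 1 / (2 * c) * ‖p - p'‖ := by
    rw [← nhds_prod_eq, Metric.eventually_nhds_iff] at hev
    obtain ⟨ε, hε0, h⟩ := hev
    refine ⟨ε / 2, by positivity, fun p hp p' hp' => ?_⟩
    have := @h (p, p') (by
      rw [Prod.dist_eq]
      rw [mem_closedBall] at hp hp'
      exact max_lt (by linarith) (by linarith))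
    exact this
  refine ⟨⟨2 * c * (‖A‖ + 1 / (2 * c)), by positivity⟩, r, hr, ?_⟩
  intro p hp p' hp' hpp
  have h1 := hball p hp p' hp'
  rw [hpp, sub_self, zero_sub, norm_neg] at h1
  have h2 : A (p - p') = A (p.1 - p'.1, 0) + D (p.2 - p'.2) := by
    have h3 : p - p' = (p.1 - p'.1, 0) + (0, p.2 - p'.2) := by
      ext <;> simp
    rw [h3, map_add]
    rfl
  have h4 : ‖D (p.2 - p'.2)‖ ≤ ‖A (p - p')‖ + ‖A‖ * ‖p.1 - p'.1‖ := by
    have h5 : D (p.2 - p'.2) = A (p - p') - A (p.1 - p'.1, 0) := by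
      rw [h2]; abel
    rw [h5]
    refine (norm_sub_le _ _).trans ?_
    gcongr
    refine (A.le_opNorm _).trans ?_
    gcongr
    rw [Prod.norm_def]
    simp
  have h6 : ‖p - p'‖ ≤ ‖p.1 - p'.1‖ + ‖p.2 - p'.2‖ := by
    rw [Prod.norm_def]
    simp only [Prod.fst_sub, Prod.snd_sub]
    exact max_le (by linarith [norm_nonneg (p.2 - p'.2)]) (by linarith [norm_nonneg (p.1 - p'.1)])
  have h7 := hanti (p.2 - p'.2)
  rw [dist_eq_norm, dist_eq_norm]
  show ‖p.2 - p'.2‖ ≤ 2 * c * (‖A‖ + 1 / (2 * c)) * ‖p.1 - p'.1‖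
  have h8 : ‖p.2 - p'.2‖ ≤ c * (1 / (2 * c) * (‖p.1 - p'.1‖ + ‖p.2 - p'.2‖)
      + ‖A‖ * ‖p.1 - p'.1‖) := by
    refine h7.trans ?_
    gcongr
    refine h4.trans ?_
    gcongr
    refine h1.trans ?_
    gcongr
  have h9 : c * (1 / (2 * c) * (‖p.1 - p'.1‖ + ‖p.2 - p'.2‖) + ‖A‖ * ‖p.1 - p'.1‖)
      = (1/2) * ‖p.2 - p'.2‖ + (c * (‖A‖ + 1 / (2 * c))) * ‖p.1 - p'.1‖ := by
    field_simp
    ring
  rw [h9] at h8
  linarith

end Pool.Agent.W770.SA
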