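import Pool.Agent.W770.SA.Count3

set_option autoImplicit false

/-!
Interpolation: from sets to functions.
-/

open MeasureTheory Set Filter Topology ENNReal NNReal Metric

namespace Pool.Agent.W770.SA

theorem interp {X : Type*} [MeasurableSpace X] (μ ν : Measure X) {p N R G k : ℝ}
    (hk : p < k) (hp : 1 < p) (hN : 0 < N) (hR : 0 < R) (hG : 0 < G) {f : X → ℝ} (hf0 : ∀ x, 0 ≤ f x)
    (hf : AEMeasurable f ν)
    (h1 : ∀ s : ℝ, 0 < s → ν {x | s < f x} ≤ ENNReal.ofReal N * μ {x | s < f x})
    (h2 : ∀ s : ℝ, 0 < s → ν {x | s < f x} ≤ ENNReal.ofReal (N * R ^ (1 - 1 / k)) * μ {x | s < f x} ^ (1 / k))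
    (h3 : ∀ s : ℝ, 0 < s → μ {x | s < f x} ≤ ENNReal.ofReal (G ^ p * s ^ (-p))) :
    ∫⁻ x, ENNReal.ofReal (f x) ∂ν ≤
      ENNReal.ofReal ((1 / (1 - p / k) + 1 / (p - 1)) * (N * R ^ (1 - 1 / p) * G)) := by
  have hp0 : 0 < p := by linarith
  have hk0 : 0 < k := by linarith
  have hpk : p / k < 1 := by rw [div_lt_one hk0]; exact hk
  set s0 : ℝ := G * R ^ (-(1 / p)) with hs0
  have hs00 : 0 < s0 := by positivity
  rw [lintegral_eq_lintegral_meas_lt ν (ae_of_all _ hf0) hf, ← Ioc_union_Ioi_eq_Ioi hs00.le,
    lintegral_union measurableSet_Ioi Ioc_disjoint_Ioi_same]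
  have hA : ∫⁻ t in Ioc 0 s0, ν {a | t < f a} ≤ ENNReal.ofReal (1 / (1 - p / k) * (N * R ^ (1 - 1 / p) * G)) := by
    calc ∫⁻ t in Ioc 0 s0, ν {a | t < f a}
        ≤ ∫⁻ t in Ioc 0 s0, ENNReal.ofReal (N * R ^ (1 - 1 / k) * G ^ (p / k) * t ^ (-(p / k))) := by
          apply setLIntegral_mono' measurableSet_Ioc
          intro t ht
          refine (h2 t ht.1).trans ?_
          calc ENNReal.ofReal (N * R ^ (1 - 1 / k)) * μ {x | t < f x} ^ (1 / k)
              ≤ ENNReal.ofReal (N * R ^ (1 - 1 / k)) * ENNReal.ofReal (G ^ p * t ^ (-p)) ^ (1 / k) := by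
                gcongr
                exact h3 t ht.1
            _ = _ := by
                have ht0 : 0 < t := ht.1
                rw [ENNReal.ofReal_rpow_of_pos (by positivity), ← ENNReal.ofReal_mul (by positivity)]
                congr 1
                rw [Real.mul_rpow (by positivity) (by positivity), ← Real.rpow_mul hG.le,
                  ← Real.rpow_mul ht0.le]
                have e1 : p * (1 / k) = p / k := by ring
                have e2 : -p * (1 / k) = -(p / k) := by ring
                rw [e1, e2]; ring
      _ = ENNReal.ofReal (∫ t in Ioc 0 s0, N * R ^ (1 - 1 / k) * G ^ (p / k) * t ^ (-(p / k))) := by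
          rw [ofReal_integral_eq_lintegral_ofReal]
          · have := (intervalIntegral.intervalIntegrable_rpow' (r := -(p / k)) (a := 0) (b := s0)
              (by linarith)).const_mul (N * R ^ (1 - 1 / k) * G ^ (p / k))
            rwa [intervalIntegrable_iff_integrableOn_Ioc_of_le hs00.le] at this
          · filter_upwards [self_mem_ae_restrict measurableSet_Ioc] with t ht
            have ht0 : 0 < t := ht.1
            positivity
      _ = _ := by
          congr 1
          rw [← intervalIntegral.integral_of_le hs00.le, intervalIntegral.integral_const_mul,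
            integral_rpow (Or.inl (by linarith)), Real.zero_rpow (by linarith), sub_zero]
          have e1 : -(p / k) + 1 = 1 - p / k := by ring
          rw [e1, hs0, Real.mul_rpow hG.le (by positivity), ← Real.rpow_mul hR.le]
          have e2 : G ^ (p / k) * G ^ (1 - p / k) = G := by
            rw [← Real.rpow_add hG]
            simp
          have e3 : R ^ (1 - 1 / k) * R ^ (-(1 / p) * (1 - p / k)) = R ^ (1 - 1 / p) := by
            rw [← Real.rpow_add hR]
            congr 1
            field_simp
            ring
          calc N * R ^ (1 - 1 / k) * G ^ (p / k) *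
                (G ^ (1 - p / k) * R ^ (-(1 / p) * (1 - p / k)) / (1 - p / k))
              = 1 / (1 - p / k) * (N * (R ^ (1 - 1 / k) * R ^ (-(1 / p) * (1 - p / k))) *
                (G ^ (p / k) * G ^ (1 - p / k))) := by ring
            _ = _ := by rw [e2, e3]
  have hB : ∫⁻ t in Ioi s0, ν {a | t < f a} ≤ ENNReal.ofReal (1 / (p - 1) * (N * R ^ (1 - 1 / p) * G)) := by
    calc ∫⁻ t in Ioi s0, ν {a | t < f a}
        ≤ ∫⁻ t in Ioi s0, ENNReal.ofReal (N * G ^ p * t ^ (-p)) := by
          apply setLIntegral_mono' measurableSet_Ioi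
          intro t ht
          have ht0 : 0 < t := hs00.trans ht
          refine (h1 t ht0).trans ?_
          calc ENNReal.ofReal N * μ {x | t < f x}
              ≤ ENNReal.ofReal N * ENNReal.ofReal (G ^ p * t ^ (-p)) := by
                gcongr
                exact h3 t ht0
            _ = _ := by
                rw [← ENNReal.ofReal_mul (by positivity)]
                congr 1; ring
      _ = ENNReal.ofReal (∫ t in Ioi s0, N * G ^ p * t ^ (-p)) := by
          rw [ofReal_integral_eq_lintegral_ofReal]
          · exact (integrableOn_Ioi_rpow_of_lt (by linarith) hs00).const_mul _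
          · filter_upwards [self_mem_ae_restrict measurableSet_Ioi] with t ht
            have ht0 : 0 < t := hs00.trans ht
            positivity
      _ = _ := by
          congr 1
          rw [integral_const_mul, integral_Ioi_rpow_of_lt (by linarith) hs00]
          have e1 : -p + 1 = 1 - p := by ring
          rw [e1, hs0, Real.mul_rpow hG.le (by positivity), ← Real.rpow_mul hR.le]
          have e2 : G ^ p * G ^ (1 - p) = G := by
            rw [← Real.rpow_add hG]
            simp
          have e3 : R ^ (-(1 / p) * (1 - p)) = R ^ (1 - 1 / p) := by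
            congr 1
            field_simp
            ring
          have e4 : -(G ^ (1 - p) * R ^ (-(1 / p) * (1 - p))) / (1 - p) =
              G ^ (1 - p) * R ^ (-(1 / p) * (1 - p)) / (p - 1) := by
            rw [← neg_sub p 1, div_neg, neg_div, neg_neg]
          rw [e4, e3]
          calc N * G ^ p * (G ^ (1 - p) * R ^ (1 - 1 / p) / (p - 1))
              = 1 / (p - 1) * (N * R ^ (1 - 1 / p) * (G ^ p * G ^ (1 - p))) := by ring
            _ = _ := by rw [e2]
  refine (add_le_add hA hB).trans (le_of_eq ?_)
  have h6 : 0 < 1 - p / k := by linarith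
  have h7 : 0 < p - 1 := by linarith
  rw [← ENNReal.ofReal_add (by positivity) (by positivity), ← add_mul]

end Pool.Agent.W770.SA
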