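import Pool.Agent.W770.SA.Sel

set_option autoImplicit false

/-!
The area inequality for the selected lines, and the abstract key theorem.
-/

open MeasureTheory Set Filter Topology ENNReal NNReal Metric

namespace Pool.Agent.W770.SA

open Pool.Agent.H803R2.Kak Pool.Agent.H803R2.KakFTO Pool.Agent.H805R3.Kk

theorem volume_near_le (ms : Multiset ℝ) {r : ℝ} :
    volume {s : ℝ | ∃ m ∈ ms, |s - m| < r} ≤ ms.card * ENNReal.ofReal (2 * r) := by
  induction ms using Multiset.induction_on with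
  | empty => simp
  | cons m ms ih =>
    have h1 : {s : ℝ | ∃ m' ∈ m ::ₘ ms, |s - m'| < r} ⊆
        ball m r ∪ {s : ℝ | ∃ m' ∈ ms, |s - m'| < r} := by
      rintro s ⟨m', hm', hs⟩
      rcases Multiset.mem_cons.1 hm' with rfl | h
      · left; rwa [mem_ball, Real.dist_eq]
      · right; exact ⟨m', h, hs⟩
    refine (measure_mono h1).trans ((measure_union_le _ _).trans ?_)
    rw [Real.volume_ball, Multiset.card_cons]
    push_cast
    rw [add_mul, one_mul, add_comm]
    gcongr

theorem pow_le_prod (ms : Multiset ℝ) {r s : ℝ} (hr : 0 ≤ r)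
    (h : ∀ m ∈ ms, r ≤ |s - m|) : r ^ ms.card ≤ (ms.map (fun m => |s - m|)).prod := by
  induction ms using Multiset.induction_on with
  | empty => simp
  | cons m ms ih =>
    rw [Multiset.card_cons, Multiset.map_cons, Multiset.prod_cons, pow_succ, mul_comm]
    have h1 := ih (fun m' hm' => h m' (Multiset.mem_cons_of_mem hm'))
    have h2 := h m (Multiset.mem_cons_self _ _)
    exact mul_le_mul h2 h1 (by positivity) (abs_nonneg _)

variable {n : ℕ}

theorem measurable_absdet (L : (EuclideanSpace ℝ (Fin n)) →L[ℝ] (EuclideanSpace ℝ (Fin n))) :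
    Measurable (fun s : ℝ => ENNReal.ofReal |(L + s • ContinuousLinearMap.id ℝ (EuclideanSpace ℝ (Fin n))).det|) := by
  apply Measurable.ennreal_ofReal
  apply Measurable.abs
  apply (ContinuousLinearMap.continuous_det.comp _).measurable
  fun_prop

theorem det_lower (hn : 1 ≤ n) {μ : ℝ} (hμ : 0 < μ) (L : (EuclideanSpace ℝ (Fin n)) →L[ℝ] (EuclideanSpace ℝ (Fin n))) {A : Set ℝ}
    (hA : volume (Icc 0 μ \ A) ≤ ENNReal.ofReal (μ / 2)) :
    ENNReal.ofReal (μ / 4 * (μ / (8 * n)) ^ n) ≤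
      ∫⁻ s in Icc 0 μ, A.indicator 1 s *
        ENNReal.ofReal |(L + s • ContinuousLinearMap.id ℝ (EuclideanSpace ℝ (Fin n))).det| := by
  classical
  have hn0 : (0:ℝ) < n := by exact_mod_cast hn
  obtain ⟨ms, hc, hms⟩ := det_centers L
  rw [finrank_euclideanSpace_fin] at hc
  set r : ℝ := μ / (8 * n) with hr
  have hr0 : 0 < r := by positivity
  set Z : Set ℝ := {s : ℝ | ∃ m ∈ ms, |s - m| < r} with hZ
  have hZo : IsOpen Z := by
    have : Z = ⋃ m ∈ ms, {s : ℝ | |s - m| < r} := by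
      ext s; simp [hZ]
    rw [this]
    refine isOpen_biUnion fun m _ => isOpen_lt (by fun_prop) continuous_const
  have hZv : volume Z ≤ ENNReal.ofReal (μ / 4) := by
    refine (volume_near_le ms).trans ?_
    rw [hc, ← ENNReal.ofReal_natCast, ← ENNReal.ofReal_mul (by positivity)]
    apply ENNReal.ofReal_le_ofReal
    rw [hr]
    field_simp
    norm_num
  set A' : Set ℝ := toMeasurable volume (Icc 0 μ \ A) with hA'
  have hA'v : volume A' ≤ ENNReal.ofReal (μ / 2) := by
    rw [hA', measure_toMeasurable]; exact hA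
  set W : Set ℝ := (Icc 0 μ \ A') \ Z with hW
  have hWm : MeasurableSet W :=
    (measurableSet_Icc.diff (measurableSet_toMeasurable _ _)).diff hZo.measurableSet
  have hWv : ENNReal.ofReal (μ / 4) ≤ volume W := by
    have h1 : Icc 0 μ ⊆ A' ∪ Z ∪ W := by
      intro s hs
      by_cases h1 : s ∈ A'
      · left; left; exact h1
      · by_cases h2 : s ∈ Z
        · left; right; exact h2
        · right; exact ⟨⟨hs, h1⟩, h2⟩
    have h2 := (measure_mono h1 (μ := volume)).trans ((measure_union_le _ _).trans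
      (add_le_add_left (measure_union_le _ _) _))
    rw [Real.volume_Icc, sub_zero] at h2
    have h3 : ENNReal.ofReal μ ≤ ENNReal.ofReal (μ / 2) + ENNReal.ofReal (μ / 4) + volume W :=
      h2.trans (by gcongr)
    rw [← ENNReal.ofReal_add (by positivity) (by positivity)] at h3
    have h4 : ENNReal.ofReal μ = ENNReal.ofReal (μ / 2 + μ / 4) + ENNReal.ofReal (μ / 4) := by
      rw [← ENNReal.ofReal_add (by positivity) (by positivity)]; congr 1; ring
    rw [h4] at h3
    exact (ENNReal.add_le_add_iff_left ENNReal.ofReal_ne_top).1 h3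
  calc ENNReal.ofReal (μ / 4 * r ^ n) = ENNReal.ofReal (r ^ n) * ENNReal.ofReal (μ / 4) := by
        rw [← ENNReal.ofReal_mul (by positivity), mul_comm]
    _ ≤ ENNReal.ofReal (r ^ n) * volume W := by gcongr
    _ = ∫⁻ s in W, ENNReal.ofReal (r ^ n) := by
        rw [setLIntegral_const]
    _ ≤ ∫⁻ s in W, A.indicator 1 s *
        ENNReal.ofReal |(L + s • ContinuousLinearMap.id ℝ (EuclideanSpace ℝ (Fin n))).det| := by
        apply setLIntegral_mono' hWm
        rintro s ⟨⟨hs1, hs2⟩, hs3⟩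
        have hsA : s ∈ A := by
          by_contra h
          exact hs2 (subset_toMeasurable _ _ ⟨hs1, h⟩)
        rw [indicator_of_mem hsA, Pi.one_apply, one_mul]
        apply ENNReal.ofReal_le_ofReal
        refine le_trans ?_ (hms s)
        rw [← hc]
        apply pow_le_prod _ hr0.le
        intro m hm
        by_contra h
        push Not at h
        exact hs3 ⟨m, hm, h⟩
    _ ≤ _ := by
        apply lintegral_mono_set
        exact sdiff_subset.trans sdiff_subset

/-- **The abstract key theorem.** -/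
theorem key (hn : 1 ≤ n) {N : ℕ} {μ : ℝ} (hμ : 0 < μ) {S : Set (EuclideanSpace ℝ (Fin n))} (hS : MeasurableSet S)
    {G : (EuclideanSpace ℝ (Fin n)) × (EuclideanSpace ℝ (Fin n)) → (EuclideanSpace ℝ (Fin n))} (hG : ContDiff ℝ 1 G)
    (hN : ∀ (s : ℝ) (y : (EuclideanSpace ℝ (Fin n))), ∀ᵐ ℓ : (EuclideanSpace ℝ (Fin n)), {x | G (x, y - s • x) = ℓ}.encard ≤ N)
    {U : Set ((EuclideanSpace ℝ (Fin n)) × (EuclideanSpace ℝ (Fin n)))} (hU : IsOpen U)
    (hUS : ∀ p ∈ U, volume {s : ℝ | s ∈ Icc 0 μ ∧ p.2 + s • p.1 ∉ S} ≤ ENNReal.ofReal (μ / 2))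
    {B : Set (EuclideanSpace ℝ (Fin n))} {ε : ℝ} (hε : 0 < ε)
    (hB : ∀ ℓ : (EuclideanSpace ℝ (Fin n)), ‖ℓ‖ < ε → ∀ x ∈ B, ∃ z, (x, z) ∈ U ∧ G (x, z) = ℓ) :
    volume B ≤ ENNReal.ofReal (4 * (8 * n / μ) ^ n) * (N * volume S) := by
  classical
  have hn0 : (0:ℝ) < n := by exact_mod_cast hn
  -- choose a generic small ℓ
  have hgen : ∀ᵐ ℓ : (EuclideanSpace ℝ (Fin n)), (∀ᵐ x : (EuclideanSpace ℝ (Fin n)), ∀ z, G (x, z) = ℓ → (dz G (x, z)).det ≠ 0) ∧
      ∀ᵐ s : ℝ, ∀ᵐ y : (EuclideanSpace ℝ (Fin n)), {x | G (x, y - s • x) = ℓ}.encard ≤ N :=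
    (sard hG).and (fibre hG.continuous hN)
  obtain ⟨ℓ, hℓε, hreg, hfib⟩ : ∃ ℓ : (EuclideanSpace ℝ (Fin n)), ‖ℓ‖ < ε ∧
      (∀ᵐ x : (EuclideanSpace ℝ (Fin n)), ∀ z, G (x, z) = ℓ → (dz G (x, z)).det ≠ 0) ∧
      ∀ᵐ s : ℝ, ∀ᵐ y : (EuclideanSpace ℝ (Fin n)), {x | G (x, y - s • x) = ℓ}.encard ≤ N := by
    by_contra hno
    have h1 : ball (0:(EuclideanSpace ℝ (Fin n))) ε ⊆ {ℓ | ¬ ((∀ᵐ x : (EuclideanSpace ℝ (Fin n)), ∀ z, G (x, z) = ℓ → (dz G (x, z)).det ≠ 0) ∧
      ∀ᵐ s : ℝ, ∀ᵐ y : (EuclideanSpace ℝ (Fin n)), {x | G (x, y - s • x) = ℓ}.encard ≤ N)} := by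
      intro ℓ hℓ
      rw [mem_ball_zero_iff] at hℓ
      rintro ⟨h2, h3⟩
      exact hno ⟨ℓ, hℓ, h2, h3⟩
    have h2 := measure_mono_null h1 hgen
    exact (measure_ball_pos volume (0:(EuclideanSpace ℝ (Fin n))) hε).ne' h2
  obtain ⟨B1, a, hB1m, ha, haU, hB1⟩ := selection hG hU ℓ
  have hBB1 : volume B ≤ volume B1 := by
    apply measure_mono_ae
    filter_upwards [hreg] with x hx hxB
    obtain ⟨z, hz, hz2⟩ := hB ℓ hℓε x hxB
    exact hB1 x z hz hz2 (hx z hz2)
  refine hBB1.trans ?_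
  obtain ⟨P, a', a₀, hPm, hPd, hPB, hPae, hder, ha'm, ha₀m, ha₀⟩ := ha.exists_good hB1m
  set B2 := ⋃ k, P k with hB2
  have hB2m : MeasurableSet B2 := MeasurableSet.iUnion hPm
  have hv12 : volume B1 = volume B2 := (measure_congr hPae).symm
  rw [hv12]
  -- the area inequality at each height
  have harea : ∀ᵐ s : ℝ, ∫⁻ x in B2, S.indicator 1 (a x + s • x) *
      ENNReal.ofReal |(a' x + s • ContinuousLinearMap.id ℝ (EuclideanSpace ℝ (Fin n))).det| ≤ N * volume S := by
    filter_upwards [hfib] with s hs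
    have hder' : ∀ k, ∀ x ∈ P k, HasFDerivWithinAt (fun x => a x + s • x)
        (a' x + s • ContinuousLinearMap.id ℝ (EuclideanSpace ℝ (Fin n))) (P k) x := by
      intro k x hx
      exact (hder k x hx).add ((hasFDerivWithinAt_id x (P k)).const_smul s)
    have h1 := lintegral_comp_det_leP (volume : Measure (EuclideanSpace ℝ (Fin n))) (N := N) hPm hPd hder'
      (ha'm.add_const _) (by
        filter_upwards [hs] with y hy
        refine le_trans (Set.encard_le_encard ?_) hy
        rintro x ⟨hx, hxy, -⟩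
        have h2 := (haU x (hPB hx)).2
        have h3 : y - s • x = a x := by rw [← hxy]; abel
        show G (x, y - s • x) = ℓ
        rw [h3, h2]) (H := S.indicator 1) (measurable_one.indicator hS)
    refine h1.trans_eq ?_
    rw [lintegral_indicator_one hS]
  -- measurability of the integrand
  set F : (EuclideanSpace ℝ (Fin n)) → ℝ → ℝ≥0∞ := fun x s => S.indicator 1 (a₀ x + s • x) *
      ENNReal.ofReal |(a' x + s • ContinuousLinearMap.id ℝ (EuclideanSpace ℝ (Fin n))).det| with hF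
  have hFm : Measurable (fun q : (EuclideanSpace ℝ (Fin n)) × ℝ => F q.1 q.2) := by
    apply Measurable.mul
    · apply (measurable_one.indicator hS).comp
      fun_prop
    · apply Measurable.ennreal_ofReal
      apply Measurable.abs
      apply ContinuousLinearMap.continuous_det.measurable.comp
      have h1 : Measurable (fun q : (EuclideanSpace ℝ (Fin n)) × ℝ => a' q.1) := ha'm.comp measurable_fst
      have h2 : Measurable (fun q : (EuclideanSpace ℝ (Fin n)) × ℝ => q.2 • ContinuousLinearMap.id ℝ (EuclideanSpace ℝ (Fin n))) := by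
        have hc : Continuous (fun q : (EuclideanSpace ℝ (Fin n)) × ℝ => q.2 • ContinuousLinearMap.id ℝ (EuclideanSpace ℝ (Fin n))) := by fun_prop
        exact hc.measurable
      exact h1.add h2
  have hFeq : ∀ x ∈ B2, ∀ s, F x s = S.indicator 1 (a x + s • x) *
      ENNReal.ofReal |(a' x + s • ContinuousLinearMap.id ℝ (EuclideanSpace ℝ (Fin n))).det| := by
    intro x hx s
    simp only [hF]
    rw [ha₀ x hx]
  have hup : ∫⁻ x in B2, ∫⁻ s in Icc 0 μ, F x s ≤ ENNReal.ofReal μ * (N * volume S) := by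
    rw [lintegral_lintegral_swap hFm.aemeasurable]
    calc ∫⁻ s in Icc 0 μ, ∫⁻ x in B2, F x s
        ≤ ∫⁻ s in Icc 0 μ, N * volume S := by
          apply lintegral_mono_ae
          filter_upwards [ae_restrict_of_ae harea] with s hs
          refine le_trans (le_of_eq ?_) hs
          apply setLIntegral_congr_fun hB2m
          intro x hx
          exact hFeq x hx s
      _ = _ := by
          rw [setLIntegral_const, Real.volume_Icc, sub_zero, mul_comm]
  have hlow : ENNReal.ofReal (μ / 4 * (μ / (8 * n)) ^ n) * volume B2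
      ≤ ∫⁻ x in B2, ∫⁻ s in Icc 0 μ, F x s := by
    rw [← setLIntegral_const]
    apply setLIntegral_mono' hB2m
    intro x hx
    have h1 := hUS (x, a x) (haU x (hPB hx)).1
    have h2 := det_lower hn hμ (a' x) (A := {s | a x + s • x ∈ S}) (by
      refine le_trans (measure_mono ?_) h1
      rintro s ⟨hs1, hs2⟩
      exact ⟨hs1, hs2⟩)
    refine h2.trans (le_of_eq ?_)
    apply setLIntegral_congr_fun measurableSet_Icc
    intro s _
    simp only
    rw [hFeq x hx s]
    congr 1
  have hfin := hlow.trans hup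
  have hc1 : (0:ℝ) < μ / 4 * (μ / (8 * n)) ^ n := by positivity
  have hsplit : ENNReal.ofReal μ = ENNReal.ofReal (μ / 4 * (μ / (8 * n)) ^ n) *
      ENNReal.ofReal (4 * (8 * n / μ) ^ n) := by
    rw [← ENNReal.ofReal_mul hc1.le]
    congr 1
    have : (μ / (8 * n)) ^ n * (8 * n / μ) ^ n = 1 := by
      rw [← mul_pow]
      have : μ / (8 * n) * (8 * n / μ) = 1 := by field_simp
      rw [this, one_pow]
    calc μ = μ * 1 := by ring
      _ = μ * ((μ / (8 * n)) ^ n * (8 * n / μ) ^ n) := by rw [this]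
      _ = _ := by ring
  rw [hsplit, mul_assoc] at hfin
  have h0 : ENNReal.ofReal (μ / 4 * (μ / (8 * n)) ^ n) ≠ 0 := by
    rw [Ne, ENNReal.ofReal_eq_zero, not_le]; exact hc1
  exact (ENNReal.mul_le_mul_iff_right h0 ENNReal.ofReal_ne_top).1 hfin

end Pool.Agent.W770.SA
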