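import Pool.Agent.W770.SA.Tube

set_option autoImplicit false

/-!
Decomposition of functions into dyadic layers.
-/

open MeasureTheory Set Filter Topology ENNReal NNReal Metric

namespace Pool.Agent.W770.SA

theorem sum_two_pow (t : ℝ) (N : ℕ) : t + ∑ j ∈ Finset.range N, 2 ^ j * t = 2 ^ N * t := by
  induction N with
  | zero => simp
  | succ N ih =>
    rw [Finset.sum_range_succ, ← add_assoc, ih]; ring

theorem layers {t x : ℝ} (ht : 0 < t) :
    ENNReal.ofReal x ≤ ENNReal.ofReal t +
      ∑' j : ℕ, ENNReal.ofReal (2 ^ j * t) * (Ioi (2 ^ j * t)).indicator 1 x := by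
  classical
  have hex : ∃ J : ℕ, x ≤ 2 ^ J * t := by
    obtain ⟨J, hJ⟩ := pow_unbounded_of_one_lt (x / t) (by norm_num : (1:ℝ) < 2)
    refine ⟨J, ?_⟩
    rw [div_lt_iff₀ ht] at hJ
    exact hJ.le
  set J := Nat.find hex with hJ
  have hJx : x ≤ 2 ^ J * t := Nat.find_spec hex
  have hlt : ∀ j < J, 2 ^ j * t < x := fun j hj => not_le.1 (Nat.find_min hex hj)
  calc ENNReal.ofReal x ≤ ENNReal.ofReal (2 ^ J * t) := ENNReal.ofReal_le_ofReal hJx
    _ = ENNReal.ofReal t + ∑ j ∈ Finset.range J, ENNReal.ofReal (2 ^ j * t) := by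
        rw [← sum_two_pow, ENNReal.ofReal_add ht.le (Finset.sum_nonneg fun j _ => by positivity),
          ENNReal.ofReal_sum_of_nonneg (fun j _ => by positivity)]
    _ = ENNReal.ofReal t + ∑ j ∈ Finset.range J,
          ENNReal.ofReal (2 ^ j * t) * (Ioi (2 ^ j * t)).indicator 1 x := by
        congr 1
        apply Finset.sum_congr rfl
        intro j hj
        rw [indicator_of_mem (show x ∈ Ioi (2 ^ j * t) from hlt j (Finset.mem_range.1 hj))]
        simp
    _ ≤ _ := by
        gcongr
        exact ENNReal.sum_le_tsum _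

theorem lintegral_layers {X : Type*} [MeasurableSpace X] (ν : Measure X) {g : X → ℝ}
    (hg : AEMeasurable g ν) {t : ℝ} (ht : 0 < t) :
    ∫⁻ x, ENNReal.ofReal (g x) ∂ν ≤ ENNReal.ofReal t * ν univ +
      ∑' j : ℕ, ENNReal.ofReal (2 ^ j * t) * ν {x | 2 ^ j * t < g x} := by
  have hind : ∀ c : ℝ, AEMeasurable (fun x => (Ioi c).indicator (1 : ℝ → ℝ≥0∞) (g x)) ν :=
    fun c => (measurable_one.indicator measurableSet_Ioi).comp_aemeasurable hg
  calc ∫⁻ x, ENNReal.ofReal (g x) ∂ν
      ≤ ∫⁻ x, (ENNReal.ofReal t + ∑' j : ℕ, ENNReal.ofReal (2 ^ j * t) *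
          (Ioi (2 ^ j * t)).indicator 1 (g x)) ∂ν := lintegral_mono fun x => layers ht
    _ = _ := by
        rw [lintegral_add_left measurable_const, lintegral_const, lintegral_tsum]
        · congr 2
          ext j
          rw [lintegral_const_mul'' _ (hind _)]
          congr 1
          have h1 : (fun x => (Ioi (2 ^ j * t)).indicator (1 : ℝ → ℝ≥0∞) (g x)) =
              {x | 2 ^ j * t < g x}.indicator 1 := by
            ext x
            by_cases h : 2 ^ j * t < g x
            · rw [indicator_of_mem (show g x ∈ Ioi (2 ^ j * t) from h),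
                indicator_of_mem (show x ∈ {x | 2 ^ j * t < g x} from h)]
              rfl
            · rw [indicator_of_notMem (show g x ∉ Ioi (2 ^ j * t) from h),
                indicator_of_notMem (show x ∉ {x | 2 ^ j * t < g x} from h)]
          rw [h1, lintegral_indicator_one₀ (nullMeasurableSet_lt aemeasurable_const hg)]
        · intro j
          exact (hind _).const_mul _

/-- The layers are controlled by the integral. -/
theorem sum_layers_le {a x : ℝ} (ha : 0 < a) {p : ℕ} (hp : 1 ≤ p) (N : ℕ) :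
    ∑ j ∈ Finset.range N, ENNReal.ofReal ((2 ^ j * a) ^ p) * (Ioi (2 ^ j * a)).indicator 1 x ≤
      2 * ENNReal.ofReal (|x| ^ p) := by
  have key : ∀ N : ℕ,
      (∑ j ∈ Finset.range N, ENNReal.ofReal ((2 ^ j * a) ^ p) * (Ioi (2 ^ j * a)).indicator 1 x ≤
        2 * ENNReal.ofReal (|x| ^ p)) ∧
      (∑ j ∈ Finset.range N, ENNReal.ofReal ((2 ^ j * a) ^ p) * (Ioi (2 ^ j * a)).indicator 1 x ≤
        ENNReal.ofReal ((2 ^ N * a) ^ p)) := by
    intro N
    induction N with
    | zero => simp
    | succ N ih =>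
      have hdouble : 2 * ENNReal.ofReal ((2 ^ N * a) ^ p) ≤ ENNReal.ofReal ((2 ^ (N + 1) * a) ^ p) := by
        have h2 : (2:ℝ≥0∞) = ENNReal.ofReal 2 := by simp
        rw [h2, ← ENNReal.ofReal_mul (by norm_num)]
        apply ENNReal.ofReal_le_ofReal
        have h3 : (2 ^ (N + 1) * a) ^ p = 2 ^ p * (2 ^ N * a) ^ p := by
          rw [pow_succ]; rw [← mul_pow]; ring
        rw [h3]
        apply mul_le_mul_of_nonneg_right _ (by positivity)
        calc (2:ℝ) = 2 ^ 1 := by norm_num
          _ ≤ 2 ^ p := pow_le_pow_right₀ (by norm_num) hp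
      rw [Finset.sum_range_succ]
      by_cases h : 2 ^ N * a < x
      · rw [indicator_of_mem (show x ∈ Ioi (2 ^ N * a) from h), Pi.one_apply, mul_one]
        have h4 : ENNReal.ofReal ((2 ^ N * a) ^ p) ≤ ENNReal.ofReal (|x| ^ p) := by
          apply ENNReal.ofReal_le_ofReal
          have : 2 ^ N * a ≤ |x| := h.le.trans (le_abs_self x)
          gcongr
        have h5 : ∑ j ∈ Finset.range N, ENNReal.ofReal ((2 ^ j * a) ^ p) *
            (Ioi (2 ^ j * a)).indicator 1 x + ENNReal.ofReal ((2 ^ N * a) ^ p) ≤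
            2 * ENNReal.ofReal ((2 ^ N * a) ^ p) := by
          rw [two_mul]; gcongr; exact ih.2
        exact ⟨h5.trans (by gcongr), h5.trans hdouble⟩
      · rw [indicator_of_notMem (show x ∉ Ioi (2 ^ N * a) from h), mul_zero, add_zero]
        refine ⟨ih.1, ih.2.trans (le_trans ?_ hdouble)⟩
        rw [two_mul]
        exact le_self_add
  exact (key N).1

theorem sum_levels_le {X : Type*} [MeasurableSpace X] (ν : Measure X) {g : X → ℝ}
    (hg : AEMeasurable g ν) {a : ℝ} (ha : 0 < a) {p : ℕ} (hp : 1 ≤ p) (N : ℕ) :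
    ∑ j ∈ Finset.range N, ENNReal.ofReal ((2 ^ j * a) ^ p) * ν {x | 2 ^ j * a < g x} ≤
      2 * ∫⁻ x, ENNReal.ofReal (|g x| ^ p) ∂ν := by
  have hind : ∀ c : ℝ, AEMeasurable (fun x => (Ioi c).indicator (1 : ℝ → ℝ≥0∞) (g x)) ν :=
    fun c => (measurable_one.indicator measurableSet_Ioi).comp_aemeasurable hg
  calc ∑ j ∈ Finset.range N, ENNReal.ofReal ((2 ^ j * a) ^ p) * ν {x | 2 ^ j * a < g x}
      = ∫⁻ x, ∑ j ∈ Finset.range N, ENNReal.ofReal ((2 ^ j * a) ^ p) *
          (Ioi (2 ^ j * a)).indicator 1 (g x) ∂ν := by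
        rw [lintegral_finsetSum' _ (fun j _ => (hind _).const_mul _)]
        apply Finset.sum_congr rfl
        intro j _
        rw [lintegral_const_mul'' _ (hind _)]
        congr 1
        have h1 : (fun x => (Ioi (2 ^ j * a)).indicator (1 : ℝ → ℝ≥0∞) (g x)) =
            {x | 2 ^ j * a < g x}.indicator 1 := by
          ext x
          by_cases h : 2 ^ j * a < g x
          · rw [indicator_of_mem (show g x ∈ Ioi (2 ^ j * a) from h),
              indicator_of_mem (show x ∈ {x | 2 ^ j * a < g x} from h)]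
            rfl
          · rw [indicator_of_notMem (show g x ∉ Ioi (2 ^ j * a) from h),
              indicator_of_notMem (show x ∉ {x | 2 ^ j * a < g x} from h)]
        rw [h1, lintegral_indicator_one₀ (nullMeasurableSet_lt aemeasurable_const hg)]
    _ ≤ ∫⁻ x, 2 * ENNReal.ofReal (|g x| ^ p) ∂ν := lintegral_mono fun x => sum_layers_le ha hp N
    _ = _ := by
        rw [lintegral_const_mul'' _ (hg.abs.pow_const p).ennreal_ofReal]

end Pool.Agent.W770.SA
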