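import Pool.Agent.W770.SA.Tests

set_option autoImplicit false

/-!
Families whose multiplicity function has a semialgebraic majorant.
-/

open MeasureTheory Set Filter Topology ENNReal NNReal Metric

namespace Pool.Agent.W770.SA

variable {n : ℕ}

theorem enorm_abs_rpow (x : ℝ) {r : ℝ} (hr : 0 ≤ r) : ‖|x| ^ r‖ₑ = ‖x‖ₑ ^ r := by
  rw [← ofReal_norm, ← ofReal_norm, Real.norm_eq_abs, Real.norm_eq_abs,
    abs_of_nonneg (Real.rpow_nonneg (abs_nonneg x) r), ENNReal.ofReal_rpow_of_nonneg (abs_nonneg x) hr]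

theorem SemialgAE.rpow {D : ℕ} {g : EuclideanSpace ℝ (Fin n) → ℝ} (hg : SemialgAE D g) {r : ℝ} (hr : 0 < r) :
    SemialgAE D (fun y => |g y| ^ r) := by
  intro s hs
  obtain ⟨A, hA, hAs⟩ := hg (s ^ (1 / r)) (by positivity)
  refine ⟨A, hA, ?_⟩
  have h1 : {y | s < |(|g y| ^ r)|} = {y | s ^ (1 / r) < |g y|} := by
    ext y
    simp only [mem_ofPred_eq]
    rw [abs_of_nonneg (Real.rpow_nonneg (abs_nonneg (g y)) r)]
    have h2 : s = (s ^ (1 / r)) ^ r := by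
      rw [← Real.rpow_mul hs.le, one_div, inv_mul_cancel₀ hr.ne', Real.rpow_one]
    nth_rewrite 1 [h2]
    rw [Real.rpow_lt_rpow_iff (by positivity) (abs_nonneg _) hr]
  rw [h1]
  exact hAs

theorem lintegral_mult_rpow_lt_top (δ : ℝ) {ι : Type} [Fintype ι] (e a : ι → EuclideanSpace ℝ (Fin n))
    (he : ∀ i, ‖e i‖ = 1) {q : ℝ} (hq : 1 ≤ q) : ∫⁻ y, ‖mult δ e a y‖ₑ ^ q < ∞ := by
  have h1 : ∀ y, ‖mult δ e a y‖ₑ ^ q ≤ ENNReal.ofReal (Fintype.card ι) ^ (q - 1) * ENNReal.ofReal (mult δ e a y) := by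
    intro y
    have h2 : ‖mult δ e a y‖ₑ = ENNReal.ofReal (mult δ e a y) := by
      rw [← ofReal_norm, Real.norm_eq_abs, abs_of_nonneg (mult_nonneg δ e a y)]
    have h3 : q = (q - 1) + 1 := by ring
    rw [h2]
    nth_rewrite 1 [h3]
    rw [ENNReal.rpow_add_of_nonneg _ _ (by linarith) (by norm_num), ENNReal.rpow_one]
    have h4 : 0 ≤ q - 1 := by linarith
    gcongr
    exact mult_le δ e a y
  have h5 : ∫⁻ y, ENNReal.ofReal (mult δ e a y) < ∞ := by
    have h6 := lintegral_multMeas δ e a (g := fun _ => 1) aemeasurable_const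
    simp only [one_mul] at h6
    rw [← h6, lintegral_one]
    unfold multMeas
    rw [Measure.finsetSum_apply]
    refine ENNReal.sum_lt_top.2 fun i _ => ?_
    rw [Measure.restrict_apply_univ]
    have : tube δ (e i) (a i) ⊆ closedBall (a i) (1 / 2 + δ) := by
      rintro y ⟨h1, h2⟩
      rw [mem_closedBall, dist_eq_norm]
      calc ‖y - a i‖ = ‖(inner ℝ (y - a i) (e i) : ℝ) • (e i) + ((y - a i) - (inner ℝ (y - a i) (e i) : ℝ) • (e i))‖ := by
            congr 1; abel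
        _ ≤ ‖(inner ℝ (y - a i) (e i) : ℝ) • (e i)‖ + ‖(y - a i) - (inner ℝ (y - a i) (e i) : ℝ) • (e i)‖ :=
            norm_add_le _ _
        _ ≤ 1 / 2 + δ := by
            rw [norm_smul, he, mul_one, Real.norm_eq_abs]
            linarith
    exact (measure_mono this).trans_lt measure_closedBall_lt_top
  calc ∫⁻ y, ‖mult δ e a y‖ₑ ^ q ≤ ∫⁻ y, ENNReal.ofReal (Fintype.card ι) ^ (q - 1) * ENNReal.ofReal (mult δ e a y) :=
        lintegral_mono h1
    _ = ENNReal.ofReal (Fintype.card ι) ^ (q - 1) * ∫⁻ y, ENNReal.ofReal (mult δ e a y) :=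
        lintegral_const_mul _ (measurable_mult δ e a).ennreal_ofReal
    _ < ∞ := ENNReal.mul_lt_top (ENNReal.rpow_lt_top_of_nonneg (by linarith) ENNReal.ofReal_ne_top) h5

/-- **Families with a semialgebraic majorant.** -/
theorem majorant (m : ℕ) (hm : 1 ≤ m) {q : ℝ} (hq : ((m:ℝ) + 1) / m < q) : ∃ C : ℝ, 0 < C ∧
    ∀ (D : ℕ) (δ K : ℝ) (ι : Type) [Fintype ι] (e a : ι → EuclideanSpace ℝ (Fin (m + 1)))
      (g : EuclideanSpace ℝ (Fin (m + 1)) → ℝ), 1 ≤ D → 0 < δ → δ ≤ 1 → (∀ i, ‖e i‖ = 1) →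
      (∀ i j, i ≠ j → δ ≤ ‖e i - e j‖) → AEMeasurable g volume → SemialgAE D g → 0 ≤ K →
      (∀ᵐ y, mult δ e a y ≤ |g y|) →
      eLpNorm g (ENNReal.ofReal q) volume ≤ ENNReal.ofReal K * eLpNorm (mult δ e a) (ENNReal.ofReal q) volume →
      eLpNorm (mult δ e a) (ENNReal.ofReal q) volume ≤
        ENNReal.ofReal (C * K ^ (q - 1) * (D:ℝ) ^ ((exp1 (m + 1) : ℝ) / (q * m)) * δ ^ ((m:ℝ) / q) *
          (Fintype.card ι : ℝ) ^ (1 - 1 / (q * m))) := by
  obtain ⟨C, hC, htest⟩ := tests m hm hq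
  have hm0 : (0:ℝ) < m := by exact_mod_cast hm
  have hq1 : 1 < q := by
    refine lt_of_le_of_lt ?_ hq
    rw [le_div_iff₀ hm0]; linarith
  have hq0 : 0 < q := by linarith
  have hq10 : 0 < q - 1 := by linarith
  refine ⟨C, hC, ?_⟩
  intro D δ K ι _ e a g hD hδ hδ1 he hsep hgm hg hK hmaj hnorm
  have hD0 : (0:ℝ) < D := by exact_mod_cast hD
  have hqne : ENNReal.ofReal q ≠ 0 := by rw [Ne, ENNReal.ofReal_eq_zero, not_le]; exact hq0
  rw [eLpNorm_eq_lintegral_rpow_enorm_toReal hqne ENNReal.ofReal_ne_top,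
    eLpNorm_eq_lintegral_rpow_enorm_toReal hqne ENNReal.ofReal_ne_top, ENNReal.toReal_ofReal hq0.le] at hnorm
  rw [eLpNorm_eq_lintegral_rpow_enorm_toReal hqne ENNReal.ofReal_ne_top, ENNReal.toReal_ofReal hq0.le]
  set I := ∫⁻ y, ‖mult δ e a y‖ₑ ^ q with hI
  have hItop : I < ∞ := lintegral_mult_rpow_lt_top δ e a he hq1.le
  set J := ∫⁻ y, ‖g y‖ₑ ^ q with hJ
  set K0 : ℝ := C * (D:ℝ) ^ ((exp1 (m + 1) : ℝ) / (q * m)) * δ ^ ((m:ℝ) / q) *
          (Fintype.card ι : ℝ) ^ (1 - 1 / (q * m)) with hK0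
  have hK00 : 0 ≤ K0 := by positivity
  have h1 := htest D δ ι e a (fun y => |g y| ^ (q - 1)) hD hδ hδ1 he hsep
    ((hgm.abs).pow_const _) (hg.rpow hq10)
  simp only [enorm_abs_rpow _ hq10.le] at h1
  have h2 : ∀ y, (‖g y‖ₑ ^ (q - 1)) ^ (q / (q - 1)) = ‖g y‖ₑ ^ q := by
    intro y
    rw [← ENNReal.rpow_mul]
    congr 1
    field_simp
  simp only [h2] at h1
  rw [← hJ, ← hK0] at h1
  have h3 : I ≤ ∫⁻ y, ‖g y‖ₑ ^ (q - 1) * ENNReal.ofReal (mult δ e a y) := by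
    apply lintegral_mono_ae
    filter_upwards [hmaj] with y hy
    have h4 : ‖mult δ e a y‖ₑ = ENNReal.ofReal (mult δ e a y) := by
      rw [← ofReal_norm, Real.norm_eq_abs, abs_of_nonneg (mult_nonneg δ e a y)]
    have h5 : ENNReal.ofReal (mult δ e a y) ≤ ‖g y‖ₑ := by
      rw [← ofReal_norm, Real.norm_eq_abs]
      exact ENNReal.ofReal_le_ofReal hy
    have h6 : q = (q - 1) + 1 := by ring
    rw [h4]
    nth_rewrite 1 [h6]
    rw [ENNReal.rpow_add_of_nonneg _ _ hq10.le (by norm_num), ENNReal.rpow_one]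
    gcongr
  have h7 : J ^ ((q - 1) / q) ≤ ENNReal.ofReal (K ^ (q - 1)) * I ^ ((q - 1) / q) := by
    have e1 : (q - 1) / q = (1 / q) * (q - 1) := by ring
    rw [e1, ENNReal.rpow_mul, ENNReal.rpow_mul, ← ENNReal.ofReal_rpow_of_nonneg hK hq10.le,
      ← ENNReal.mul_rpow_of_nonneg _ _ hq10.le]
    gcongr
  have h8 : I ≤ ENNReal.ofReal (K0 * K ^ (q - 1)) * I ^ ((q - 1) / q) := by
    calc I ≤ ENNReal.ofReal K0 * J ^ ((q - 1) / q) := h3.trans h1
      _ ≤ ENNReal.ofReal K0 * (ENNReal.ofReal (K ^ (q - 1)) * I ^ ((q - 1) / q)) := by gcongr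
      _ = _ := by rw [← mul_assoc, ← ENNReal.ofReal_mul hK00]
  have h9 : I ^ (1 / q) ≤ ENNReal.ofReal (K0 * K ^ (q - 1)) := by
    rcases eq_or_ne I 0 with hz | hz
    · rw [hz, ENNReal.zero_rpow_of_pos (by positivity)]; exact zero_le
    · have h10 : I = I ^ (1 / q) * I ^ ((q - 1) / q) := by
        rw [← ENNReal.rpow_add _ _ hz hItop.ne]
        have : 1 / q + (q - 1) / q = 1 := by field_simp; ring
        rw [this, ENNReal.rpow_one]
      have h11 : I ^ ((q - 1) / q) ≠ 0 := by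
        rw [Ne, ENNReal.rpow_eq_zero_iff]
        push Not
        exact ⟨fun h => absurd h hz, fun h => absurd h hItop.ne⟩
      have h12 : I ^ ((q - 1) / q) ≠ ∞ := (ENNReal.rpow_lt_top_of_nonneg (by positivity) hItop.ne).ne
      rw [← ENNReal.mul_le_mul_iff_left h11 h12, ← h10]
      exact h8
  refine h9.trans (le_of_eq ?_)
  congr 1
  rw [hK0]; ring

end Pool.Agent.W770.SA
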