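import Pool.Agent.W770.SA.Covers2

set_option autoImplicit false

/-!
Minkowski dimension of Kakeya sets with outer semialgebraic approximations of small complexity.
-/

open MeasureTheory Set Filter Topology ENNReal NNReal Metric

namespace Pool.Agent.W770.SA

variable {n : ℕ}

theorem sig_univ_ne_zero (hn : 1 ≤ n) : sig n univ ≠ 0 := by
  haveI : Nontrivial (EuclideanSpace ℝ (Fin n)) := by
    haveI : Nonempty (Fin n) := ⟨⟨0, hn⟩⟩
    infer_instance
  unfold sig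
  rw [Measure.toSphere_apply_univ]
  have h1 : 0 < volume (ball (0 : EuclideanSpace ℝ (Fin n)) 1) := measure_ball_pos _ _ one_pos
  have h2 : (Module.finrank ℝ (EuclideanSpace ℝ (Fin n)) : ℝ≥0∞) ≠ 0 := by
    rw [finrank_euclideanSpace_fin]
    exact_mod_cast (by omega : n ≠ 0)
  exact mul_ne_zero h2 h1.ne'

/-- Minkowski lower bound. -/
theorem mink (hn : 1 ≤ n) {K : Set (EuclideanSpace ℝ (Fin n))}
    (hK : ∀ e : sphere (0 : (EuclideanSpace ℝ (Fin n))) 1, ∃ a : (EuclideanSpace ℝ (Fin n)),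
      ∀ t ∈ Icc (0:ℝ) 1, a + t • (e : (EuclideanSpace ℝ (Fin n))) ∈ K)
    {γ : ℝ} (hγ : 0 ≤ γ)
    (hA : ∃ δ₀ : ℝ, 0 < δ₀ ∧ ∀ δ : ℝ, 0 < δ → δ < δ₀ →
      ∃ (D : ℕ) (A : Set (EuclideanSpace ℝ (Fin n))), 1 ≤ D ∧ (D:ℝ) ≤ δ ^ (-γ) ∧
        ComplexityLE D A ∧ K ⊆ A ∧
        volume A ≤ ENNReal.ofReal (δ ^ (-γ)) * volume (thickening δ K)) :
    ∃ c' : ℝ, 0 < c' ∧ ∀ δ : ℝ, 0 < δ → δ < 1 →
      ENNReal.ofReal (c' * δ ^ (((exp1 n : ℝ) + 1) * γ)) ≤ volume (thickening δ K) := by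
  obtain ⟨δ₀, hδ₀, hA⟩ := hA
  set κ : ℝ := ((exp1 n : ℝ) + 1) * γ with hκ
  have hκ0 : 0 ≤ κ := by positivity
  have hC := cst1_pos hn
  set C := cst1 n with hCdef
  haveI : IsFiniteMeasure (sig n) := by unfold sig; infer_instance
  set σ : ℝ := (sig n univ).toReal with hσ
  have hσpos : 0 < σ := ENNReal.toReal_pos (sig_univ_ne_zero hn) (measure_ne_top _ _)
  have hσeq : sig n univ = ENNReal.ofReal σ := (ENNReal.ofReal_toReal (measure_ne_top _ _)).symm
  have hK1 : ∀ e ∈ (univ : Set (sphere (0 : (EuclideanSpace ℝ (Fin n))) 1)),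
      ∃ z : (EuclideanSpace ℝ (Fin n)), ENNReal.ofReal 1 ≤
      volume {s : ℝ | s ∈ Icc (0:ℝ) 1 ∧ z + s • (e : (EuclideanSpace ℝ (Fin n))) ∈ K} := by
    intro e _
    obtain ⟨a, ha⟩ := hK e
    refine ⟨a, ?_⟩
    have : {s : ℝ | s ∈ Icc (0:ℝ) 1 ∧ a + s • (e : (EuclideanSpace ℝ (Fin n))) ∈ K} = Icc (0:ℝ) 1 := by
      ext s
      exact ⟨fun h => h.1, fun h => ⟨h, ha s h⟩⟩
    rw [this, Real.volume_Icc]
    simp
  -- small `δ`
  have small : ∀ δ : ℝ, 0 < δ → δ < δ₀ → ENNReal.ofReal (σ / C * δ ^ κ) ≤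
      volume (thickening δ K) := by
    intro δ hδ hδ1
    obtain ⟨D, A, hD, hDle, hDA, hKA, hvol⟩ := hA δ hδ hδ1
    have h1 := one_set hn one_pos hK1 hD hDA hKA
    rw [one_pow, ENNReal.ofReal_one, one_mul, hσeq] at h1
    have hpow : (D:ℝ) ^ (exp1 n) ≤ (δ ^ (-γ)) ^ (exp1 n) := by gcongr
    have h2 : ENNReal.ofReal σ ≤ ENNReal.ofReal (C * δ ^ (-κ)) * volume (thickening δ K) := by
      calc ENNReal.ofReal σ ≤ ENNReal.ofReal (C * (D:ℝ) ^ (exp1 n)) * volume A := h1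
        _ ≤ ENNReal.ofReal (C * (δ ^ (-γ)) ^ (exp1 n)) *
            (ENNReal.ofReal (δ ^ (-γ)) * volume (thickening δ K)) := by
            gcongr
        _ = ENNReal.ofReal (C * (δ ^ (-γ)) ^ (exp1 n) * δ ^ (-γ)) * volume (thickening δ K) := by
            rw [← mul_assoc, ← ENNReal.ofReal_mul (by positivity)]
        _ = _ := by
            congr 2
            rw [mul_assoc, ← Real.rpow_natCast, ← Real.rpow_mul hδ.le, ← Real.rpow_add hδ]
            congr 2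
            rw [hκ]; ring
    calc ENNReal.ofReal (σ / C * δ ^ κ) = ENNReal.ofReal (δ ^ κ / C) * ENNReal.ofReal σ := by
          rw [← ENNReal.ofReal_mul (by positivity)]
          congr 1
          ring
      _ ≤ ENNReal.ofReal (δ ^ κ / C) *
          (ENNReal.ofReal (C * δ ^ (-κ)) * volume (thickening δ K)) := by gcongr
      _ = ENNReal.ofReal (δ ^ κ / C * (C * δ ^ (-κ))) * volume (thickening δ K) := by
          rw [← mul_assoc, ← ENNReal.ofReal_mul (by positivity)]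
      _ = volume (thickening δ K) := by
          have : δ ^ κ / C * (C * δ ^ (-κ)) = 1 := by
            rw [Real.rpow_neg hδ.le]
            have : 0 < δ ^ κ := by positivity
            field_simp
          rw [this, ENNReal.ofReal_one, one_mul]
  set δ₁ : ℝ := min (δ₀ / 2) 1 with hδ₁
  have hδ₁pos : 0 < δ₁ := by rw [hδ₁]; positivity
  have hδ₁lt : δ₁ < δ₀ := lt_of_le_of_lt (min_le_left _ _) (by linarith)
  have hδ₁le : δ₁ ≤ 1 := min_le_right _ _
  refine ⟨σ / C * δ₁ ^ κ, by positivity, ?_⟩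
  intro δ hδ hδ1
  have hδκ : δ ^ κ ≤ 1 := Real.rpow_le_one hδ.le hδ1.le hκ0
  have hδ₁κ : δ₁ ^ κ ≤ 1 := Real.rpow_le_one hδ₁pos.le hδ₁le hκ0
  have hδκ0 : 0 ≤ δ ^ κ := by positivity
  have hδ₁κ0 : 0 ≤ δ₁ ^ κ := by positivity
  have hq : 0 < σ / C := by positivity
  rcases lt_or_ge δ δ₀ with h | h
  · refine le_trans (ENNReal.ofReal_le_ofReal ?_) (small δ hδ h)
    have : σ / C * δ₁ ^ κ ≤ σ / C := by nlinarith
    nlinarith [mul_le_mul_of_nonneg_right this hδκ0]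
  · calc ENNReal.ofReal (σ / C * δ₁ ^ κ * δ ^ κ) ≤ ENNReal.ofReal (σ / C * δ₁ ^ κ) := by
          apply ENNReal.ofReal_le_ofReal
          have : 0 ≤ σ / C * δ₁ ^ κ := by positivity
          nlinarith
      _ ≤ volume (thickening δ₁ K) := small δ₁ hδ₁pos hδ₁lt
      _ ≤ volume (thickening δ K) := by
          apply measure_mono
          apply thickening_mono
          linarith

end Pool.Agent.W770.SA
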