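import Pool.Agent.W770.SA.Basic

set_option autoImplicit false

/-!
Segments in semialgebraic sets: the weak type estimate.
-/

open MeasureTheory Set Filter Topology ENNReal NNReal Metric
open scoped Pointwise

namespace Pool.Agent.W770.SA

variable {n : ℕ}

/-- `S` is a basic open semialgebraic set of degree at most `D`. -/
def BasicOpen (D : ℕ) (S : Set (EuclideanSpace ℝ (Fin n))) : Prop :=
  ∃ (m : ℕ) (P : Fin m → MvPolynomial (Fin n) ℝ), ∑ i, (P i).totalDegree ≤ D ∧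
    S = {x | ∀ i, 0 < MvPolynomial.eval (fun l => x l) (P i)}

/-- `A` is a union of at most `D` basic open semialgebraic sets of degree at most `D`. -/
def ComplexityLE (D : ℕ) (A : Set (EuclideanSpace ℝ (Fin n))) : Prop :=
  ∃ S : Fin D → Set (EuclideanSpace ℝ (Fin n)), (∀ i, BasicOpen D (S i)) ∧ A = ⋃ i, S i

/-- the largest measure of the part in `A` of a unit segment parallel to `e` -/
noncomputable def segMax (A : Set (EuclideanSpace ℝ (Fin n))) (e : (EuclideanSpace ℝ (Fin n))) : ℝ≥0∞ :=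
  ⨆ z : (EuclideanSpace ℝ (Fin n)), volume {s : ℝ | s ∈ Icc 0 1 ∧ z + s • e ∈ A}

theorem BasicOpen.isOpen {D : ℕ} {S : Set (EuclideanSpace ℝ (Fin n))} (h : BasicOpen D S) : IsOpen S := by
  obtain ⟨m, P, -, rfl⟩ := h
  exact isOpen_bas P

theorem ComplexityLE.isOpen {D : ℕ} {A : Set (EuclideanSpace ℝ (Fin n))} (h : ComplexityLE D A) : IsOpen A := by
  obtain ⟨S, hS, rfl⟩ := h
  exact isOpen_iUnion fun i => (hS i).isOpen

theorem isOpen_segMax {A : Set (EuclideanSpace ℝ (Fin n))} (hA : IsOpen A) (lam : ℝ≥0∞) :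
    IsOpen {e : (EuclideanSpace ℝ (Fin n)) | lam < segMax A e} := by
  have h1 : {e : (EuclideanSpace ℝ (Fin n)) | lam < segMax A e} =
      ⋃ z : (EuclideanSpace ℝ (Fin n)), {e : (EuclideanSpace ℝ (Fin n)) | lam < volume {s : ℝ | s ∈ Icc 0 1 ∧ z + s • e ∈ A}} := by
    ext e
    simp [segMax, lt_iSup_iff]
  rw [h1]
  refine isOpen_iUnion fun z => ?_
  rw [isOpen_iff_mem_nhds]
  intro e he
  have hm : MeasurableSet {s : ℝ | s ∈ Icc 0 1 ∧ z + s • e ∈ A} := by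
    apply MeasurableSet.inter measurableSet_Icc
    exact (hA.preimage (by fun_prop : Continuous fun s : ℝ => z + s • e)).measurableSet
  obtain ⟨K, hKs, hK, hlam⟩ := hm.exists_lt_isCompact (show lam < volume _ from he)
  have h2 : ∀ᶠ e' in 𝓝 e, ∀ s ∈ K, z + s • e' ∈ A := by
    apply hK.eventually_forall_of_forall_eventually (P := fun e' s => z + s • e' ∈ A)
    intro s hs
    have hc : Continuous (fun q : (EuclideanSpace ℝ (Fin n)) × ℝ => z + q.2 • q.1) := by fun_prop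
    exact (hA.preimage hc).mem_nhds (hKs hs).2
  filter_upwards [h2] with e' he'
  refine lt_of_lt_of_le hlam (measure_mono ?_)
  intro s hs
  exact ⟨(hKs hs).1, he' s hs⟩

/-- A long interval inside a basic open set. -/
theorem exists_interval {m : ℕ} (P : Fin m → MvPolynomial (Fin n) ℝ) {D : ℕ}
    (hD : ∑ i, (P i).totalDegree ≤ D) {lam : ℝ} (hlam : 0 < lam) (z e : (EuclideanSpace ℝ (Fin n)))
    (h : ENNReal.ofReal lam < volume {s : ℝ | s ∈ Icc 0 1 ∧ z + s • e ∈ bas P}) :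
    ∃ z' : (EuclideanSpace ℝ (Fin n)), ∀ s ∈ Icc 0 (lam / (D + 1)), z' + s • e ∈ bas P := by
  classical
  obtain ⟨Z, hZc, hZ⟩ := exists_zeros P hD z e
  set μ : ℝ := lam / (D + 1) with hμ
  have hD0 : (0:ℝ) < D + 1 := by positivity
  have hμ0 : 0 < μ := by positivity
  set T := {s : ℝ | s ∈ Icc 0 1 ∧ z + s • e ∈ bas P} with hT
  set W : Set ℝ := ⋃ r ∈ Z, Icc (r - μ) r with hW
  have hWv : volume W ≤ ENNReal.ofReal lam := by
    refine (measure_biUnion_finset_le _ _).trans ?_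
    simp only [Real.volume_Icc, _root_.sub_sub_cancel, Finset.sum_const, nsmul_eq_mul]
    rw [← ENNReal.ofReal_natCast, ← ENNReal.ofReal_mul (by positivity)]
    apply ENNReal.ofReal_le_ofReal
    have h1 : (Z.card:ℝ) ≤ D := by exact_mod_cast hZc
    have h2 : (D + 1) * μ = lam := by rw [hμ]; field_simp
    nlinarith
  obtain ⟨α, hαT, hαW⟩ : ∃ α, α ∈ T ∧ α ∉ W := by
    by_contra hno
    push Not at hno
    have : T ⊆ W := fun s hs => hno s hs
    exact absurd ((measure_mono this).trans hWv) (not_le.2 h)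
  refine ⟨z + α • e, ?_⟩
  rintro s ⟨hs0, hs1⟩ i
  by_contra hneg
  push Not at hneg
  have h1 : z + α • e + s • e = z + (α + s) • e := by rw [add_smul]; abel
  rw [h1] at hneg
  have h2 : 0 < evl (P i) (z + α • e) := hαT.2 i
  obtain ⟨r, ⟨hr1, hr2⟩, hr3⟩ := exists_zero_between (P i) z e (by linarith : α ≤ α + s) h2 hneg
  have hrZ := hZ i r hr3 ⟨α, h2.ne'⟩
  apply hαW
  rw [hW]
  refine mem_iUnion₂.2 ⟨r, hrZ, ?_, hr1⟩
  linarith

/-- the constant -/
noncomputable def cst1 (n : ℕ) : ℝ := n * 4 * (16 * n) ^ n * ((7 * n) ^ n) ^ n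

/-- the exponent -/
def exp1 (n : ℕ) : ℕ := 1 + 2 * n + 2 * (n * n)

theorem cst1_pos (hn : 1 ≤ n) : 0 < cst1 n := by
  have : (0:ℝ) < n := by exact_mod_cast hn
  unfold cst1
  positivity

theorem cst_bound (hn : 1 ≤ n) {D : ℕ} (hD : 1 ≤ D) {lam : ℝ} (hlam : 0 < lam) :
    (n:ℝ) * (D * (4 * (8 * n / (lam / D / (D + 1))) ^ n *
      (((1 + n * (2 + ((2 * D + 1) + 1) * D)) ^ n) ^ n : ℕ))) ≤
      cst1 n * (D:ℝ) ^ (exp1 n) * (1 / lam) ^ n := by
  have hn1 : (1:ℝ) ≤ n := by exact_mod_cast hn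
  have hD1 : (1:ℝ) ≤ D := by exact_mod_cast hD
  have h1 : 8 * (n:ℝ) / (lam / D / (D + 1)) = 8 * n * (D * (D + 1)) * (1 / lam) := by
    field_simp
  have h2 : 8 * (n:ℝ) * (D * (D + 1)) * (1 / lam) ≤ 16 * n * (D:ℝ) ^ 2 * (1 / lam) := by
    apply mul_le_mul_of_nonneg_right _ (by positivity)
    have : (D:ℝ) * (D + 1) ≤ 2 * (D:ℝ) ^ 2 := by nlinarith
    nlinarith
  have h3 : (((1 + n * (2 + ((2 * D + 1) + 1) * D)) ^ n) ^ n : ℕ) ≤
      (((7 * n) * D ^ 2) ^ n) ^ n := by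
    apply Nat.pow_le_pow_left
    apply Nat.pow_le_pow_left
    have h4 : 2 + ((2 * D + 1) + 1) * D ≤ 6 * D ^ 2 := by nlinarith
    have h5 : 1 ≤ n * D ^ 2 := Nat.one_le_iff_ne_zero.2 (by positivity)
    calc 1 + n * (2 + ((2 * D + 1) + 1) * D) ≤ n * D ^ 2 + n * (6 * D ^ 2) := by gcongr
      _ = 7 * n * D ^ 2 := by ring
  have h3' : ((((1 + n * (2 + ((2 * D + 1) + 1) * D)) ^ n) ^ n : ℕ) : ℝ) ≤
      (((7 * n) * (D:ℝ) ^ 2) ^ n) ^ n := by exact_mod_cast h3
  rw [h1]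
  calc (n:ℝ) * (D * (4 * (8 * n * (D * (D + 1)) * (1 / lam)) ^ n *
      (((1 + n * (2 + ((2 * D + 1) + 1) * D)) ^ n) ^ n : ℕ)))
      ≤ n * (D * (4 * (16 * n * (D:ℝ) ^ 2 * (1 / lam)) ^ n *
        (((7 * n) * (D:ℝ) ^ 2) ^ n) ^ n)) := by gcongr
    _ = cst1 n * (D:ℝ) ^ (exp1 n) * (1 / lam) ^ n := by
        unfold cst1 exp1
        simp only [mul_pow, pow_add, ← pow_mul]
        ring

/-- **The weak type estimate.** -/
theorem weak (hn : 1 ≤ n) {D : ℕ} (hD : 1 ≤ D) {A : Set (EuclideanSpace ℝ (Fin n))} (hA : ComplexityLE D A) {lam : ℝ}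
    (hlam : 0 < lam) :
    (volume : Measure (EuclideanSpace ℝ (Fin n))).toSphere {e | ENNReal.ofReal lam < segMax A (e : (EuclideanSpace ℝ (Fin n)))} ≤
      ENNReal.ofReal (cst1 n * (D:ℝ) ^ (exp1 n) * (1 / lam) ^ n) * volume A := by
  have hAo := hA.isOpen
  obtain ⟨S, hS, hAS⟩ := hA
  choose m P hP hSP using hS
  have hD0 : (0:ℝ) < D := by exact_mod_cast hD
  set M : ℕ := 2 * D + 1 with hM
  have hM0 : (0:ℝ) < M := by rw [hM]; positivity
  set μ : ℝ := lam / D / (D + 1) with hμ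
  have hμ0 : 0 < μ := by positivity
  have hΩ : IsOpen {e : sphere (0:(EuclideanSpace ℝ (Fin n))) 1 | ENNReal.ofReal lam < segMax A (e : (EuclideanSpace ℝ (Fin n)))} :=
    (isOpen_segMax hAo _).preimage continuous_subtype_val
  rw [Measure.toSphere_apply' _ hΩ.measurableSet, finrank_euclideanSpace_fin]
  have hcone : Ioo (0:ℝ) 1 • ((↑) '' {e : sphere (0:(EuclideanSpace ℝ (Fin n))) 1 | ENNReal.ofReal lam < segMax A (e : (EuclideanSpace ℝ (Fin n)))})
      ⊆ ⋃ i : Fin D, {x : (EuclideanSpace ℝ (Fin n)) | ∃ z, ∀ j ≤ M, z + ((j:ℝ) * (μ / M)) • x ∈ bas (P i)} := by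
    rintro _ ⟨r, hr, _, ⟨e, he, rfl⟩, rfl⟩
    simp only
    obtain ⟨z, hz⟩ := lt_iSup_iff.1 (show ENNReal.ofReal lam < segMax A (e : (EuclideanSpace ℝ (Fin n))) from he)
    have h1 : ∃ i, ENNReal.ofReal (lam / D) <
        volume {s : ℝ | s ∈ Icc 0 1 ∧ z + s • (e : (EuclideanSpace ℝ (Fin n))) ∈ S i} := by
      by_contra hno
      push Not at hno
      apply absurd hz
      rw [not_lt]
      have h2 : {s : ℝ | s ∈ Icc 0 1 ∧ z + s • (e : (EuclideanSpace ℝ (Fin n))) ∈ A} ⊆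
          ⋃ i, {s : ℝ | s ∈ Icc 0 1 ∧ z + s • (e : (EuclideanSpace ℝ (Fin n))) ∈ S i} := by
        rintro s ⟨hs1, hs2⟩
        rw [hAS] at hs2
        obtain ⟨i, hi⟩ := mem_iUnion.1 hs2
        exact mem_iUnion.2 ⟨i, hs1, hi⟩
      calc volume {s : ℝ | s ∈ Icc 0 1 ∧ z + s • (e : (EuclideanSpace ℝ (Fin n))) ∈ A}
          ≤ ∑ i, volume {s : ℝ | s ∈ Icc 0 1 ∧ z + s • (e : (EuclideanSpace ℝ (Fin n))) ∈ S i} :=
            (measure_mono h2).trans (measure_iUnion_fintype_le _ _)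
        _ ≤ ∑ _i : Fin D, ENNReal.ofReal (lam / D) := Finset.sum_le_sum fun i _ => hno i
        _ = ENNReal.ofReal lam := by
            rw [Finset.sum_const, Finset.card_univ, Fintype.card_fin, nsmul_eq_mul,
              ← ENNReal.ofReal_natCast, ← ENNReal.ofReal_mul (by positivity)]
            congr 1
            field_simp
    obtain ⟨i, hi⟩ := h1
    have h3 : S i = bas (P i) := hSP i
    rw [h3] at hi
    obtain ⟨z', hz'⟩ := exists_interval (P i) (hP i) (by positivity) z (e : (EuclideanSpace ℝ (Fin n))) hi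
    refine mem_iUnion.2 ⟨i, z', ?_⟩
    intro j hj
    have h4 : z' + ((j:ℝ) * (μ / M)) • (r • (e : (EuclideanSpace ℝ (Fin n)))) = z' + ((j:ℝ) * (μ / M) * r) • (e : (EuclideanSpace ℝ (Fin n))) := by
      rw [smul_smul]
    show z' + ((j:ℝ) * (μ / M)) • (r • (e : (EuclideanSpace ℝ (Fin n)))) ∈ bas (P i)
    rw [h4]
    apply hz'
    have hr0 : 0 < r := hr.1
    have hr1 : r < 1 := hr.2
    have hj' : (j:ℝ) ≤ M := by exact_mod_cast hj
    refine ⟨by positivity, ?_⟩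
    calc (j:ℝ) * (μ / M) * r ≤ M * (μ / M) * 1 := by gcongr
      _ = μ := by field_simp
  have hbas : ∀ i : Fin D, volume {x : (EuclideanSpace ℝ (Fin n)) | ∃ z, ∀ j ≤ M, z + ((j:ℝ) * (μ / M)) • x ∈ bas (P i)}
      ≤ ENNReal.ofReal (4 * (8 * n / μ) ^ n *
        (((1 + n * (2 + (M + 1) * D)) ^ n) ^ n : ℕ)) * volume A := by
    intro i
    refine (basic hn (P i) (hP i) (by omega) (by omega) hμ0).trans ?_
    rw [ENNReal.ofReal_mul (p := 4 * (8 * (n:ℝ) / μ) ^ n) (by positivity), mul_assoc,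
      ENNReal.ofReal_natCast]
    gcongr
    rw [hAS]
    have h3 : S i = bas (P i) := hSP i
    rw [← h3]
    exact subset_iUnion S i
  calc (n:ℝ≥0∞) * volume (Ioo (0:ℝ) 1 •
        (Subtype.val '' {e : sphere (0:(EuclideanSpace ℝ (Fin n))) 1 | ENNReal.ofReal lam < segMax A (e : (EuclideanSpace ℝ (Fin n)))}))
      ≤ n * ∑ i : Fin D, volume {x : (EuclideanSpace ℝ (Fin n)) | ∃ z, ∀ j ≤ M, z + ((j:ℝ) * (μ / M)) • x ∈ bas (P i)} := by
        gcongr
        exact (measure_mono hcone).trans (measure_iUnion_fintype_le _ _)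
    _ ≤ n * ∑ _i : Fin D, ENNReal.ofReal (4 * (8 * n / μ) ^ n *
        (((1 + n * (2 + (M + 1) * D)) ^ n) ^ n : ℕ)) * volume A := by
        gcongr with i _
        exact hbas i
    _ = ENNReal.ofReal (n * (D * (4 * (8 * n / μ) ^ n *
        (((1 + n * (2 + (M + 1) * D)) ^ n) ^ n : ℕ)))) * volume A := by
        rw [Finset.sum_const, Finset.card_univ, Fintype.card_fin, nsmul_eq_mul,
          ENNReal.ofReal_mul (p := (n:ℝ)) (by positivity),
          ENNReal.ofReal_mul (p := (D:ℝ)) (by positivity), ENNReal.ofReal_natCast,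
          ENNReal.ofReal_natCast]
        ring
    _ ≤ _ := mul_le_mul_left (ENNReal.ofReal_le_ofReal (cst_bound hn hD hlam)) _

end Pool.Agent.W770.SA
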