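import Pool.Agent.W770.SA.Gen
import Pool.Agent.H805R3.Kk.Over

set_option autoImplicit false

/-!
Selection of non-degenerate solutions, Lipschitz on countably many pieces.
-/

open MeasureTheory Set Filter Topology ENNReal NNReal Metric

namespace Pool.Agent.W770.SA

open Pool.Agent.H803R2.KakFTO Pool.Agent.H805R3.Kk

variable {n : ℕ}

theorem selection {G : (EuclideanSpace ℝ (Fin n)) × (EuclideanSpace ℝ (Fin n)) → (EuclideanSpace ℝ (Fin n))} (hG : ContDiff ℝ 1 G) {U : Set ((EuclideanSpace ℝ (Fin n)) × (EuclideanSpace ℝ (Fin n)))} (hU : IsOpen U)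
    (ℓ : (EuclideanSpace ℝ (Fin n))) :
    ∃ (B : Set (EuclideanSpace ℝ (Fin n))) (a : (EuclideanSpace ℝ (Fin n)) → (EuclideanSpace ℝ (Fin n))), MeasurableSet B ∧ LipPieces B a ∧
      (∀ x ∈ B, (x, a x) ∈ U ∧ G (x, a x) = ℓ) ∧
      ∀ x z, (x, z) ∈ U → G (x, z) = ℓ → (dz G (x, z)).det ≠ 0 → x ∈ B := by
  classical
  set C : Set ((EuclideanSpace ℝ (Fin n)) × (EuclideanSpace ℝ (Fin n))) := {p | p ∈ U ∧ G p = ℓ ∧ (dz G p).det ≠ 0} with hC
  rcases C.eq_empty_or_nonempty with hCe | hCne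
  · refine ⟨∅, fun _ => 0, MeasurableSet.empty, ⟨fun _ => ∅, fun _ => MeasurableSet.empty, by simp,
      fun _ => ⟨0, by simp⟩⟩, by simp, ?_⟩
    intro x z h1 h2 h3
    have : (x, z) ∈ C := ⟨h1, h2, h3⟩
    rw [hCe] at this
    exact absurd this (notMem_empty _)
  have hloc : ∀ p : (EuclideanSpace ℝ (Fin n)) × (EuclideanSpace ℝ (Fin n)), ∃ K : ℝ≥0, ∃ r > 0, p ∈ C → ∀ q ∈ closedBall p r,
      ∀ q' ∈ closedBall p r, G q = G q' → dist q.2 q'.2 ≤ K * dist q.1 q'.1 := by
    intro p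
    by_cases hp : p ∈ C
    · obtain ⟨K, r, hr, h⟩ := local_lip hG p hp.2.2
      exact ⟨K, r, hr, fun _ => h⟩
    · exact ⟨0, 1, one_pos, fun h => absurd h hp⟩
  choose K r hr hK using hloc
  obtain ⟨t, htC, htc, hcov⟩ := TopologicalSpace.countable_cover_nhdsWithin (s := C)
    (f := fun p => closedBall p (r p))
    (fun p _ => mem_nhdsWithin_of_mem_nhds (closedBall_mem_nhds p (hr p)))
  have htne : t.Nonempty := by
    obtain ⟨p, hp⟩ := hCne
    obtain ⟨q, hq, _⟩ := mem_iUnion₂.1 (hcov hp)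
    exact ⟨q, hq⟩
  obtain ⟨c, hc⟩ := htc.exists_eq_range htne
  set O : ℕ → Set ((EuclideanSpace ℝ (Fin n)) × (EuclideanSpace ℝ (Fin n))) := fun k => closedBall (c k) (r (c k)) with hO
  have hcC : ∀ k, c k ∈ C := fun k => htC (hc ▸ mem_range_self k)
  have hcovO : ∀ p ∈ C, ∃ k, p ∈ O k := by
    intro p hp
    obtain ⟨q, hq, hpq⟩ := mem_iUnion₂.1 (hcov hp)
    rw [hc] at hq
    obtain ⟨k, rfl⟩ := hq
    exact ⟨k, hpq⟩
  set D : ℕ → Set (EuclideanSpace ℝ (Fin n)) := fun k => Prod.fst '' (C ∩ O k) with hD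
  have hDm : ∀ k, MeasurableSet (D k) := by
    intro k
    apply measurableSet_of_sigmaCompact
    apply IsSigmaCompact.image continuous_fst
    have : C ∩ O k = (U ∩ {p | (dz G p).det ≠ 0}) ∩ ({p | G p = ℓ} ∩ O k) := by
      ext p
      simp only [hC, mem_inter_iff, mem_ofPred_eq]
      tauto
    rw [this]
    apply sigmaCompact_of_open_inter_closed
    · exact hU.inter (isOpen_ne_fun (continuous_det_dz hG) continuous_const)
    · exact (isClosed_eq hG.continuous continuous_const).inter isClosed_closedBall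
  have hsel : ∀ k x, x ∈ D k → ∃ z, (x, z) ∈ C ∩ O k := by
    rintro k x ⟨p, hp, rfl⟩
    exact ⟨p.2, hp⟩
  choose! ζ hζ using hsel
  set B : Set (EuclideanSpace ℝ (Fin n)) := ⋃ k, D k with hB
  have hBe : ∀ x ∈ B, ∃ k, x ∈ D k := fun x hx => mem_iUnion.1 hx
  set a : (EuclideanSpace ℝ (Fin n)) → (EuclideanSpace ℝ (Fin n)) := fun x => if h : ∃ k, x ∈ D k then ζ (Nat.find h) x else 0 with ha
  have haC : ∀ x ∈ B, (x, a x) ∈ C := by
    intro x hx
    have h := hBe x hx
    have : a x = ζ (Nat.find h) x := by simp only [ha, dif_pos h]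
    rw [this]
    exact (hζ _ x (Nat.find_spec h)).1
  refine ⟨B, a, MeasurableSet.iUnion hDm, ?_, fun x hx => ⟨(haC x hx).1, (haC x hx).2.1⟩, ?_⟩
  · refine ⟨fun k => D k \ ⋃ i ∈ Finset.range k, D i, fun k => (hDm k).diff
      (Finset.measurableSet_biUnion _ fun i _ => hDm i), ?_, ?_⟩
    · have : B \ ⋃ k, D k \ ⋃ i ∈ Finset.range k, D i = ∅ := by
        rw [sdiff_eq_empty]
        intro x hx
        have h := hBe x hx
        refine mem_iUnion.2 ⟨Nat.find h, Nat.find_spec h, ?_⟩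
        simp only [mem_iUnion, Finset.mem_range, not_exists]
        intro i hi hxi
        exact Nat.find_min h hi hxi
      rw [this, measure_empty]
    · intro k
      refine ⟨K (c k), ?_⟩
      have hfind : ∀ x ∈ D k \ ⋃ i ∈ Finset.range k, D i, a x = ζ k x := by
        rintro x ⟨hxk, hxn⟩
        have h : ∃ k, x ∈ D k := ⟨k, hxk⟩
        have h1 : a x = ζ (Nat.find h) x := by simp only [ha, dif_pos h]
        have h2 : Nat.find h = k := by
          apply le_antisymm (Nat.find_min' h hxk)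
          by_contra hlt
          push Not at hlt
          apply hxn
          simp only [mem_iUnion, Finset.mem_range]
          exact ⟨Nat.find h, hlt, Nat.find_spec h⟩
        rw [h1, h2]
      apply LipschitzOnWith.of_dist_le_mul
      intro x hx y hy
      rw [hfind x hx, hfind y hy]
      have hx1 := hζ k x hx.1
      have hy1 := hζ k y hy.1
      have h5 : G (x, ζ k x) = G (y, ζ k y) := by
        rw [hx1.1.2.1, hy1.1.2.1]
      have h6 := hK (c k) (hcC k) (x, ζ k x) hx1.2 (y, ζ k y) hy1.2 h5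
      simpa using h6
  · intro x z h1 h2 h3
    obtain ⟨k, hk⟩ := hcovO (x, z) ⟨h1, h2, h3⟩
    exact mem_iUnion.2 ⟨k, (x, z), ⟨⟨h1, h2, h3⟩, hk⟩, rfl⟩

end Pool.Agent.W770.SA
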