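import Pool.Agent.W770.SA.Crit2

set_option autoImplicit false

/-!
The estimate for exponents `p > n`, for segments (zero width).
-/

open MeasureTheory Set Filter Topology ENNReal NNReal Metric

namespace Pool.Agent.W770.SA

variable {n : ℕ}

/-- The maximal function with segments instead of tubes. -/
noncomputable def segMaxF (f : (EuclideanSpace ℝ (Fin n)) → ℝ) (e : (EuclideanSpace ℝ (Fin n))) : ℝ≥0∞ :=
  ⨆ z : (EuclideanSpace ℝ (Fin n)), ∫⁻ s in Icc (0:ℝ) 1, ‖f (z + s • e)‖ₑ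

/-- The superlevel sets of `|f|` have complexity at most `D`. -/
def Semialg (D : ℕ) (f : (EuclideanSpace ℝ (Fin n)) → ℝ) : Prop :=
  ∀ s : ℝ, 0 < s → ComplexityLE D {y | s < |f y|}

theorem Semialg.isOpen {D : ℕ} {f : (EuclideanSpace ℝ (Fin n)) → ℝ} (h : Semialg D f) (s : ℝ) :
    IsOpen {y | s < |f y|} := by
  rcases lt_trichotomy s 0 with hs | hs | hs
  · have : {y | s < |f y|} = univ := by
      ext y; simp only [mem_ofPred_eq, mem_univ, iff_true]
      exact lt_of_lt_of_le hs (abs_nonneg _)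
    rw [this]; exact isOpen_univ
  · subst hs
    have : {y | 0 < |f y|} = ⋃ k : ℕ, {y | 1 / ((k:ℝ) + 1) < |f y|} := by
      ext y
      simp only [mem_ofPred_eq, mem_iUnion]
      constructor
      · intro h0
        exact exists_nat_one_div_lt h0
      · rintro ⟨k, hk⟩
        exact lt_trans (by positivity) hk
    rw [this]
    exact isOpen_iUnion fun k => (h _ (by positivity)).isOpen
  · exact (h s hs).isOpen

theorem Semialg.measurable {D : ℕ} {f : (EuclideanSpace ℝ (Fin n)) → ℝ} (h : Semialg D f) :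
    Measurable (fun y => |f y|) :=
  measurable_of_Ioi fun s => (h.isOpen s).measurableSet

theorem enorm_eq (x : ℝ) : ‖x‖ₑ = ENNReal.ofReal |x| := by
  rw [← ofReal_norm, Real.norm_eq_abs]

theorem segMaxF_le {f : (EuclideanSpace ℝ (Fin n)) → ℝ} (hf : Measurable (fun y => |f y|)) {t : ℝ} (ht : 0 < t) (e : (EuclideanSpace ℝ (Fin n))) :
    segMaxF f e ≤ ENNReal.ofReal t +
      ∑' j : ℕ, ENNReal.ofReal (2 ^ j * t) * segMax {y | 2 ^ j * t < |f y|} e := by
  apply iSup_le
  intro z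
  have hc : Measurable (fun s : ℝ => z + s • e) := by fun_prop
  have h1 := lintegral_layers (volume.restrict (Icc (0:ℝ) 1)) (g := fun s => |f (z + s • e)|)
    (hf.comp hc).aemeasurable ht
  simp only [enorm_eq]
  refine h1.trans ?_
  rw [Measure.restrict_apply_univ, Real.volume_Icc]
  simp only [sub_zero, ENNReal.ofReal_one, mul_one]
  refine add_le_add le_rfl (ENNReal.tsum_le_tsum fun j => ?_)
  refine mul_le_mul_right ?_ _
  have hm : MeasurableSet {s : ℝ | 2 ^ j * t < |f (z + s • e)|} :=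
    measurableSet_lt measurable_const (hf.comp hc)
  rw [Measure.restrict_apply hm]
  refine le_trans (le_of_eq ?_) (le_iSup (fun z : (EuclideanSpace ℝ (Fin n)) =>
    volume {s : ℝ | s ∈ Icc 0 1 ∧ z + s • e ∈ {y | 2 ^ j * t < |f y|}}) z)
  congr 1
  ext s
  exact and_comm

theorem measurable_segMaxF {f : (EuclideanSpace ℝ (Fin n)) → ℝ} {D : ℕ} (hf : Semialg D f) : Measurable (segMaxF f) := by
  have hm := hf.measurable
  apply measurable_of_Ioi
  intro a
  apply IsOpen.measurableSet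
  have h1 : segMaxF f ⁻¹' Ioi a = ⋃ z : (EuclideanSpace ℝ (Fin n)), {e : (EuclideanSpace ℝ (Fin n)) | a < ∫⁻ s in Icc (0:ℝ) 1, ‖f (z + s • e)‖ₑ} := by
    ext e
    simp [segMaxF, lt_iSup_iff]
  rw [h1]
  refine isOpen_iUnion fun z => ?_
  have hlsc : LowerSemicontinuous (fun e : (EuclideanSpace ℝ (Fin n)) => ∫⁻ s in Icc (0:ℝ) 1, ‖f (z + s • e)‖ₑ) := by
    rw [lowerSemicontinuous_iff_le_liminf]
    intro e
    have hptw : ∀ s : ℝ, ‖f (z + s • e)‖ₑ ≤ liminf (fun e' : (EuclideanSpace ℝ (Fin n)) => ‖f (z + s • e')‖ₑ) (𝓝 e) := by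
      intro s
      have h3 : ∀ c : ℝ≥0∞, IsOpen {y | c < ‖f y‖ₑ} := by
        intro c
        rcases eq_or_ne c ∞ with rfl | hct
        · simp
        · have : {y | c < ‖f y‖ₑ} = {y | c.toReal < |f y|} := by
            ext y
            simp only [mem_ofPred_eq]
            rw [enorm_eq, ENNReal.lt_ofReal_iff_toReal_lt hct]
          rw [this]
          exact hf.isOpen _
      have h4 : LowerSemicontinuous (fun e' : (EuclideanSpace ℝ (Fin n)) => ‖f (z + s • e')‖ₑ) := by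
        rw [lowerSemicontinuous_iff_isOpen_preimage]
        intro c
        exact (h3 c).preimage (by fun_prop : Continuous fun e' : (EuclideanSpace ℝ (Fin n)) => z + s • e')
      exact (lowerSemicontinuous_iff_le_liminf.1 h4) e
    calc ∫⁻ s in Icc (0:ℝ) 1, ‖f (z + s • e)‖ₑ
        ≤ ∫⁻ s in Icc (0:ℝ) 1, liminf (fun e' : (EuclideanSpace ℝ (Fin n)) => ‖f (z + s • e')‖ₑ) (𝓝 e) :=
          lintegral_mono hptw
      _ ≤ liminf (fun e' : (EuclideanSpace ℝ (Fin n)) => ∫⁻ s in Icc (0:ℝ) 1, ‖f (z + s • e')‖ₑ) (𝓝 e) := by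
          apply lintegral_liminf_le'
          intro e'
          simp only [enorm_eq]
          exact (hm.comp (by fun_prop : Measurable fun s : ℝ => z + s • e')).ennreal_ofReal.aemeasurable
  exact hlsc.isOpen_preimage a

/-- the weak type estimate with a weight `q` -/
theorem weak_segMaxF (hn : 1 ≤ n) {D : ℕ} (hD : 1 ≤ D) {f : (EuclideanSpace ℝ (Fin n)) → ℝ} (hf : Semialg D f)
    {ρ : ℝ} (hρ : 0 < ρ) (hρ1 : ρ < 1) {lam : ℝ} (hlam : 0 < lam) :
    sig n {e | ENNReal.ofReal lam < segMaxF f (e : (EuclideanSpace ℝ (Fin n)))} ≤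
      ∑' j : ℕ, ENNReal.ofReal (cst1 n * (D:ℝ) ^ (exp1 n) *
        (1 / ((1 - ρ) * ρ ^ j / 2 ^ j)) ^ n) * volume {y | 2 ^ j * (lam / 2) < |f y|} := by
  have h1ρ : 0 < 1 - ρ := by linarith
  have hsub : {e : sphere (0:(EuclideanSpace ℝ (Fin n))) 1 | ENNReal.ofReal lam < segMaxF f (e : (EuclideanSpace ℝ (Fin n)))} ⊆
      ⋃ j : ℕ, {e : sphere (0:(EuclideanSpace ℝ (Fin n))) 1 | ENNReal.ofReal ((1 - ρ) * ρ ^ j / 2 ^ j) <
        segMax {y | 2 ^ j * (lam / 2) < |f y|} (e : (EuclideanSpace ℝ (Fin n)))} := by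
    intro e he
    by_contra hno
    simp only [mem_iUnion, mem_ofPred_eq, not_exists, not_lt] at hno
    have he' : ENNReal.ofReal lam < segMaxF f (e : (EuclideanSpace ℝ (Fin n))) := he
    apply absurd he'
    rw [not_lt]
    refine (segMaxF_le hf.measurable (t := lam / 2) (by positivity) (e : (EuclideanSpace ℝ (Fin n)))).trans ?_
    calc ENNReal.ofReal (lam / 2) + ∑' j : ℕ, ENNReal.ofReal (2 ^ j * (lam / 2)) *
          segMax {y | 2 ^ j * (lam / 2) < |f y|} (e : (EuclideanSpace ℝ (Fin n)))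
        ≤ ENNReal.ofReal (lam / 2) + ∑' j : ℕ, ENNReal.ofReal (2 ^ j * (lam / 2)) *
          ENNReal.ofReal ((1 - ρ) * ρ ^ j / 2 ^ j) := by
          refine add_le_add le_rfl (ENNReal.tsum_le_tsum fun j => ?_)
          exact mul_le_mul_right (hno j) _
      _ = ENNReal.ofReal (lam / 2) + ENNReal.ofReal (lam / 2) := by
          congr 1
          have h2 : ∀ j : ℕ, ENNReal.ofReal (2 ^ j * (lam / 2)) *
              ENNReal.ofReal ((1 - ρ) * ρ ^ j / 2 ^ j) =
              ENNReal.ofReal (lam / 2 * (1 - ρ) * ρ ^ j) := by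
            intro j
            rw [← ENNReal.ofReal_mul (by positivity)]
            congr 1
            field_simp
          simp only [h2]
          have hs : Summable (fun j : ℕ => lam / 2 * (1 - ρ) * ρ ^ j) :=
            (summable_geometric_of_lt_one hρ.le hρ1).mul_left _
          rw [← ENNReal.ofReal_tsum_of_nonneg (fun j => by positivity) hs, _root_.tsum_mul_left,
            tsum_geometric_of_lt_one hρ.le hρ1]
          congr 1
          field_simp
      _ = ENNReal.ofReal lam := by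
          rw [← ENNReal.ofReal_add (by positivity) (by positivity)]
          congr 1; ring
  calc sig n {e | ENNReal.ofReal lam < segMaxF f (e : (EuclideanSpace ℝ (Fin n)))}
      ≤ ∑' j : ℕ, sig n {e : sphere (0:(EuclideanSpace ℝ (Fin n))) 1 | ENNReal.ofReal ((1 - ρ) * ρ ^ j / 2 ^ j) <
        segMax {y | 2 ^ j * (lam / 2) < |f y|} (e : (EuclideanSpace ℝ (Fin n)))} :=
        (measure_mono hsub).trans (measure_iUnion_le _)
    _ ≤ _ := by
        refine ENNReal.tsum_le_tsum fun j => ?_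
        exact weak hn hD (hf _ (by positivity)) (by positivity)

/-- **The estimate for `p > n`.** -/
theorem strongP (hn : 1 ≤ n) {p : ℝ} (hp : (n:ℝ) < p) : ∃ C : ℝ, 0 < C ∧ ∀ (D : ℕ) (f : (EuclideanSpace ℝ (Fin n)) → ℝ),
    1 ≤ D → Semialg D f →
      ∫⁻ e, segMaxF f (e : (EuclideanSpace ℝ (Fin n))) ^ p ∂(sig n) ≤
        ENNReal.ofReal (C * (D:ℝ) ^ (exp1 n)) * ∫⁻ y, ‖f y‖ₑ ^ p := by
  have hn0 : (0:ℝ) < n := by exact_mod_cast hn
  have hp0 : 0 < p := hn0.trans hp
  set κ : ℝ := (p - n) / 2 with hκ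
  have hκ0 : 0 < κ := by rw [hκ]; linarith
  set ρ : ℝ := (2:ℝ) ^ (-(κ / n)) with hρdef
  have hρ : 0 < ρ := by positivity
  have hρ1 : ρ < 1 := Real.rpow_lt_one_of_one_lt_of_neg (by norm_num) (by
    rw [neg_lt_zero]; positivity)
  set q : ℝ := (2:ℝ) ^ (-κ) with hq
  have hq0 : 0 < q := by positivity
  have hq1 : q < 1 := Real.rpow_lt_one_of_one_lt_of_neg (by norm_num) (by
    rw [neg_lt_zero]; positivity)
  have hρn : ρ ^ n = q := by
    rw [hρdef, hq, ← Real.rpow_natCast, ← Real.rpow_mul (by norm_num)]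
    congr 1
    field_simp
  have h1ρ : 0 < 1 - ρ := by linarith
  have hcst := cst1_pos hn
  -- the identity for the weights
  have hw : ∀ j : ℕ, (1 / ((1 - ρ) * ρ ^ j / 2 ^ j)) ^ n * ((2:ℝ) / 2 ^ j) ^ p =
      (1 / (1 - ρ)) ^ n * 2 ^ p * q ^ j := by
    intro j
    have h1 : (1 / ((1 - ρ) * ρ ^ j / 2 ^ j)) ^ n = (1 / (1 - ρ)) ^ n * (1 / q ^ j) *
        ((2:ℝ) ^ j) ^ (n:ℝ) := by
      rw [Real.rpow_natCast, ← hρn, ← pow_mul, mul_comm n j, pow_mul]
      have : (1 / ((1 - ρ) * ρ ^ j / 2 ^ j)) = (1 / (1 - ρ)) * (1 / ρ ^ j) * 2 ^ j := by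
        field_simp
      rw [this, mul_pow, mul_pow, div_pow 1 (ρ ^ j), one_pow]
    have h2 : ((2:ℝ) / 2 ^ j) ^ p = 2 ^ p / ((2:ℝ) ^ j) ^ p :=
      Real.div_rpow (by norm_num) (by positivity) p
    have h3 : ((2:ℝ) ^ j) ^ (n:ℝ) / ((2:ℝ) ^ j) ^ p = q ^ j * q ^ j := by
      rw [← Real.rpow_sub (by positivity)]
      have h4 : (n:ℝ) - p = -κ + -κ := by rw [hκ]; ring
      rw [h4, Real.rpow_add (by positivity)]
      have h5 : ((2:ℝ) ^ j) ^ (-κ) = q ^ j := by
        rw [hq, ← Real.rpow_natCast, ← Real.rpow_natCast, ← Real.rpow_mul (by norm_num),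
          ← Real.rpow_mul (by norm_num), mul_comm]
      rw [h5]
    calc (1 / ((1 - ρ) * ρ ^ j / 2 ^ j)) ^ n * ((2:ℝ) / 2 ^ j) ^ p
        = (1 / (1 - ρ)) ^ n * (1 / q ^ j) * 2 ^ p *
          (((2:ℝ) ^ j) ^ (n:ℝ) / ((2:ℝ) ^ j) ^ p) := by rw [h1, h2]; ring
      _ = (1 / (1 - ρ)) ^ n * 2 ^ p * q ^ j := by
          rw [h3]; field_simp
  set C : ℝ := cst1 n * ((1 / (1 - ρ)) ^ n * 2 ^ p * (1 - q)⁻¹) with hC
  have h1q : 0 < 1 - q := by linarith
  have hC0 : 0 < C := by positivity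
  refine ⟨C, hC0, ?_⟩
  intro D f hD hf
  have hD0 : (0:ℝ) < D := by exact_mod_cast hD
  set K : ℝ := cst1 n * (D:ℝ) ^ (exp1 n) with hK
  have hK0 : 0 < K := by positivity
  set W := ∫⁻ y, ‖f y‖ₑ ^ p with hW
  by_cases hWt : W = ∞
  · rw [hWt, ENNReal.mul_top (by
      rw [Ne, ENNReal.ofReal_eq_zero, not_le]; positivity)]
    exact le_top
  have hfm : Measurable (fun y => |f y|) := hf.measurable
  have hWr : W = ∫⁻ y, ENNReal.ofReal (|f y| ^ p) := by
    rw [hW]
    congr 1; ext y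
    rw [enorm_eq, ENNReal.ofReal_rpow_of_nonneg (abs_nonneg _) hp0.le]
  -- the sum of the weights
  have hsumw : ∑' j : ℕ, ENNReal.ofReal (K * (1 / ((1 - ρ) * ρ ^ j / 2 ^ j)) ^ n) *
      (ENNReal.ofReal (((2:ℝ) / 2 ^ j) ^ p) * W) = ENNReal.ofReal (C * (D:ℝ) ^ (exp1 n)) * W := by
    have h2 : ∀ j : ℕ, ENNReal.ofReal (K * (1 / ((1 - ρ) * ρ ^ j / 2 ^ j)) ^ n) *
        (ENNReal.ofReal (((2:ℝ) / 2 ^ j) ^ p) * W) =
        ENNReal.ofReal (K * ((1 / (1 - ρ)) ^ n * 2 ^ p) * q ^ j) * W := by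
      intro j
      rw [← mul_assoc, ← ENNReal.ofReal_mul (by positivity), mul_assoc K, hw]
      congr 2; ring
    simp only [h2]
    rw [ENNReal.tsum_mul_right]
    have hs : Summable (fun j : ℕ => K * ((1 / (1 - ρ)) ^ n * 2 ^ p) * q ^ j) :=
      (summable_geometric_of_lt_one hq0.le hq1).mul_left _
    rw [← ENNReal.ofReal_tsum_of_nonneg (fun j => by positivity) hs, _root_.tsum_mul_left,
      tsum_geometric_of_lt_one hq0.le hq1]
    congr 2
    rw [hC, hK]; ring
  -- Chebyshev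
  have hcheb : ∀ c : ℝ, 0 < c → ENNReal.ofReal (c ^ p) * volume {y | c < |f y|} ≤ W := by
    intro c hc
    have h1 : ENNReal.ofReal (c ^ p) * volume {y | ENNReal.ofReal (c ^ p) ≤
        ENNReal.ofReal (|f y| ^ p)} ≤ ∫⁻ y, ENNReal.ofReal (|f y| ^ p) :=
      mul_meas_ge_le_lintegral₀ ((hfm.pow_const p).ennreal_ofReal.aemeasurable) _
    rw [hWr]
    refine le_trans ?_ h1
    refine mul_le_mul_right (measure_mono ?_) _
    intro y hy
    show ENNReal.ofReal (c ^ p) ≤ ENNReal.ofReal (|f y| ^ p)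
    apply ENNReal.ofReal_le_ofReal
    exact Real.rpow_le_rpow hc.le (le_of_lt hy) hp0.le
  have hMm : Measurable (fun e : sphere (0:(EuclideanSpace ℝ (Fin n))) 1 => segMaxF f (e : (EuclideanSpace ℝ (Fin n)))) :=
    (measurable_segMaxF hf).comp measurable_subtype_coe
  have hweak := fun (lam : ℝ) (hlam : 0 < lam) => weak_segMaxF hn hD hf hρ hρ1 hlam
  -- finiteness almost everywhere
  have hfin : sig n {e | segMaxF f (e : (EuclideanSpace ℝ (Fin n))) = ∞} = 0 := by
    have h1 : ∀ lam : ℝ, 0 < lam → ENNReal.ofReal (lam ^ p) * sig n {e | segMaxF f (e : (EuclideanSpace ℝ (Fin n))) = ∞} ≤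
        ENNReal.ofReal (C * (D:ℝ) ^ (exp1 n)) * W := by
      intro lam hlam
      calc ENNReal.ofReal (lam ^ p) * sig n {e | segMaxF f (e : (EuclideanSpace ℝ (Fin n))) = ∞}
          ≤ ENNReal.ofReal (lam ^ p) * sig n {e | ENNReal.ofReal lam < segMaxF f (e : (EuclideanSpace ℝ (Fin n)))} := by
            refine mul_le_mul_right (measure_mono ?_) _
            intro e he
            show ENNReal.ofReal lam < segMaxF f (e : (EuclideanSpace ℝ (Fin n)))
            rw [show segMaxF f (e : (EuclideanSpace ℝ (Fin n))) = ∞ from he]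
            exact ENNReal.ofReal_lt_top
        _ ≤ ENNReal.ofReal (lam ^ p) * ∑' j : ℕ, ENNReal.ofReal (K *
            (1 / ((1 - ρ) * ρ ^ j / 2 ^ j)) ^ n) * volume {y | 2 ^ j * (lam / 2) < |f y|} := by
            gcongr
            exact hweak lam hlam
        _ = ∑' j : ℕ, ENNReal.ofReal (K * (1 / ((1 - ρ) * ρ ^ j / 2 ^ j)) ^ n) *
            (ENNReal.ofReal (lam ^ p) * volume {y | 2 ^ j * (lam / 2) < |f y|}) := by
            rw [← ENNReal.tsum_mul_left]
            congr 1; ext j; ring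
        _ ≤ ∑' j : ℕ, ENNReal.ofReal (K * (1 / ((1 - ρ) * ρ ^ j / 2 ^ j)) ^ n) *
            (ENNReal.ofReal (((2:ℝ) / 2 ^ j) ^ p) * W) := by
            refine ENNReal.tsum_le_tsum fun j => mul_le_mul_right ?_ _
            have h2 := hcheb (2 ^ j * (lam / 2)) (by positivity)
            have h3 : lam ^ p = ((2:ℝ) / 2 ^ j) ^ p * (2 ^ j * (lam / 2)) ^ p := by
              rw [← Real.mul_rpow (by positivity) (by positivity)]
              congr 1
              field_simp
            rw [h3, ENNReal.ofReal_mul (by positivity), mul_assoc]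
            gcongr
        _ = _ := hsumw
    by_contra hne
    have h2 : ENNReal.ofReal (C * (D:ℝ) ^ (exp1 n)) * W ≠ ∞ :=
      ENNReal.mul_ne_top ENNReal.ofReal_ne_top hWt
    set B := ENNReal.ofReal (C * (D:ℝ) ^ (exp1 n)) * W with hB
    set s := sig n {e | segMaxF f (e : (EuclideanSpace ℝ (Fin n))) = ∞} with hs
    have hst : s ≠ ∞ := (measure_mono (subset_univ _)).trans_lt sig_univ_lt_top |>.ne
    have hs0 : 0 < s.toReal := ENNReal.toReal_pos hne hst
    set x : ℝ := (B.toReal + 1) / s.toReal with hx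
    have hx0 : 0 < x := by
      have : 0 ≤ B.toReal := ENNReal.toReal_nonneg
      positivity
    have h3 := h1 (x ^ (1 / p)) (by positivity)
    have h4 : (x ^ (1 / p)) ^ p = x := by
      rw [← Real.rpow_mul hx0.le]
      have : 1 / p * p = 1 := by field_simp
      rw [this, Real.rpow_one]
    rw [h4, ← ENNReal.ofReal_toReal hst, ← ENNReal.ofReal_mul hx0.le, hx,
      div_mul_cancel₀ _ hs0.ne', ← ENNReal.ofReal_toReal h2] at h3
    have h5 := (ENNReal.ofReal_le_ofReal_iff ENNReal.toReal_nonneg).1 h3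
    rw [ENNReal.ofReal_toReal h2] at h5
    linarith
  -- the layer cake formula
  have hcake := lintegral_rpow_eq_lintegral_meas_lt_mul (sig n)
    (f := fun e : sphere (0:(EuclideanSpace ℝ (Fin n))) 1 => (segMaxF f (e : (EuclideanSpace ℝ (Fin n)))).toReal)
    (Eventually.of_forall fun e => ENNReal.toReal_nonneg) hMm.ennreal_toReal.aemeasurable hp0
  have hL : ∫⁻ e, segMaxF f (e : (EuclideanSpace ℝ (Fin n))) ^ p ∂(sig n) =
      ∫⁻ e, ENNReal.ofReal ((segMaxF f (e : (EuclideanSpace ℝ (Fin n)))).toReal ^ p) ∂(sig n) := by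
    apply lintegral_congr_ae
    have : ∀ᵐ e : sphere (0:(EuclideanSpace ℝ (Fin n))) 1 ∂(sig n), segMaxF f (e : (EuclideanSpace ℝ (Fin n))) ≠ ∞ := by
      rw [ae_iff]
      simpa using hfin
    filter_upwards [this] with e he
    rw [← ENNReal.ofReal_rpow_of_nonneg ENNReal.toReal_nonneg hp0.le, ENNReal.ofReal_toReal he]
  rw [hL, hcake]
  have hcake2 : ∀ j : ℕ, ENNReal.ofReal p * ∫⁻ t in Ioi (0:ℝ),
      volume {y | 2 ^ j * (t / 2) < |f y|} * ENNReal.ofReal (t ^ (p - 1)) =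
      ENNReal.ofReal (((2:ℝ) / 2 ^ j) ^ p) * W := by
    intro j
    have h1 := lintegral_rpow_eq_lintegral_meas_lt_mul (volume : Measure (EuclideanSpace ℝ (Fin n)))
      (f := fun y => (2:ℝ) / 2 ^ j * |f y|)
      (Eventually.of_forall fun y => by positivity) (hfm.const_mul _).aemeasurable hp0
    have h2 : ∀ t : ℝ, {y | t < (2:ℝ) / 2 ^ j * |f y|} = {y | 2 ^ j * (t / 2) < |f y|} := by
      intro t
      ext y
      simp only [mem_ofPred_eq]
      have h3 : (0:ℝ) < 2 ^ j := by positivity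
      constructor
      · intro h
        rw [div_mul_eq_mul_div, lt_div_iff₀ h3] at h
        linarith
      · intro h
        rw [div_mul_eq_mul_div, lt_div_iff₀ h3]
        linarith
    simp only [h2] at h1
    rw [← h1, hWr, ← lintegral_const_mul _ (hfm.pow_const p).ennreal_ofReal]
    congr 1; ext y
    rw [← ENNReal.ofReal_mul (by positivity), Real.mul_rpow (by positivity) (abs_nonneg _)]
  have hant : ∀ j : ℕ, Measurable (fun t : ℝ => volume {y : (EuclideanSpace ℝ (Fin n)) | 2 ^ j * (t / 2) < |f y|}) := by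
    intro j
    apply Antitone.measurable
    intro t t' htt'
    apply measure_mono
    intro y hy
    have hy' : 2 ^ j * (t' / 2) < |f y| := hy
    have h3 : (2:ℝ) ^ j * (t / 2) ≤ 2 ^ j * (t' / 2) := by gcongr
    exact lt_of_le_of_lt h3 hy'
  calc ENNReal.ofReal p * ∫⁻ t in Ioi (0:ℝ),
        sig n {e : sphere (0:(EuclideanSpace ℝ (Fin n))) 1 | t < (segMaxF f (e : (EuclideanSpace ℝ (Fin n)))).toReal} * ENNReal.ofReal (t ^ (p - 1))
      ≤ ENNReal.ofReal p * ∫⁻ t in Ioi (0:ℝ), (∑' j : ℕ, ENNReal.ofReal (K *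
            (1 / ((1 - ρ) * ρ ^ j / 2 ^ j)) ^ n) * volume {y | 2 ^ j * (t / 2) < |f y|}) *
        ENNReal.ofReal (t ^ (p - 1)) := by
        refine mul_le_mul_right ?_ _
        apply setLIntegral_mono' measurableSet_Ioi
        intro t ht
        have ht0 : 0 < t := ht
        refine mul_le_mul_left ?_ _
        refine le_trans (measure_mono ?_) (hweak t ht0)
        intro e he
        have he' : t < (segMaxF f (e : (EuclideanSpace ℝ (Fin n)))).toReal := he
        show ENNReal.ofReal t < segMaxF f (e : (EuclideanSpace ℝ (Fin n)))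
        by_cases h : segMaxF f (e : (EuclideanSpace ℝ (Fin n))) = ∞
        · rw [h]; exact ENNReal.ofReal_lt_top
        · exact (ENNReal.ofReal_lt_iff_lt_toReal ht0.le h).2 he'
    _ = ∑' j : ℕ, ENNReal.ofReal (K * (1 / ((1 - ρ) * ρ ^ j / 2 ^ j)) ^ n) *
          (ENNReal.ofReal p * ∫⁻ t in Ioi (0:ℝ),
            volume {y | 2 ^ j * (t / 2) < |f y|} * ENNReal.ofReal (t ^ (p - 1))) := by
        have h1 : ∀ t : ℝ, (∑' j : ℕ, ENNReal.ofReal (K *
            (1 / ((1 - ρ) * ρ ^ j / 2 ^ j)) ^ n) * volume {y | 2 ^ j * (t / 2) < |f y|}) *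
            ENNReal.ofReal (t ^ (p - 1)) = ∑' j : ℕ, ENNReal.ofReal (K *
            (1 / ((1 - ρ) * ρ ^ j / 2 ^ j)) ^ n) * (volume {y | 2 ^ j * (t / 2) < |f y|} *
            ENNReal.ofReal (t ^ (p - 1))) := by
          intro t
          rw [← ENNReal.tsum_mul_right]
          congr 1; ext j; ring
        have hpm : Measurable (fun t : ℝ => ENNReal.ofReal (t ^ (p - 1))) :=
          (measurable_id.pow_const (p - 1)).ennreal_ofReal
        simp only [h1]
        have hmm : ∀ j : ℕ, Measurable (fun t : ℝ => volume {y : (EuclideanSpace ℝ (Fin n)) | 2 ^ j * (t / 2) < |f y|} *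
            ENNReal.ofReal (t ^ (p - 1))) := fun j => (hant j).mul hpm
        have h5 : ∫⁻ t in Ioi (0:ℝ), ∑' j : ℕ, ENNReal.ofReal (K *
            (1 / ((1 - ρ) * ρ ^ j / 2 ^ j)) ^ n) * (volume {y : (EuclideanSpace ℝ (Fin n)) | 2 ^ j * (t / 2) < |f y|} *
            ENNReal.ofReal (t ^ (p - 1))) = ∑' j : ℕ, ∫⁻ t in Ioi (0:ℝ), ENNReal.ofReal (K *
            (1 / ((1 - ρ) * ρ ^ j / 2 ^ j)) ^ n) * (volume {y : (EuclideanSpace ℝ (Fin n)) | 2 ^ j * (t / 2) < |f y|} *
            ENNReal.ofReal (t ^ (p - 1))) :=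
          lintegral_tsum (fun j => ((hmm j).const_mul _).aemeasurable)
        rw [h5, ← ENNReal.tsum_mul_left]
        congr 1; ext j
        rw [lintegral_const_mul _ (hmm j)]
        ring
    _ = ∑' j : ℕ, ENNReal.ofReal (K * (1 / ((1 - ρ) * ρ ^ j / 2 ^ j)) ^ n) *
          (ENNReal.ofReal (((2:ℝ) / 2 ^ j) ^ p) * W) := by simp only [hcake2]
    _ = _ := hsumw

end Pool.Agent.W770.SA
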