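import Pool.Agent.W770.SA.Interp

set_option autoImplicit false

/-!
The tube inequality tested against semialgebraic functions.
-/

open MeasureTheory Set Filter Topology ENNReal NNReal Metric

namespace Pool.Agent.W770.SA

/-- the multiplicity function of a finite family of tubes -/
noncomputable def mult {n : ℕ} (δ : ℝ) {ι : Type} [Fintype ι] (e a : ι → EuclideanSpace ℝ (Fin n))
    (y : EuclideanSpace ℝ (Fin n)) : ℝ :=
  ∑ i, (tube δ (e i) (a i)).indicator (fun _ => (1 : ℝ)) y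

/-- the measure with density the multiplicity function -/
noncomputable def multMeas {n : ℕ} (δ : ℝ) {ι : Type} [Fintype ι] (e a : ι → EuclideanSpace ℝ (Fin n)) :
    Measure (EuclideanSpace ℝ (Fin n)) := ∑ i, (volume : Measure (EuclideanSpace ℝ (Fin n))).restrict (tube δ (e i) (a i))

variable {n : ℕ}

theorem mult_nonneg (δ : ℝ) {ι : Type} [Fintype ι] (e a : ι → EuclideanSpace ℝ (Fin n))
    (y : EuclideanSpace ℝ (Fin n)) : 0 ≤ mult δ e a y :=
  Finset.sum_nonneg fun i _ => indicator_nonneg (fun _ _ => zero_le_one) _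

theorem mult_le (δ : ℝ) {ι : Type} [Fintype ι] (e a : ι → EuclideanSpace ℝ (Fin n))
    (y : EuclideanSpace ℝ (Fin n)) : mult δ e a y ≤ Fintype.card ι := by
  unfold mult
  calc _ ≤ ∑ _i : ι, (1:ℝ) := Finset.sum_le_sum fun _ _ =>
        indicator_le_self' (fun _ _ => zero_le_one) y
    _ = _ := by simp

theorem measurable_mult (δ : ℝ) {ι : Type} [Fintype ι] (e a : ι → EuclideanSpace ℝ (Fin n)) :
    Measurable (mult δ e a) := by
  unfold mult
  exact Finset.measurable_sum _ fun i _ => measurable_const.indicator (isClosed_tube _ _ _).measurableSet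

theorem lintegral_multMeas (δ : ℝ) {ι : Type} [Fintype ι] (e a : ι → EuclideanSpace ℝ (Fin n))
    {g : EuclideanSpace ℝ (Fin n) → ℝ≥0∞} (hg : AEMeasurable g volume) :
    ∫⁻ y, g y ∂(multMeas δ e a) = ∫⁻ y, g y * ENNReal.ofReal (mult δ e a y) := by
  unfold multMeas
  rw [lintegral_finsetSum_measure]
  have h1 : ∀ y, g y * ENNReal.ofReal (mult δ e a y) = ∑ i, (tube δ (e i) (a i)).indicator g y := by
    intro y
    unfold mult
    rw [ENNReal.ofReal_sum_of_nonneg (fun i _ => indicator_nonneg (fun _ _ => zero_le_one) _),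
      Finset.mul_sum]
    apply Finset.sum_congr rfl
    intro i _
    by_cases h : y ∈ tube δ (e i) (a i)
    · rw [indicator_of_mem h, indicator_of_mem h]; simp
    · rw [indicator_of_notMem h, indicator_of_notMem h]; simp
  simp_rw [h1]
  rw [lintegral_finsetSum' _ (fun i _ => hg.indicator (isClosed_tube _ _ _).measurableSet)]
  apply Finset.sum_congr rfl
  intro i _
  rw [lintegral_indicator (isClosed_tube _ _ _).measurableSet]

theorem markovP {f : (EuclideanSpace ℝ (Fin n)) → ℝ} (hf : AEMeasurable f volume) {p : ℝ} (hp : 0 < p) {G : ℝ} (_hG : 0 < G)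
    (hW : ∫⁻ y, ‖f y‖ₑ ^ p ≤ ENNReal.ofReal (G ^ p)) {s : ℝ} (hs : 0 < s) :
    volume {y | s < |f y|} ≤ ENNReal.ofReal (G ^ p * s ^ (-p)) := by
  have h1 : ENNReal.ofReal (s ^ p) * volume {y | ENNReal.ofReal (s ^ p) ≤ ‖f y‖ₑ ^ p} ≤
      ∫⁻ y, ‖f y‖ₑ ^ p := mul_meas_ge_le_lintegral₀ (hf.enorm.pow_const p) _
  have h2 : ENNReal.ofReal (s ^ p) * volume {y | s < |f y|} ≤ ENNReal.ofReal (G ^ p) := by
    refine le_trans (le_trans ?_ h1) hW
    gcongr ENNReal.ofReal (s ^ p) * ?_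
    apply measure_mono
    intro y hy
    show ENNReal.ofReal (s ^ p) ≤ ‖f y‖ₑ ^ p
    rw [← ENNReal.ofReal_rpow_of_pos hs, ← ofReal_norm, Real.norm_eq_abs]
    gcongr
    exact le_of_lt hy
  have h3 : volume {y | s < |f y|} = ENNReal.ofReal (s ^ (-p)) * (ENNReal.ofReal (s ^ p) * volume {y | s < |f y|}) := by
    rw [← mul_assoc, ← ENNReal.ofReal_mul (by positivity), ← Real.rpow_add hs]
    simp
  rw [h3]
  calc _ ≤ ENNReal.ofReal (s ^ (-p)) * ENNReal.ofReal (G ^ p) := by gcongr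
    _ = _ := by rw [← ENNReal.ofReal_mul (by positivity), mul_comm]

/-- **The tube inequality tested against semialgebraic functions.** -/
theorem tests (m : ℕ) (hm : 1 ≤ m) {q : ℝ} (hq : ((m:ℝ) + 1) / m < q) : ∃ C : ℝ, 0 < C ∧
    ∀ (D : ℕ) (δ : ℝ) (ι : Type) [Fintype ι] (e a : ι → EuclideanSpace ℝ (Fin (m + 1)))
      (g : EuclideanSpace ℝ (Fin (m + 1)) → ℝ), 1 ≤ D → 0 < δ → δ ≤ 1 → (∀ i, ‖e i‖ = 1) →
      (∀ i j, i ≠ j → δ ≤ ‖e i - e j‖) → AEMeasurable g volume → SemialgAE D g →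
      ∫⁻ y, ‖g y‖ₑ * ENNReal.ofReal (mult δ e a y) ≤
        ENNReal.ofReal (C * (D:ℝ) ^ ((exp1 (m + 1) : ℝ) / (q * m)) * δ ^ ((m:ℝ) / q) *
          (Fintype.card ι : ℝ) ^ (1 - 1 / (q * m))) *
        (∫⁻ y, ‖g y‖ₑ ^ (q / (q - 1))) ^ ((q - 1) / q) := by
  obtain ⟨C, hC, hset⟩ := set_est m hm
  have hm0 : (0:ℝ) < m := by exact_mod_cast hm
  have hq1 : 1 < q := by
    refine lt_of_le_of_lt ?_ hq
    rw [le_div_iff₀ hm0]; linarith
  have hq0 : 0 < q := by linarith
  set p : ℝ := q / (q - 1) with hpdef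
  have hq10 : 0 < q - 1 := by linarith
  have hp1 : 1 < p := by rw [hpdef, lt_div_iff₀ hq10]; linarith
  have hp0 : 0 < p := by linarith
  have hpm : p < (m:ℝ) + 1 := by
    rw [hpdef, div_lt_iff₀ hq10]
    rw [div_lt_iff₀ hm0] at hq
    linarith
  have hpq : 1 - 1 / p = 1 / q := by
    rw [hpdef]; field_simp; ring
  have hqp : (q - 1) / q = 1 / p := by rw [hpdef]; field_simp
  have hpm' : p / ((m:ℝ) + 1) < 1 := by rw [div_lt_one (by positivity)]; exact hpm
  have hA0 : 0 < 1 - p / ((m:ℝ) + 1) := by linarith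
  have hB0 : 0 < p - 1 := by linarith
  refine ⟨(1 / (1 - p / ((m:ℝ) + 1)) + 1 / (p - 1)) * C ^ (1 / q), by positivity, ?_⟩
  intro D δ ι _ e a g hD hδ hδ1 he hsep hgm hg
  have hD0 : (0:ℝ) < D := by exact_mod_cast hD
  rcases Nat.eq_zero_or_pos (Fintype.card ι) with h0 | h0
  · have : IsEmpty ι := Fintype.card_eq_zero_iff.1 h0
    simp [mult]
  set N : ℝ := (Fintype.card ι : ℝ) with hN
  have hN0 : 0 < N := by rw [hN]; exact_mod_cast h0
  have hR := critVol_pos (m := m) hC hD hδ hN0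
  set R := critVol m C D δ N with hRdef
  rw [hqp, ← lintegral_multMeas δ e a hgm.enorm]
  have hac : multMeas δ e a ≪ (volume : Measure (EuclideanSpace ℝ (Fin (m + 1)))) := by
    intro s hs
    unfold multMeas
    rw [Measure.finsetSum_apply]
    exact Finset.sum_eq_zero fun i _ => Measure.absolutelyContinuous_of_le Measure.restrict_le_self hs
  set W := ∫⁻ y, ‖g y‖ₑ ^ p with hW
  have hK0 : 0 < (1 / (1 - p / ((m:ℝ) + 1)) + 1 / (p - 1)) * C ^ (1 / q) *
    (D:ℝ) ^ ((exp1 (m + 1) : ℝ) / (q * m)) * δ ^ ((m:ℝ) / q) * N ^ (1 - 1 / (q * m)) := by positivity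
  rcases eq_or_ne W ∞ with htop | htop
  · rw [htop, ENNReal.top_rpow_of_pos (by positivity), ENNReal.mul_top]
    · exact le_top
    · rw [Ne, ENNReal.ofReal_eq_zero, not_le]; exact hK0
  rcases eq_or_ne W 0 with hz | hz
  · have h1 : (fun y => ‖g y‖ₑ ^ p) =ᵐ[volume] 0 := (lintegral_eq_zero_iff' (hgm.enorm.pow_const p)).1 hz
    have h2 : (fun y => ‖g y‖ₑ) =ᵐ[multMeas δ e a] 0 := by
      apply hac.ae_eq
      filter_upwards [h1] with y hy
      simpa [hp0, hp0.le] using hy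
    rw [lintegral_congr_ae h2]
    simp
  set G : ℝ := W.toReal ^ (1 / p) with hG
  have hWr : 0 < W.toReal := ENNReal.toReal_pos hz htop
  have hG0 : 0 < G := by positivity
  have hGp : W = ENNReal.ofReal (G ^ p) := by
    rw [hG, ← Real.rpow_mul hWr.le, one_div, inv_mul_cancel₀ hp0.ne', Real.rpow_one,
      ENNReal.ofReal_toReal htop]
  have hWG : W ^ (1 / p) = ENNReal.ofReal G := by
    rw [hGp, ENNReal.ofReal_rpow_of_pos (by positivity), ← Real.rpow_mul hG0.le, mul_one_div,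
      div_self hp0.ne', Real.rpow_one]
  have key := interp volume (multMeas δ e a) (f := fun y => |g y|) hpm hp1 hN0 hR hG0 (fun y => abs_nonneg _)
    ((hgm.mono_ac hac).abs)
    (by
      intro s _
      unfold multMeas
      rw [Measure.finsetSum_apply]
      calc ∑ i, (volume.restrict (tube δ (e i) (a i))) {y | s < |g y|} ≤ ∑ _i : ι, volume {y | s < |g y|} :=
            Finset.sum_le_sum fun i _ => Measure.restrict_apply_le _ _
        _ = _ := by
            rw [Finset.sum_const, nsmul_eq_mul, Finset.card_univ, hN, ENNReal.ofReal_natCast])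
    (by
      intro s hs
      obtain ⟨A, hA, hAs⟩ := hg s hs
      have h1 := hset D A δ ι e a hD hA hδ hδ1 he hsep
      have h2 : multMeas δ e a {y | s < |g y|} = ∑ i, volume (tube δ (e i) (a i) ∩ A) := by
        rw [measure_congr (hac.ae_eq hAs)]
        unfold multMeas
        rw [Measure.finsetSum_apply]
        apply Finset.sum_congr rfl
        intro i _
        rw [Measure.restrict_apply hA.isOpen.measurableSet, inter_comm]
      rw [h2, measure_congr hAs]
      have h3 : (1 - 1 / ((m:ℝ) + 1)) = (m:ℝ) / (m + 1) := by field_simp; ring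
      rw [h3]
      exact h1)
    (fun s hs => markovP hgm hp0 hG0 (le_of_eq hGp) hs)
  have h4 : ∫⁻ y, ‖g y‖ₑ ∂(multMeas δ e a) = ∫⁻ y, ENNReal.ofReal |g y| ∂(multMeas δ e a) := by
    apply lintegral_congr
    intro y
    rw [← ofReal_norm, Real.norm_eq_abs]
  rw [h4, hWG, ← ENNReal.ofReal_mul hK0.le]
  refine key.trans (ENNReal.ofReal_le_ofReal (le_of_eq ?_))
  rw [hpq]
  have h5 : R ^ (1 / q) = C ^ (1 / q) * (D:ℝ) ^ ((exp1 (m + 1) : ℝ) / (q * m)) * δ ^ ((m:ℝ) / q) *
      N ^ (-(1 / (q * m))) := by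
    rw [hRdef]
    unfold critVol
    rw [Real.mul_rpow (by positivity) (by positivity), Real.mul_rpow (by positivity) (by positivity),
      Real.mul_rpow (by positivity) (by positivity), ← Real.rpow_mul hD0.le, ← Real.rpow_natCast δ m,
      ← Real.rpow_mul hδ.le, ← Real.rpow_mul hN0.le]
    have e1 : (exp1 (m + 1) : ℝ) / m * (1 / q) = (exp1 (m + 1) : ℝ) / (q * m) := by
      field_simp
    have e2 : (m:ℝ) * (1 / q) = (m:ℝ) / q := by ring
    have e3 : -(1 / (m:ℝ)) * (1 / q) = -(1 / (q * m)) := by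
      field_simp
    rw [e1, e2, e3]
  have h6 : N * N ^ (-(1 / (q * m))) = N ^ (1 - 1 / (q * m)) := by
    nth_rewrite 1 [← Real.rpow_one N]
    rw [← Real.rpow_add hN0]
    congr 1
  rw [h5, ← h6]
  ring

end Pool.Agent.W770.SA
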