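import Pool.Agent.W770.SA.Seg

set_option autoImplicit false

/-!
Tubes: comparison of averages over tubes and over segments.
-/

open MeasureTheory Set Filter Topology ENNReal NNReal Metric

namespace Pool.Agent.W770.SA

variable {n : ℕ}

/-- The closed tube of length `1` and radius `δ` with centre `b` and axis direction `e`. -/
def tube (δ : ℝ) (e b : (EuclideanSpace ℝ (Fin n))) : Set (EuclideanSpace ℝ (Fin n)) :=
  {y | |inner ℝ (y - b) e| ≤ 1 / 2 ∧ ‖(y - b) - (inner ℝ (y - b) e : ℝ) • e‖ ≤ δ}

theorem isClosed_tube (δ : ℝ) (e b : (EuclideanSpace ℝ (Fin n))) : IsClosed (tube δ e b) := by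
  have h1 : Continuous (fun y : (EuclideanSpace ℝ (Fin n)) => |inner ℝ (y - b) e|) := by fun_prop
  have h2 : Continuous (fun y : (EuclideanSpace ℝ (Fin n)) => ‖(y - b) - (inner ℝ (y - b) e : ℝ) • e‖) := by fun_prop
  exact (isClosed_le h1 continuous_const).inter (isClosed_le h2 continuous_const)

theorem tube_shift {δ : ℝ} {e b : (EuclideanSpace ℝ (Fin n))} (he : ‖e‖ = 1) (y : (EuclideanSpace ℝ (Fin n))) (τ : ℝ) :
    (y + τ • e ∈ tube δ e b) ↔ |inner ℝ (y - b) e + τ| ≤ 1 / 2 ∧
      ‖(y - b) - (inner ℝ (y - b) e : ℝ) • e‖ ≤ δ := by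
  have h1 : y + τ • e - b = (y - b) + τ • e := by abel
  have h2 : inner ℝ (y + τ • e - b) e = inner ℝ (y - b) e + τ := by
    rw [h1, inner_add_left, inner_smul_left, real_inner_self_eq_norm_sq, he]
    simp
  have h3 : (y + τ • e - b) - (inner ℝ (y + τ • e - b) e : ℝ) • e =
      (y - b) - (inner ℝ (y - b) e : ℝ) • e := by
    rw [h2, h1, add_smul]; abel
  unfold tube
  rw [mem_ofPred_eq, h3, h2]

theorem tube_inter_le {δ : ℝ} {e b : (EuclideanSpace ℝ (Fin n))} (he : ‖e‖ = 1) {A : Set (EuclideanSpace ℝ (Fin n))} (hA : IsOpen A) :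
    volume (tube δ e b ∩ A) ≤ 2 * volume (tube δ e b) * segMax A e := by
  classical
  set T := tube δ e b with hT
  have hTm : MeasurableSet T := (isClosed_tube δ e b).measurableSet
  set F : (EuclideanSpace ℝ (Fin n)) → ℝ → ℝ≥0∞ := fun y τ => (T ∩ A).indicator 1 (y + τ • e) with hF
  have hFm : Measurable (fun q : (EuclideanSpace ℝ (Fin n)) × ℝ => F q.1 q.2) :=
    (measurable_one.indicator (hTm.inter hA.measurableSet)).comp (by fun_prop)
  have h1 : volume (T ∩ A) = ∫⁻ τ in Icc (0:ℝ) 1, ∫⁻ y, F y τ := by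
    have h2 : ∀ τ : ℝ, ∫⁻ y, F y τ = volume (T ∩ A) := by
      intro τ
      have h3 := lintegral_add_right_eq_self (μ := (volume : Measure (EuclideanSpace ℝ (Fin n))))
        ((T ∩ A).indicator (1 : (EuclideanSpace ℝ (Fin n)) → ℝ≥0∞)) (τ • e)
      rw [lintegral_indicator_one (hTm.inter hA.measurableSet)] at h3
      exact h3
    simp only [h2]
    rw [setLIntegral_const, Real.volume_Icc]
    simp
  have hsw : ∫⁻ τ in Icc (0:ℝ) 1, ∫⁻ y, F y τ = ∫⁻ y, ∫⁻ τ in Icc (0:ℝ) 1, F y τ :=
    (lintegral_lintegral_swap hFm.aemeasurable).symm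
  rw [h1, hsw]
  have h4 : ∀ y, ∫⁻ τ in Icc (0:ℝ) 1, F y τ ≤
      (T.indicator 1 y + T.indicator 1 (y + e)) * segMax A e := by
    intro y
    have hle : ∫⁻ τ in Icc (0:ℝ) 1, F y τ ≤ segMax A e := by
      calc ∫⁻ τ in Icc (0:ℝ) 1, F y τ ≤ ∫⁻ τ in Icc (0:ℝ) 1,
            {τ : ℝ | y + τ • e ∈ A}.indicator 1 τ := by
            apply lintegral_mono
            intro τ
            simp only [hF]
            by_cases h : y + τ • e ∈ T ∩ A
            · rw [indicator_of_mem h, indicator_of_mem (show τ ∈ {τ : ℝ | y + τ • e ∈ A} from h.2)]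
              simp
            · rw [indicator_of_notMem h]; exact zero_le
        _ = volume ({τ : ℝ | y + τ • e ∈ A} ∩ Icc 0 1) := by
            have hm : MeasurableSet {τ : ℝ | y + τ • e ∈ A} :=
              (hA.preimage (by fun_prop : Continuous fun τ : ℝ => y + τ • e)).measurableSet
            rw [lintegral_indicator_one hm, Measure.restrict_apply hm]
        _ = volume {s : ℝ | s ∈ Icc 0 1 ∧ y + s • e ∈ A} := by
            congr 1; ext s; exact and_comm
        _ ≤ segMax A e := le_iSup (fun z : (EuclideanSpace ℝ (Fin n)) => volume {s : ℝ | s ∈ Icc 0 1 ∧ z + s • e ∈ A}) y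
    by_cases hy : y ∈ T ∨ y + e ∈ T
    · refine hle.trans ?_
      have : (1:ℝ≥0∞) ≤ T.indicator 1 y + T.indicator 1 (y + e) := by
        rcases hy with hy | hy
        · rw [indicator_of_mem hy]; simp
        · rw [indicator_of_mem hy]; simp
      calc segMax A e = 1 * segMax A e := (one_mul _).symm
        _ ≤ _ := by gcongr
    · push Not at hy
      have h5 : ∀ τ ∈ Icc (0:ℝ) 1, F y τ = 0 := by
        intro τ hτ
        simp only [hF]
        apply indicator_of_notMem
        rintro ⟨h6, -⟩
        rw [hT, tube_shift he] at h6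
        obtain ⟨h7, h8⟩ := h6
        rw [abs_le] at h7
        by_cases h9 : -(1/2) ≤ inner ℝ (y - b) e
        · apply hy.1
          have : y + (0:ℝ) • e ∈ tube δ e b := by
            rw [tube_shift he]
            refine ⟨?_, h8⟩
            rw [abs_le]
            constructor <;> linarith [hτ.1, hτ.2]
          simpa using this
        · apply hy.2
          push Not at h9
          have : y + (1:ℝ) • e ∈ tube δ e b := by
            rw [tube_shift he]
            refine ⟨?_, h8⟩
            rw [abs_le]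
            constructor <;> linarith [hτ.1, hτ.2]
          simpa using this
      rw [setLIntegral_congr_fun measurableSet_Icc h5]
      simp
  have h10 : ∫⁻ y, T.indicator (1 : (EuclideanSpace ℝ (Fin n)) → ℝ≥0∞) (y + e) = volume T := by
    have := lintegral_add_right_eq_self (μ := (volume : Measure (EuclideanSpace ℝ (Fin n))))
        (T.indicator (1 : (EuclideanSpace ℝ (Fin n)) → ℝ≥0∞)) e
    rw [lintegral_indicator_one hTm] at this
    exact this
  have hTi : Measurable (T.indicator (1 : (EuclideanSpace ℝ (Fin n)) → ℝ≥0∞)) := measurable_one.indicator hTm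
  calc ∫⁻ y, ∫⁻ τ in Icc (0:ℝ) 1, F y τ
      ≤ ∫⁻ y, (T.indicator 1 y + T.indicator 1 (y + e)) * segMax A e := lintegral_mono h4
    _ = (∫⁻ y, (T.indicator 1 y + T.indicator 1 (y + e))) * segMax A e := by
        rw [lintegral_mul_const]
        exact hTi.add (hTi.comp (measurable_add_const e))
    _ = 2 * volume T * segMax A e := by
        rw [lintegral_add_left hTi, lintegral_indicator_one hTm, h10, two_mul]

end Pool.Agent.W770.SA
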