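import Pool.Agent.W770.SA.StrongP

set_option autoImplicit false

/-!
Averages over tubes are controlled by averages over segments.
-/

open MeasureTheory Set Filter Topology ENNReal NNReal Metric

namespace Pool.Agent.W770.SA

variable {n : ℕ}

theorem lintegral_tube_le {δ : ℝ} {e b : (EuclideanSpace ℝ (Fin n))} (he : ‖e‖ = 1) {g : (EuclideanSpace ℝ (Fin n)) → ℝ≥0∞} (hg : Measurable g) :
    ∫⁻ y in tube δ e b, g y ≤
      2 * volume (tube δ e b) * ⨆ z : (EuclideanSpace ℝ (Fin n)), ∫⁻ s in Icc (0:ℝ) 1, g (z + s • e) := by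
  classical
  set T := tube δ e b with hT
  set Q := ⨆ z : (EuclideanSpace ℝ (Fin n)), ∫⁻ s in Icc (0:ℝ) 1, g (z + s • e) with hQ
  have hTm : MeasurableSet T := (isClosed_tube δ e b).measurableSet
  have hTg : Measurable (T.indicator g) := hg.indicator hTm
  set F : (EuclideanSpace ℝ (Fin n)) → ℝ → ℝ≥0∞ := fun y τ => T.indicator g (y + τ • e) with hF
  have hFm : Measurable (fun q : (EuclideanSpace ℝ (Fin n)) × ℝ => F q.1 q.2) := hTg.comp (by fun_prop)
  have h1 : ∫⁻ y in T, g y = ∫⁻ τ in Icc (0:ℝ) 1, ∫⁻ y, F y τ := by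
    have h2 : ∀ τ : ℝ, ∫⁻ y, F y τ = ∫⁻ y in T, g y := by
      intro τ
      have h3 := lintegral_add_right_eq_self (μ := (volume : Measure (EuclideanSpace ℝ (Fin n)))) (T.indicator g) (τ • e)
      rw [lintegral_indicator hTm] at h3
      exact h3
    simp only [h2]
    rw [setLIntegral_const, Real.volume_Icc]
    simp
  have hsw : ∫⁻ τ in Icc (0:ℝ) 1, ∫⁻ y, F y τ = ∫⁻ y, ∫⁻ τ in Icc (0:ℝ) 1, F y τ :=
    (lintegral_lintegral_swap hFm.aemeasurable).symm
  rw [h1, hsw]
  have h4 : ∀ y, ∫⁻ τ in Icc (0:ℝ) 1, F y τ ≤ (T.indicator 1 y + T.indicator 1 (y + e)) * Q := by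
    intro y
    have hle : ∫⁻ τ in Icc (0:ℝ) 1, F y τ ≤ Q := by
      calc ∫⁻ τ in Icc (0:ℝ) 1, F y τ ≤ ∫⁻ τ in Icc (0:ℝ) 1, g (y + τ • e) := by
            apply lintegral_mono
            intro τ
            exact indicator_le_self _ _ _
        _ ≤ Q := le_iSup (fun z : (EuclideanSpace ℝ (Fin n)) => ∫⁻ s in Icc (0:ℝ) 1, g (z + s • e)) y
    by_cases hy : y ∈ T ∨ y + e ∈ T
    · refine hle.trans ?_
      have : (1:ℝ≥0∞) ≤ T.indicator 1 y + T.indicator 1 (y + e) := by
        rcases hy with hy | hy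
        · rw [indicator_of_mem hy]; simp
        · rw [indicator_of_mem hy]; simp
      calc Q = 1 * Q := (one_mul _).symm
        _ ≤ _ := by gcongr
    · push Not at hy
      have h5 : ∀ τ ∈ Icc (0:ℝ) 1, F y τ = 0 := by
        intro τ hτ
        simp only [hF]
        apply indicator_of_notMem
        intro h6
        rw [hT, tube_shift he] at h6
        obtain ⟨h7, h8⟩ := h6
        rw [abs_le] at h7
        by_cases h9 : -(1/2) ≤ inner ℝ (y - b) e
        · apply hy.1
          have : y + (0:ℝ) • e ∈ tube δ e b := by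
            rw [tube_shift he]
            refine ⟨?_, h8⟩
            rw [abs_le]
            constructor <;> linarith [hτ.1, hτ.2]
          simpa using this
        · apply hy.2
          push Not at h9
          have : y + (1:ℝ) • e ∈ tube δ e b := by
            rw [tube_shift he]
            refine ⟨?_, h8⟩
            rw [abs_le]
            constructor <;> linarith [hτ.1, hτ.2]
          simpa using this
      rw [setLIntegral_congr_fun measurableSet_Icc h5]
      simp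
  have h10 : ∫⁻ y, T.indicator (1 : (EuclideanSpace ℝ (Fin n)) → ℝ≥0∞) (y + e) = volume T := by
    have := lintegral_add_right_eq_self (μ := (volume : Measure (EuclideanSpace ℝ (Fin n))))
        (T.indicator (1 : (EuclideanSpace ℝ (Fin n)) → ℝ≥0∞)) e
    rw [lintegral_indicator_one hTm] at this
    exact this
  have hTi : Measurable (T.indicator (1 : (EuclideanSpace ℝ (Fin n)) → ℝ≥0∞)) := measurable_one.indicator hTm
  calc ∫⁻ y, ∫⁻ τ in Icc (0:ℝ) 1, F y τ
      ≤ ∫⁻ y, (T.indicator 1 y + T.indicator 1 (y + e)) * Q := lintegral_mono h4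
    _ = (∫⁻ y, (T.indicator 1 y + T.indicator 1 (y + e))) * Q := by
        rw [lintegral_mul_const]
        exact hTi.add (hTi.comp (measurable_add_const e))
    _ = 2 * volume T * Q := by
        rw [lintegral_add_left hTi, lintegral_indicator_one hTm, h10, two_mul]

theorem volume_tube_lt_top {δ : ℝ} {e a : (EuclideanSpace ℝ (Fin n))} (he : ‖e‖ = 1) : volume (tube δ e a) < ∞ := by
  have : tube δ e a ⊆ closedBall a (1 / 2 + δ) := by
    rintro y ⟨h1, h2⟩
    rw [mem_closedBall, dist_eq_norm]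
    calc ‖y - a‖ = ‖(inner ℝ (y - a) e : ℝ) • e + ((y - a) - (inner ℝ (y - a) e : ℝ) • e)‖ := by
          congr 1; abel
      _ ≤ ‖(inner ℝ (y - a) e : ℝ) • e‖ + ‖(y - a) - (inner ℝ (y - a) e : ℝ) • e‖ :=
          norm_add_le _ _
      _ ≤ 1 / 2 + δ := by
          rw [norm_smul, he, mul_one, Real.norm_eq_abs]
          linarith
  exact (measure_mono this).trans_lt measure_closedBall_lt_top

theorem kakeyaMax_le {δ : ℝ} (hδ : 0 < δ) {f : (EuclideanSpace ℝ (Fin n)) → ℝ} (hf : Measurable (fun y => |f y|)) {e : (EuclideanSpace ℝ (Fin n))}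
    (he : ‖e‖ = 1) : kakeyaMax δ f e ≤ 2 * segMaxF f e := by
  apply iSup_le
  intro a
  have hg : Measurable (fun y => ‖f y‖ₑ) := by
    simp only [enorm_eq]
    exact hf.ennreal_ofReal
  have hT0 : volume (tube δ e a) ≠ 0 := by
    have h1 : ball a (min (1/2) (δ/2)) ⊆ tube δ e a := by
      intro y hy
      rw [mem_ball, dist_eq_norm, lt_min_iff] at hy
      have h2 : |inner ℝ (y - a) e| ≤ ‖y - a‖ := by
        have := abs_real_inner_le_norm (y - a) e
        rwa [he, mul_one] at this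
      refine ⟨by linarith [hy.1], ?_⟩
      calc ‖(y - a) - (inner ℝ (y - a) e : ℝ) • e‖ ≤ ‖y - a‖ + ‖(inner ℝ (y - a) e : ℝ) • e‖ :=
            norm_sub_le _ _
        _ ≤ ‖y - a‖ + ‖y - a‖ := by
            rw [norm_smul, he, mul_one, Real.norm_eq_abs]; gcongr
        _ ≤ δ := by linarith [hy.2]
    exact (lt_of_lt_of_le (measure_ball_pos volume a (by positivity)) (measure_mono h1)).ne'
  calc (volume (tube δ e a))⁻¹ * ∫⁻ y in tube δ e a, ‖f y‖ₑ
      ≤ (volume (tube δ e a))⁻¹ * (2 * volume (tube δ e a) * segMaxF f e) := by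
        gcongr
        exact lintegral_tube_le he hg
    _ = ((volume (tube δ e a))⁻¹ * volume (tube δ e a)) * (2 * segMaxF f e) := by ring
    _ = _ := by rw [ENNReal.inv_mul_cancel hT0 (volume_tube_lt_top he).ne, one_mul]

/-- The estimate for `p > n`, for segments and for tubes of any width. -/
theorem strongP' (hn : 1 ≤ n) {p : ℝ} (hp : (n:ℝ) < p) : ∃ C : ℝ, 0 < C ∧ ∀ (D : ℕ) (f : (EuclideanSpace ℝ (Fin n)) → ℝ),
    1 ≤ D → Semialg D f →
      ∫⁻ e, segMaxF f (e : (EuclideanSpace ℝ (Fin n))) ^ p ∂(sig n) ≤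
        ENNReal.ofReal (C * (D:ℝ) ^ (exp1 n)) * ∫⁻ y, ‖f y‖ₑ ^ p ∧
      ∀ δ : ℝ, 0 < δ → ∫⁻ e, kakeyaMax δ f (e : (EuclideanSpace ℝ (Fin n))) ^ p ∂(sig n) ≤
        ENNReal.ofReal (C * (D:ℝ) ^ (exp1 n)) * ∫⁻ y, ‖f y‖ₑ ^ p := by
  obtain ⟨C, hC, h⟩ := strongP hn hp
  have hp0 : 0 < p := lt_of_le_of_lt (Nat.cast_nonneg n) hp
  have h2p : (1:ℝ) ≤ 2 ^ p := Real.one_le_rpow (by norm_num) hp0.le
  refine ⟨2 ^ p * C, by positivity, ?_⟩
  intro D f hD hf
  have hD0 : (0:ℝ) < D := by exact_mod_cast hD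
  have h1 := h D f hD hf
  have h2 : ENNReal.ofReal (2 ^ p * C * (D:ℝ) ^ (exp1 n)) =
      ENNReal.ofReal (2 ^ p) * ENNReal.ofReal (C * (D:ℝ) ^ (exp1 n)) := by
    rw [← ENNReal.ofReal_mul (by positivity)]; congr 1; ring
  refine ⟨h1.trans ?_, ?_⟩
  · gcongr
    exact le_mul_of_one_le_left hC.le h2p
  · intro δ hδ
    have hm : Measurable (fun e : sphere (0:(EuclideanSpace ℝ (Fin n))) 1 => segMaxF f (e : (EuclideanSpace ℝ (Fin n))) ^ p) :=
      ((measurable_segMaxF hf).comp measurable_subtype_coe).pow_const p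
    calc ∫⁻ e, kakeyaMax δ f (e : (EuclideanSpace ℝ (Fin n))) ^ p ∂(sig n)
        ≤ ∫⁻ e, ENNReal.ofReal (2 ^ p) * segMaxF f (e : (EuclideanSpace ℝ (Fin n))) ^ p ∂(sig n) := by
          apply lintegral_mono
          intro e
          have he : ‖(e : (EuclideanSpace ℝ (Fin n)))‖ = 1 := by simp
          have h3 := kakeyaMax_le hδ hf.measurable he
          calc kakeyaMax δ f (e : (EuclideanSpace ℝ (Fin n))) ^ p ≤ (2 * segMaxF f (e : (EuclideanSpace ℝ (Fin n)))) ^ p := by gcongr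
            _ = ENNReal.ofReal (2 ^ p) * segMaxF f (e : (EuclideanSpace ℝ (Fin n))) ^ p := by
                rw [ENNReal.mul_rpow_of_nonneg _ _ hp0.le, ← ENNReal.ofReal_rpow_of_pos (by norm_num)]
                simp
      _ = ENNReal.ofReal (2 ^ p) * ∫⁻ e, segMaxF f (e : (EuclideanSpace ℝ (Fin n))) ^ p ∂(sig n) :=
          lintegral_const_mul _ hm
      _ ≤ ENNReal.ofReal (2 ^ p) * (ENNReal.ofReal (C * (D:ℝ) ^ (exp1 n)) * ∫⁻ y, ‖f y‖ₑ ^ p) := by
          gcongr
      _ = _ := by rw [h2, mul_assoc]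

end Pool.Agent.W770.SA
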